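import Pool.Agent.H540.TE.Dm

/-! Pairs in increasing order. -/

set_option autoImplicit false

namespace Pool.Agent.H540.PS

open Finset
open H343 (ex)

/-- the Fourier coefficients of the half of the circle -/
noncomputable def cj (q N j : ℕ) : ℂ := ((1 / q : ℝ) : ℂ) * ∑ h ∈ Icc 1 N, ex (-(j / q : ℝ) * h)

theorem half_four (N : ℕ) (hN : 1 ≤ N) (m : ℤ) (h1 : -(N : ℤ) < m) (h2 : m < N) :
    (((if 0 < m then 1 else 0 : ℝ)) : ℂ) = ∑ j ∈ range (2 * N), cj (2 * N) N j * ex ((j / (2 * N : ℕ) : ℝ) * m) := by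
  have e1 : ∑ h ∈ Icc 1 N, ((uu (2 * N) (m - (h : ℤ)) : ℝ) : ℂ) =
      ∑ j ∈ range (2 * N), cj (2 * N) N j * ex ((j / (2 * N : ℕ) : ℝ) * m) := by
    have e0 : ∀ h ∈ Icc 1 N, ((uu (2 * N) (m - (h : ℤ)) : ℝ) : ℂ) =
        ∑ j ∈ range (2 * N), ((1 / (2 * N : ℕ) : ℝ) : ℂ) * ex ((j / (2 * N : ℕ) : ℝ) * ((m - (h : ℤ) : ℤ) : ℝ)) :=
      fun h _ => uu_four (2 * N) (by omega) (m - (h : ℤ))
    rw [sum_congr rfl e0, sum_comm]
    apply sum_congr rfl
    intro j _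
    unfold cj
    rw [mul_sum, sum_mul]
    apply sum_congr rfl
    intro h _
    have e2 : ex ((j / (2 * N : ℕ) : ℝ) * ((m - (h : ℤ) : ℤ) : ℝ)) =
        ex (-(j / (2 * N : ℕ) : ℝ) * h) * ex ((j / (2 * N : ℕ) : ℝ) * m) := by
      rw [← H343.Gauss.ex_add]
      congr 1
      push_cast
      ring
    rw [e2]
    ring
  rw [← e1]
  have huu : ∀ h ∈ Icc 1 N, uu (2 * N) (m - (h : ℤ)) = if m = (h : ℤ) then 1 else 0 := by
    intro h hh
    rw [mem_Icc] at hh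
    unfold uu
    by_cases hc : m = (h : ℤ)
    · rw [if_pos (by rw [hc, sub_self]; exact dvd_zero _), if_pos hc]
    · rw [if_neg, if_neg hc]
      intro hd
      have h3 := Int.eq_zero_of_abs_lt_dvd hd (by
        rw [abs_lt]
        constructor <;> push_cast <;> omega)
      omega
  rw [sum_congr rfl (fun h hh => by rw [huu h hh])]
  by_cases hm : 0 < m
  · rw [if_pos hm]
    obtain ⟨k, hk⟩ : ∃ k : ℕ, (k : ℤ) = m := ⟨m.toNat, Int.toNat_of_nonneg hm.le⟩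
    rw [sum_eq_single_of_mem k (by rw [mem_Icc]; omega)]
    · rw [if_pos hk.symm]
    · intro h _ hne
      rw [if_neg (by omega)]
      simp
  · rw [if_neg hm, sum_eq_zero]
    · simp
    · intro h hh
      rw [mem_Icc] at hh
      rw [if_neg (by omega)]
      simp

theorem cj_le (N j : ℕ) (hj : 1 ≤ j) (hj2 : j < 2 * N) :
    ‖cj (2 * N) N j‖ ≤ 1 / 2 * (1 / j + 1 / ((2 * N - j : ℕ) : ℝ)) := by
  unfold cj
  have hq : (0 : ℝ) < ((2 * N : ℕ) : ℝ) := by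
    have : 0 < 2 * N := by omega
    exact_mod_cast this
  have e1 : ∑ h ∈ Icc 1 N, ex (-(j / (2 * N : ℕ) : ℝ) * h) =
      (starRingEnd ℂ) (∑ h ∈ Icc 1 N, ex (h * ((j : ℝ) / (2 * N : ℕ)))) := by
    rw [map_sum]
    apply sum_congr rfl
    intro h _
    rw [Pool.Agent.Y882.PX.ex_conj]
    congr 1
    ring
  rw [norm_mul, e1, RCLike.norm_conj, Complex.norm_real, Real.norm_eq_abs, abs_of_pos (by positivity)]
  have h1 := H343.PVaux.geom_le N (2 * N) j hj hj2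
  calc 1 / ((2 * N : ℕ) : ℝ) * ‖∑ h ∈ Icc 1 N, ex (h * ((j : ℝ) / (2 * N : ℕ)))‖ ≤
        1 / ((2 * N : ℕ) : ℝ) * (((2 * N : ℕ) : ℝ) / 2 * (1 / j + 1 / ((2 * N - j : ℕ) : ℝ))) :=
        mul_le_mul_of_nonneg_left h1 (by positivity)
    _ = _ := by field_simp

theorem cj_zero (N : ℕ) (hN : 1 ≤ N) : ‖cj (2 * N) N 0‖ ≤ 1 / 2 := by
  unfold cj
  have hN0 : (0 : ℝ) < N := by exact_mod_cast hN
  have hq : (0 : ℝ) < ((2 * N : ℕ) : ℝ) := by
    push_cast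
    linarith
  rw [norm_mul, Complex.norm_real, Real.norm_eq_abs, abs_of_pos (by positivity)]
  have h1 : ‖∑ h ∈ Icc 1 N, ex (-(((0 : ℕ) : ℝ) / (2 * N : ℕ)) * h)‖ ≤ N := by
    refine (norm_sum_le _ _).trans ?_
    refine (sum_le_sum fun h _ => (H343.Gauss.norm_ex _).le).trans ?_
    rw [sum_const, Nat.card_Icc, nsmul_eq_mul]
    simp
  calc 1 / ((2 * N : ℕ) : ℝ) * ‖∑ h ∈ Icc 1 N, ex (-(((0 : ℕ) : ℝ) / (2 * N : ℕ)) * h)‖ ≤
        1 / ((2 * N : ℕ) : ℝ) * N := mul_le_mul_of_nonneg_left h1 (by positivity)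
    _ = 1 / 2 := by
        push_cast
        field_simp

theorem cj_sum (N : ℕ) (hN : 1 ≤ N) : ∑ j ∈ range (2 * N), ‖cj (2 * N) N j‖ ≤ 2 + Real.log (2 * N) := by
  have h1 : range (2 * N) = insert 0 (Ico 1 (2 * N)) := by
    ext x
    simp only [mem_range, mem_insert, mem_Ico]
    omega
  rw [h1, sum_insert (by simp)]
  have h2 : ∑ j ∈ Ico 1 (2 * N), ‖cj (2 * N) N j‖ ≤ ∑ j ∈ Ico 1 (2 * N), 1 / 2 * (1 / (j : ℝ) + 1 / ((2 * N - j : ℕ) : ℝ)) := by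
    apply sum_le_sum
    intro j hj
    rw [mem_Ico] at hj
    exact cj_le N j hj.1 hj.2
  have h3 := H343.PVaux.harmonic_le (2 * N) (by omega)
  rw [← mul_sum, sum_add_distrib, H343.PVaux.sum_reflect (2 * N) (by omega)] at h2
  have h4 := cj_zero N hN
  push_cast at h3
  linarith

/-- **the pairs in increasing order** -/
theorem half_bound (A : Finset ℤ) (N : ℕ) (hN : 1 ≤ N) (hA : ∀ a ∈ A, 1 ≤ a ∧ a ≤ N) (f : ℤ → ℝ) (B : ℝ)
    (hB : ∀ θ : ℝ, ‖pr' A θ f‖ ≤ B) :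
    |∑ a ∈ A, ∑ b ∈ A, (if 0 < a - b then f (a - b) else 0)| ≤ (2 + Real.log (2 * N)) * B := by
  have hB0 : 0 ≤ B := (norm_nonneg _).trans (hB 0)
  have e1 : ((∑ a ∈ A, ∑ b ∈ A, (if 0 < a - b then f (a - b) else 0) : ℝ) : ℂ) =
      ∑ j ∈ range (2 * N), cj (2 * N) N j * pr' A (j / (2 * N : ℕ) : ℝ) f := by
    unfold pr' pt
    rw [Complex.ofReal_sum]
    rw [sum_congr rfl (fun j _ => mul_sum A _ (cj (2 * N) N j)), sum_comm]
    apply sum_congr rfl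
    intro a ha
    rw [Complex.ofReal_sum]
    rw [sum_congr rfl (fun j _ => mul_sum A _ (cj (2 * N) N j)), sum_comm]
    apply sum_congr rfl
    intro b hb
    have ha' := hA a ha
    have hb' := hA b hb
    have e2 := half_four N hN (a - b) (by omega) (by omega)
    have e3 : ((if 0 < a - b then f (a - b) else 0 : ℝ) : ℂ) =
        (((if 0 < a - b then 1 else 0 : ℝ)) : ℂ) * (f (a - b) : ℂ) := by
      split_ifs <;> simp
    rw [e3, e2, sum_mul]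
    apply sum_congr rfl
    intro j _
    ring
  rw [← Real.norm_eq_abs, ← Complex.norm_real, e1]
  refine (norm_sum_le _ _).trans ?_
  have e2 : ∀ j ∈ range (2 * N), ‖cj (2 * N) N j * pr' A (j / (2 * N : ℕ) : ℝ) f‖ ≤ ‖cj (2 * N) N j‖ * B := by
    intro j _
    rw [norm_mul]
    exact mul_le_mul_of_nonneg_left (hB _) (norm_nonneg _)
  refine (sum_le_sum e2).trans ?_
  rw [← sum_mul]
  exact mul_le_mul_of_nonneg_right (cj_sum N hN) hB0

end Pool.Agent.H540.PS
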