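import Pool.Agent.H540.TE.Siz
import Pool.Agent.H540.TE.Sign
import Pool.Agent.H540.PS.Core
import Pool.Graph.R_seed8.Y882.KW.Core4

/-! **Almost primes at the differences of sets of size `N ^ (1 - c)`: the core.** -/

set_option autoImplicit false

namespace Pool.Agent.H540.PS

open Finset Filter
open Pool.Agent.Y882 (VV PZ tt_lt)
open Pool.Agent.Y882.KW (WW WB lsw4)
open Pool.Agent.W23.DC (pr Mer)

theorem mem_PZ' (N p : ℕ) (u : ℝ) : p ∈ PZ N u ↔ (1 ≤ p ∧ p ≤ N) ∧ p.Prime ∧ Pool.Agent.W23.DC.tt N p < u := by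
  classical
  unfold PZ
  rw [mem_filter, mem_Icc]

theorem mem_pr' (N p : ℕ) (u v : ℝ) : p ∈ pr N u v ↔ (1 ≤ p ∧ p ≤ N) ∧ p.Prime ∧
    u ≤ Pool.Agent.W23.DC.tt N p ∧ Pool.Agent.W23.DC.tt N p < v := by
  classical
  unfold pr
  rw [mem_filter, mem_Icc]

open Classical in
/-- the weight is at most the indicator function -/
theorem WB_le (N : ℕ) (ε₁ ζ υ aw bw : ℝ) (hb : 0 ≤ bw) (hab : bw * υ ≤ aw) (n : ℕ) :
    WB N ε₁ ζ υ aw bw n ≤ (if ∀ p ∈ pr N ε₁ ζ, ¬ p ∣ n then 1 else 0) := by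
  have hS0 : 0 ≤ ∑ q ∈ pr N ζ υ, (aw - bw * Pool.Agent.W23.DC.tt N q) * (if q ∣ n then (1 : ℝ) else 0) := by
    apply sum_nonneg
    intro q hq
    rw [mem_pr'] at hq
    have h6 : bw * Pool.Agent.W23.DC.tt N q ≤ bw * υ := mul_le_mul_of_nonneg_left hq.2.2.2.le hb
    apply mul_nonneg (by linarith)
    split_ifs <;> norm_num
  unfold WB
  split_ifs
  · linarith
  · simp

open Classical in
/-- from the weight of the middle primes to the weight of all primes -/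
theorem WW_pos (N : ℕ) (ε₁ ζ υ aw bw : ℝ) (n : ℕ) (h : 0 < WB N ε₁ ζ υ aw bw n)
    (h2 : ∀ p ∈ PZ N ε₁, ¬ p ∣ n) : 0 < WW N ζ υ aw bw n := by
  have h3 : ∀ p ∈ PZ N ζ, ¬ p ∣ n := by
    intro p hp
    rw [mem_PZ'] at hp
    by_cases hc : Pool.Agent.W23.DC.tt N p < ε₁
    · exact h2 p ((mem_PZ' N p ε₁).2 ⟨hp.1, hp.2.1, hc⟩)
    · push Not at hc
      have h4 : ∀ p ∈ pr N ε₁ ζ, ¬ p ∣ n := by
        by_contra hcon
        unfold WB at h
        rw [if_neg hcon, zero_mul] at h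
        exact lt_irrefl _ h
      exact h4 p ((mem_pr' N p ε₁ ζ).2 ⟨hp.1, hp.2.1, hc, hp.2.2⟩)
  unfold WW
  rw [if_pos h3]
  unfold WB at h
  split_ifs at h
  · exact h
  · rw [zero_mul] at h
    exact absurd h (lt_irrefl _)

open Classical in
/-- **The core.** -/
theorem coreT (K0 : ℕ) (τ ζ υ aw bw δ β : ℝ) (hβ : 0 < β) (hζ : 0 < ζ) (h2 : 2 * ζ < τ) (h4 : τ ≤ 4 * ζ)
    (hτ : τ ≤ 24 / 25) (hζυ : ζ ≤ υ) (hυτ : υ < τ) (ha : 0 ≤ aw) (hb : 0 ≤ bw) (hab : bw * υ ≤ aw)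
    (hJ0 : ∫ x in ζ..υ, (aw - bw * x) / (τ - x) / x < Real.log (τ / ζ - 1) / τ) (hδ : 0 < δ) (hδ1 : δ ≤ 1 / 100) :
    ∃ (c ε₁ η : ℝ) (N0 : ℕ), 0 < c ∧ c ≤ δ ∧ c < ε₁ ∧ 0 < ε₁ ∧ ε₁ ≤ ζ ∧ ε₁ ≤ β ∧ 0 < η ∧ ∀ N : ℕ, N0 ≤ N →
      ∀ (X Z : ℕ → ℤ → Prop) (B : Finset ℤ) (nn : ℤ → ℕ),
      (∀ p : ℕ, p.Prime → (p : ℝ) < (N : ℝ) ^ υ →
        (∀ m m' : ℤ, (p : ℤ) ∣ m - m' → (X p m ↔ X p m')) ∧ (RR (X p) p).card ≤ K0) →
      (∀ p : ℕ, p.Prime → (p : ℝ) < (N : ℝ) ^ ε₁ → ((∀ m m' : ℤ, (p : ℤ) ∣ m - m' → (Z p m ↔ Z p m')) ∧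
        (RR (Z p) p).card ≤ K0) ∧ ¬ Z p 0 ∧ ∀ m, X p m → Z p m) →
      Mer (pr N ε₁ υ) (Pool.Agent.W23.DC.tt N) (fun p => ((RR (X p) p).card : ℝ) / p) ε₁ υ η →
      (∀ a ∈ B, ∀ b ∈ B, b < a → ∀ p : ℕ, p.Prime → (p : ℝ) < (N : ℝ) ^ υ → (p ∣ nn (a - b) ↔ X p (a - b))) →
      (∀ a ∈ B, 1 ≤ a ∧ a ≤ N) → (N : ℝ) ^ (1 - c) ≤ B.card →
      (N : ℝ) ^ (2 - δ) ≤ (((B ×ˢ B).filter (fun z : ℤ × ℤ => z.2 < z.1 ∧
        (0 < WW N ζ υ aw bw (nn (z.1 - z.2)) ∧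
        ∀ p : ℕ, p.Prime → (p : ℝ) < (N : ℝ) ^ ε₁ → ¬ Z p (z.1 - z.2)))).card : ℝ) := by
  obtain ⟨f0, F0, hf0, hF0, HL⟩ := lsw4 τ ζ υ aw bw hζ h2 h4 (by linarith) hζυ hυτ ha hb hab hJ0
  obtain ⟨M, hM⟩ : ∃ M : ℝ, M = max 1 (F0 / f0) := ⟨_, rfl⟩
  have hM1 : 1 ≤ M := by rw [hM]; exact le_max_left _ _
  have hMF : F0 ≤ M * f0 := by
    have h1 : F0 / f0 ≤ M := by rw [hM]; exact le_max_right _ _
    rwa [div_le_iff₀ hf0] at h1
  obtain ⟨K, hK⟩ : ∃ K : ℕ, K = ⌈M⌉₊ * (2 * K0) := ⟨_, rfl⟩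
  have hceil : 1 ≤ ⌈M⌉₊ := Nat.one_le_ceil_iff.2 (by linarith)
  have hK2 : 2 * K0 ≤ K := by rw [hK]; exact Nat.le_mul_of_pos_left _ hceil
  have hMK : ∀ j : ℕ, j ≤ 2 * K0 → M * j ≤ K := by
    intro j hj
    rw [hK]
    push_cast
    have h1 : (j : ℝ) ≤ 2 * K0 := by exact_mod_cast hj
    exact mul_le_mul (Nat.le_ceil M) h1 (Nat.cast_nonneg _) (Nat.cast_nonneg _)
  have hKr : (0 : ℝ) ≤ K := Nat.cast_nonneg _
  obtain ⟨τ1, hτ1⟩ : ∃ τ1 : ℝ, τ1 = δ / 16 := ⟨_, rfl⟩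
  have hτ10 : 0 < τ1 := by rw [hτ1]; linarith
  obtain ⟨ε₁, hε₁⟩ : ∃ ε₁ : ℝ, ε₁ = min (min (min ζ (τ - υ)) β) (τ1 / (48 * (K + 2) ^ 2)) := ⟨_, rfl⟩
  have hq : (0 : ℝ) < 48 * (K + 2) ^ 2 := by positivity
  have hε0 : 0 < ε₁ := by
    rw [hε₁]
    exact lt_min (lt_min (lt_min hζ (by linarith)) hβ) (by positivity)
  have hεζ : ε₁ ≤ ζ := by
    rw [hε₁]
    exact ((min_le_left _ _).trans (min_le_left _ _)).trans (min_le_left _ _)
  have hετ : ε₁ ≤ τ - υ := by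
    rw [hε₁]
    exact ((min_le_left _ _).trans (min_le_left _ _)).trans (min_le_right _ _)
  have hεβ : ε₁ ≤ β := by rw [hε₁]; exact (min_le_left _ _).trans (min_le_right _ _)
  have hεK : ε₁ ≤ τ1 / (48 * (K + 2) ^ 2) := by rw [hε₁]; exact min_le_right _ _
  have hε192 : ε₁ ≤ τ1 / 192 := by
    refine hεK.trans ?_
    apply div_le_div_of_nonneg_left hτ10.le (by norm_num)
    nlinarith
  have hε20 : ε₁ ≤ 1 / 20 := by linarith
  obtain ⟨η, hη, HW⟩ := HL ε₁ hε0 hεζ hετ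
  obtain ⟨C, hC⟩ : ∃ C : ℕ, C = 8 * (K + 1) * (2 * K + 1) ^ 2 := ⟨_, rfl⟩
  obtain ⟨s0, hs0⟩ : ∃ s0 : ℕ, s0 = ⌈τ / ε₁⌉₊ := ⟨_, rfl⟩
  obtain ⟨c, hc⟩ : ∃ c : ℝ, c = ε₁ / 8 := ⟨_, rfl⟩
  have hc0 : 0 < c := by rw [hc]; linarith
  obtain ⟨C4, hC4⟩ : ∃ C4 : ℕ, C4 = 4 * ((K + 1) * ((K + 1) ^ 2 + K)) := ⟨_, rfl⟩
  obtain ⟨CM, hCM⟩ := Pool.Agent.Helper923.HMertens.mertens_log
  obtain ⟨C1, hC1⟩ : ∃ C1 : ℝ, C1 = ((K + 1 : ℕ) : ℝ) ^ ((K + 1) ^ 2) := ⟨_, rfl⟩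
  have hC10 : 0 < C1 := by rw [hC1]; positivity
  obtain ⟨cP, hcP, HP⟩ := prod_up C
  obtain ⟨A2, hA2⟩ : ∃ A2 : ℝ, A2 = Real.exp (Real.log (υ / ε₁) + η) := ⟨_, rfl⟩
  obtain ⟨N3, HN3⟩ := es_le C s0 (2 * C) τ τ1 ε₁ (2 * ((1 + aw) * A2 * cP)) (by linarith) hτ hτ10 (by linarith)
    hε0 hε20 (by rw [hA2]; positivity)
  have ev1 : ∀ᶠ N : ℕ in atTop, CM / ε₁ ≤ Real.log N := tlog.eventually_ge_atTop _
  have ev2 : ∀ᶠ N : ℕ in atTop, 384 * (C4 : ℝ) ^ (C4 ^ 2) ≤ (N : ℝ) ^ (τ1 / 8 - c) :=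
    (tpow (by linarith)).eventually_ge_atTop _
  have ev3 : ∀ᶠ N : ℕ in atTop, 64 * C1 ^ 2 ≤ (N : ℝ) ^ (1 - c - 3 * τ1) :=
    (tpow (by linarith)).eventually_ge_atTop _
  have ev4 : ∀ᶠ N : ℕ in atTop, 256 / (ε₁ * f0) ≤ (N : ℝ) ^ (ε₁ / 8) :=
    (tpow (by linarith)).eventually_ge_atTop _
  have ev5 : ∀ᶠ N : ℕ in atTop, 256 * C1 ^ 2 / (ε₁ * f0) ≤ (N : ℝ) ^ (δ - 2 * c - 3 * τ1) :=
    (tpow (by linarith)).eventually_ge_atTop _
  obtain ⟨N1, hN1⟩ := eventually_atTop.1 (ev1.and (ev2.and (ev3.and (ev4.and ev5))))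
  refine ⟨c, ε₁, η, max (max N1 N3) 3, hc0, by linarith, by linarith, hε0, hεζ, hεβ, hη, ?_⟩
  intro N hN X Z B nn hX hZ hMer hnn hB hBc
  obtain ⟨g1, g2, g3, g4, g5⟩ := hN1 N (((le_max_left _ _).trans (le_max_left _ _)).trans hN)
  have hErr := HN3 N (((le_max_right _ _).trans (le_max_left _ _)).trans hN) B
  have hN3' : 3 ≤ N := (le_max_right _ _).trans hN
  have hNr : (3 : ℝ) ≤ N := by exact_mod_cast hN3'
  have hN0 : (0 : ℝ) < N := by linarith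
  have hN1' : (1 : ℝ) ≤ N := by linarith
  have hpow : ∀ x y : ℝ, x ≤ y → (N : ℝ) ^ x ≤ (N : ℝ) ^ y := fun x y h =>
    Real.rpow_le_rpow_of_exponent_le hN1' h
  obtain ⟨cU, cL, hcb, hcX, hcN, hcM⟩ := HW N (by omega)
  obtain ⟨D, hD⟩ : ∃ D : ℝ, D = (N : ℝ) ^ τ1 := ⟨_, rfl⟩
  have hD1 : 1 < D := by
    rw [hD]
    exact Real.one_lt_rpow (by linarith) hτ10
  have hD0 : 0 < D := by linarith
  have hlogD : Real.log D = τ1 * Real.log N := by rw [hD, Real.log_rpow hN0]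
  have hNlog : 0 < Real.log N := Real.log_pos (by linarith)
  obtain ⟨P, hPe⟩ : ∃ P : Finset ℕ, P = PZ N ε₁ := ⟨_, rfl⟩
  obtain ⟨R, hRe⟩ : ∃ R : Finset ℕ, R = pr N ε₁ υ := ⟨_, rfl⟩
  have hPm : ∀ p ∈ P, p.Prime ∧ (p : ℝ) < (N : ℝ) ^ ε₁ := by
    intro p hp
    rw [hPe, mem_PZ'] at hp
    exact ⟨hp.2.1, (tt_lt N p ε₁ (by omega) hp.2.1.pos).1 hp.2.2⟩
  have hRm : ∀ p ∈ R, p.Prime ∧ (N : ℝ) ^ ε₁ ≤ p ∧ (p : ℝ) < (N : ℝ) ^ υ := by
    intro p hp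
    rw [hRe, mem_pr'] at hp
    refine ⟨hp.2.1, ?_, (tt_lt N p υ (by omega) hp.2.1.pos).1 hp.2.2.2⟩
    by_contra hcon
    push Not at hcon
    have := (tt_lt N p ε₁ (by omega) hp.2.1.pos).2 hcon
    linarith [hp.2.2.1]
  have hPp : ∀ p ∈ P, p.Prime := fun p hp => (hPm p hp).1
  have hRp : ∀ p ∈ R, p.Prime := fun p hp => (hRm p hp).1
  have hευ : (N : ℝ) ^ ε₁ ≤ (N : ℝ) ^ υ := hpow _ _ (hεζ.trans hζυ)
  have hRP : Disjoint R P := by
    rw [disjoint_left]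
    intro p hp hp'
    linarith [(hRm p hp).2.1, (hPm p hp').2]
  -- the symmetric sets
  obtain ⟨X', hX'⟩ : ∃ X' : ℕ → ℤ → Prop, X' = fun p m => Z p m ∨ Z p (-m) := ⟨_, rfl⟩
  have hEv0 : ∀ p ∈ P, Ev (X' p) p (2 * K0) := by
    intro p hp
    obtain ⟨a1, a2⟩ := hPm p hp
    obtain ⟨⟨b1, b2⟩, b3, _⟩ := hZ p a1 a2
    rw [hX']
    exact sym_Ev (Z p) p K0 a1.pos b1 b3 b2
  have hEv : ∀ p ∈ P, Ev (X' p) p K := fun p hp =>
    ⟨(hEv0 p hp).per, (hEv0 p hp).even, (hEv0 p hp).zero, (hEv0 p hp).card.trans hK2⟩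
  have hlogc : ε₁ * Real.log N ≤ Real.log D / (48 * (K + 2) ^ 2) := by
    rw [hlogD]
    calc ε₁ * Real.log N ≤ τ1 / (48 * (K + 2) ^ 2) * Real.log N := mul_le_mul_of_nonneg_right hεK hNlog.le
      _ = _ := by ring
  have hhalfK : Real.log D / (24 * (K + 2) ^ 2) = 2 * (Real.log D / (48 * (K + 2) ^ 2)) := by
    field_simp
    ring
  have hlog : ∀ p ∈ P, Real.log p ≤ Real.log D / (24 * (K + 2) ^ 2) := by
    intro p hp
    obtain ⟨a1, a2⟩ := hPm p hp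
    have h1 : Real.log p ≤ ε₁ * Real.log N := by
      rw [← Real.log_rpow hN0]
      exact Real.log_le_log (by exact_mod_cast a1.pos) a2.le
    have h2 : 0 ≤ ε₁ * Real.log N := by positivity
    linarith
  have hPD : ∀ p ∈ P, (p : ℝ) ≤ D := by
    intro p hp
    obtain ⟨a1, a2⟩ := hPm p hp
    refine a2.le.trans ?_
    rw [hD]
    exact hpow _ _ (by linarith)
  have hzpos : 0 ≤ (N : ℝ) ^ ε₁ := by positivity
  have hMert : ∑ p ∈ P, Real.log p / p ≤ Real.log D / (24 * (K + 2) ^ 2) := by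
    have hz1 : 1 ≤ ⌊(N : ℝ) ^ ε₁⌋₊ := by
      apply Nat.le_floor
      rw [Nat.cast_one]
      exact Real.one_le_rpow hN1' hε0.le
    have h1 := (abs_le.1 (hCM _ hz1)).2
    have h0 : ∑ p ∈ P, Real.log p / (p : ℝ) ≤
        ∑ p ∈ (Icc 1 ⌊(N : ℝ) ^ ε₁⌋₊).filter Nat.Prime, Real.log p / (p : ℝ) := by
      apply sum_le_sum_of_subset_of_nonneg
      · intro p hp
        obtain ⟨a1, a2⟩ := hPm p hp
        rw [mem_filter, mem_Icc]
        exact ⟨⟨a1.one_le, Nat.le_floor a2.le⟩, a1⟩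
      · intro p _ _
        exact div_nonneg (Real.log_natCast_nonneg p) (Nat.cast_nonneg p)
    have h2 : Real.log (⌊(N : ℝ) ^ ε₁⌋₊ : ℝ) ≤ ε₁ * Real.log N := by
      rw [← Real.log_rpow hN0]
      exact Real.log_le_log (by exact_mod_cast hz1) (Nat.floor_le hzpos)
    have h3 : CM ≤ ε₁ * Real.log N := by
      rw [div_le_iff₀ hε0] at g1
      linarith
    linarith
  have hmain := ff_mainM B N hB M hM1 hD1 hEv (fun p hp => hMK _ (hEv0 p hp).card) hPp hPD hlog hMert C4 hC4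
  have hE1 : 1 ≤ EE K X' P := EE_one hEv
  have hD6 : D ^ 6 ≤ N := by
    rw [hD, ← Real.rpow_natCast, ← Real.rpow_mul hN0.le]
    calc (N : ℝ) ^ (τ1 * ((6 : ℕ) : ℝ)) ≤ (N : ℝ) ^ (1 : ℝ) := by
          apply hpow
          push_cast
          linarith
      _ = N := Real.rpow_one _
  have hsq : Real.sqrt (D ^ (1 / 4 : ℝ)) = (N : ℝ) ^ (τ1 / 8) := by
    rw [hD, ← Real.rpow_mul hN0.le, Real.sqrt_eq_rpow, ← Real.rpow_mul hN0.le]
    congr 1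
    ring
  have hBc0 : 0 < (B.card : ℝ) := lt_of_lt_of_le (by positivity) hBc
  have herr : 6 * (C4 : ℝ) ^ (C4 ^ 2) * (N + D ^ 6) * B.card / Real.sqrt (D ^ (1 / 4 : ℝ)) ≤
      (B.card : ℝ) ^ 2 / 32 := by
    rw [hsq, div_le_iff₀ (by positivity)]
    have h1 : (N : ℝ) * (384 * (C4 : ℝ) ^ (C4 ^ 2)) ≤ B.card * (N : ℝ) ^ (τ1 / 8) := by
      calc (N : ℝ) * (384 * (C4 : ℝ) ^ (C4 ^ 2)) ≤ (N : ℝ) * (N : ℝ) ^ (τ1 / 8 - c) :=
            mul_le_mul_of_nonneg_left g2 hN0.le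
        _ = (N : ℝ) ^ (1 - c) * (N : ℝ) ^ (τ1 / 8) := by
            rw [← Real.rpow_add hN0]
            nth_rewrite 1 [← Real.rpow_one (N : ℝ)]
            rw [← Real.rpow_add hN0]
            congr 1
            ring
        _ ≤ _ := mul_le_mul_of_nonneg_right hBc (by positivity)
    calc 6 * (C4 : ℝ) ^ (C4 ^ 2) * (N + D ^ 6) * B.card ≤ 6 * (C4 : ℝ) ^ (C4 ^ 2) * (N + N) * B.card := by
          apply mul_le_mul_of_nonneg_right _ hBc0.le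
          apply mul_le_mul_of_nonneg_left _ (by positivity)
          linarith
      _ = (N : ℝ) * (384 * (C4 : ℝ) ^ (C4 ^ 2)) * (B.card / 32) := by ring
      _ ≤ B.card * (N : ℝ) ^ (τ1 / 8) * (B.card / 32) := mul_le_mul_of_nonneg_right h1 (by positivity)
      _ = _ := by ring
  have hpf : (B.card : ℝ) ^ 2 / 32 ≤ pf B (ffM M K X' D P) := by
    have h1 : (B.card : ℝ) ^ 2 / 32 ≤ pf B (ffM M K X' D P) / EE K X' P := by linarith
    rw [le_div_iff₀ (by linarith)] at h1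
    refine le_trans ?_ h1
    exact le_mul_of_one_le_right (by positivity) hE1
  -- the size of the weights
  have hLamM : ∀ m, Lam K X' D P m ^ 2 ≤ C1 ^ 2 * D ^ 3 := by
    intro m
    have h1 := Lam_abs (K := K) (X := X') hD1 hPp m
    rw [← hC1] at h1
    rw [← sq_abs]
    calc |Lam K X' D P m| ^ 2 ≤ (C1 * Real.sqrt D * D) ^ 2 := pow_le_pow_left₀ (abs_nonneg _) h1 2
      _ = C1 ^ 2 * (Real.sqrt D) ^ 2 * D ^ 2 := by ring
      _ = C1 ^ 2 * D ^ 3 := by rw [Real.sq_sqrt hD0.le]; ring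
  have hD3 : D ^ 3 = (N : ℝ) ^ (3 * τ1) := by
    rw [hD, ← Real.rpow_natCast, ← Real.rpow_mul hN0.le]
    congr 1
    push_cast
    ring
  have hdiag : 64 * (C1 ^ 2 * D ^ 3) ≤ B.card := by
    refine le_trans ?_ hBc
    rw [hD3]
    calc 64 * (C1 ^ 2 * (N : ℝ) ^ (3 * τ1)) = 64 * C1 ^ 2 * (N : ℝ) ^ (3 * τ1) := by ring
      _ ≤ (N : ℝ) ^ (1 - c - 3 * τ1) * (N : ℝ) ^ (3 * τ1) := mul_le_mul_of_nonneg_right g3 (by positivity)
      _ = (N : ℝ) ^ (1 - c) := by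
          rw [← Real.rpow_add hN0]
          congr 1
          ring
  have hhalf : (B.card : ℝ) ^ 2 / 128 ≤ hf B (ffM M K X' D P) := by
    have h1 := half_even B (ffM M K X' D P) (fun m => ffM_even hEv m)
    have h2 : ffM M K X' D P 0 ≤ C1 ^ 2 * D ^ 3 := by
      refine le_trans ?_ (hLamM 0)
      unfold ffM
      have := SPm_nonneg (K := K) (X := X') D P 0
      unfold SPm at this
      nlinarith
    have h3 : B.card * ffM M K X' D P 0 ≤ (B.card : ℝ) ^ 2 / 64 := by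
      calc B.card * ffM M K X' D P 0 ≤ B.card * (B.card / 64) := by
            apply mul_le_mul_of_nonneg_left _ hBc0.le
            linarith
        _ = _ := by ring
    linarith
  -- the weights of the large primes
  obtain ⟨g, hg⟩ : ∃ g : ℕ → ℝ, g = fun p => ((RR (X p) p).card : ℝ) / p := ⟨_, rfl⟩
  rw [← hg] at hMer
  have hg0 : ∀ p, 0 ≤ g p := fun p => by rw [hg]; positivity
  obtain ⟨hVL, hVU⟩ := hcM g (fun p _ => hg0 p) hMer
  rw [← hRe] at hVL hVU hcN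
  obtain ⟨VL, hVLe⟩ : ∃ VL : ℝ, VL = VV R cL g := ⟨_, rfl⟩
  obtain ⟨VU, hVUe⟩ : ∃ VU : ℝ, VU = VV R cU g := ⟨_, rfl⟩
  rw [← hVLe] at hVL
  rw [← hVUe] at hVU
  have hVL0 : 0 < VL := lt_of_lt_of_le (by positivity) hVL
  have hVUL : VU ≤ M * VL := by
    calc VU ≤ ε₁ * F0 := hVU
      _ ≤ ε₁ * (M * f0) := mul_le_mul_of_nonneg_left hMF hε0.le
      _ = M * (ε₁ * f0) := by ring
      _ ≤ M * VL := mul_le_mul_of_nonneg_left hVL (by linarith)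
  -- the error
  obtain ⟨O, hO⟩ : ∃ O : ℤ → ℝ, O = fun m => (VV R cL (fun p => xI (X p) m) - VL) * Lam K X' D P m ^ 2 -
    (VV R cU (fun p => xI (X p) m) - VU) * SPm K X' D P m := ⟨_, rfl⟩
  have hCK : K0 ≤ C := by
    rw [hC]
    have h1 : K0 ≤ K := by omega
    have h2 : K ≤ 8 * (K + 1) * (2 * K + 1) ^ 2 := by
      have h3 : 1 ≤ (2 * K + 1) ^ 2 := Nat.one_le_pow _ _ (by omega)
      calc K ≤ 8 * (K + 1) * 1 := by omega
        _ ≤ _ := Nat.mul_le_mul_left _ h3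
    omega
  have hErrO : |hf B O| ≤ (N : ℝ) ^ (1 - ε₁ / 4) * B.card := by
    have hPi := HP P N (by linarith) (fun p hp => ⟨hPp p hp, by
      rw [hPe, mem_PZ'] at hp
      exact_mod_cast hp.1.2⟩)
    have hRi : ∏ p ∈ R, (1 + g p) ≤ A2 := by
      have e1 : ∏ p ∈ R, (1 + g p) ≤ ∏ p ∈ R, Real.exp (g p) := by
        apply Finset.prod_le_prod
        · intro p _
          have := hg0 p
          linarith
        · intro p _
          have := Real.add_one_le_exp (g p)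
          linarith
      refine e1.trans ?_
      rw [← Real.exp_sum, hA2, Real.exp_le_exp]
      have e2 := hMer ε₁ υ le_rfl (hεζ.trans hζυ) le_rfl
      have e3 : (pr N ε₁ υ).filter (fun p => ε₁ ≤ Pool.Agent.W23.DC.tt N p ∧ Pool.Agent.W23.DC.tt N p < υ) = R := by
        rw [hRe]
        apply filter_true_of_mem
        intro p hp
        rw [mem_pr'] at hp
        exact hp.2.2
      rw [e3] at e2
      have e4 := (abs_le.1 e2).2
      linarith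
    have hb0 : ∀ θ : ℝ, ‖pr' B θ O‖ ≤ 2 * ((1 + aw) * A2 * cP) * ((3 * Real.log N) ^ (2 * C) *
        Es B N ((N : ℝ) ^ τ1) ((N : ℝ) ^ τ) ((N : ℝ) ^ ε₁) C s0) := by
      intro θ
      have h1 := err_tot B N (by omega) hB θ hD1 (Y := (N : ℝ) ^ τ) (z := (N : ℝ) ^ ε₁)
        (Real.one_le_rpow hN1' (by linarith)) (Real.one_le_rpow hN1' hε0.le) P R hPp hRp hRP
        (fun p hp => (hRm p hp).2.1) K X' hEv hPD C hC s0 (by
          intro S hS hSY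
          have e1 : ((N : ℝ) ^ ε₁) ^ S.card ≤ (N : ℝ) ^ τ := by
            refine le_trans ?_ hSY
            push_cast
            rw [← prod_const]
            exact Finset.prod_le_prod (fun _ _ => hzpos) (fun p hp => (hRm p (hS hp)).2.1)
          rw [← Real.rpow_natCast, ← Real.rpow_mul hN0.le] at e1
          have e2 : ε₁ * S.card ≤ τ := (Real.rpow_le_rpow_left_iff (by linarith)).1 e1
          have e3 : (S.card : ℝ) ≤ τ / ε₁ := by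
            rw [le_div_iff₀ hε0]
            linarith
          rw [hs0]
          exact_mod_cast e3.trans (Nat.le_ceil _)) X
        (fun p hp => (hX p (hRm p hp).1 (hRm p hp).2.2).1)
        (fun p hp => (hX p (hRm p hp).1 (hRm p hp).2.2).2.trans hCK) cL cU (1 + aw)
        (fun T => ⟨(hcb T).1.trans (by linarith), (hcb T).2⟩)
        (fun T hT h => hcX T (by rw [← hRe]; exact hT) h)
      have h2 : (∏ p ∈ R, (1 + ((RR (X p) p).card : ℝ) / p)) = ∏ p ∈ R, (1 + g p) := by rw [hg]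
      have h3 : pr' B θ O = pr' B θ (fun m => (VV R cL (fun p => xI (X p) m) -
          VV R cL (fun p => ((RR (X p) p).card : ℝ) / p)) * Lam K X' D P m ^ 2 -
          (VV R cU (fun p => xI (X p) m) - VV R cU (fun p => ((RR (X p) p).card : ℝ) / p)) *
          SPm K X' D P m) := by
        rw [hO, hVLe, hVUe, hg]
      rw [← h3, h2] at h1
      refine h1.trans ?_
      rw [← hD]
      have hEs := Es_nonneg B N D ((N : ℝ) ^ τ) ((N : ℝ) ^ ε₁) C s0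
      have hR0 : 0 ≤ ∏ p ∈ R, (1 + g p) := prod_nonneg fun p _ => by
        have := hg0 p
        linarith
      have hP0 : 0 ≤ ∏ p ∈ P, (1 + (C : ℝ) / p) := prod_nonneg fun p _ => by positivity
      have hA20 : 0 ≤ A2 := hR0.trans hRi
      calc 2 * ((1 + aw) * (∏ p ∈ R, (1 + g p)) * ((∏ p ∈ P, (1 + (C : ℝ) / p)) *
            Es B N D ((N : ℝ) ^ τ) ((N : ℝ) ^ ε₁) C s0)) ≤
            2 * ((1 + aw) * A2 * ((cP * (3 * Real.log N) ^ (2 * C)) *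
            Es B N D ((N : ℝ) ^ τ) ((N : ℝ) ^ ε₁) C s0)) := by
            apply mul_le_mul_of_nonneg_left _ (by norm_num)
            apply mul_le_mul _ _ (by positivity) (by positivity)
            · exact mul_le_mul_of_nonneg_left hRi (by linarith)
            · exact mul_le_mul_of_nonneg_right hPi hEs
        _ = _ := by ring
    have h1 := half_bound B N (by omega) hB O _ hb0
    refine h1.trans ?_
    rw [← mul_assoc] at hErr
    rw [← mul_assoc]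
    exact hErr
  have hErrO2 : -((B.card : ℝ) ^ 2 * (ε₁ * f0) / 256) ≤ hf B O := by
    have h1 := (abs_le.1 hErrO).1
    have h2 : (N : ℝ) ^ (1 - ε₁ / 4) * B.card ≤ (B.card : ℝ) ^ 2 * (ε₁ * f0) / 256 := by
      have e1 : (N : ℝ) ^ (1 - ε₁ / 4) * (N : ℝ) ^ (ε₁ / 8) ≤ B.card := by
        refine le_trans (le_of_eq ?_) hBc
        rw [← Real.rpow_add hN0, hc]
        congr 1
        ring
      have e2 : (N : ℝ) ^ (1 - ε₁ / 4) * (256 / (ε₁ * f0)) ≤ B.card :=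
        (mul_le_mul_of_nonneg_left g4 (by positivity)).trans e1
      have e3 : (N : ℝ) ^ (1 - ε₁ / 4) ≤ B.card * (ε₁ * f0) / 256 := by
        rw [le_div_iff₀ (by norm_num)]
        calc (N : ℝ) ^ (1 - ε₁ / 4) * 256 = (N : ℝ) ^ (1 - ε₁ / 4) * (256 / (ε₁ * f0)) * (ε₁ * f0) := by
              field_simp
          _ ≤ B.card * (ε₁ * f0) := mul_le_mul_of_nonneg_right e2 (by positivity)
      calc (N : ℝ) ^ (1 - ε₁ / 4) * B.card ≤ B.card * (ε₁ * f0) / 256 * B.card :=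
            mul_le_mul_of_nonneg_right e3 hBc0.le
        _ = _ := by ring
    linarith
  -- the weight
  obtain ⟨w, hw⟩ : ∃ w : ℤ → ℝ, w = fun m => VV R cL (fun p => xI (X p) m) * Lam K X' D P m ^ 2 -
    VV R cU (fun p => xI (X p) m) * SPm K X' D P m := ⟨_, rfl⟩
  have hwlow : (B.card : ℝ) ^ 2 * (ε₁ * f0) / 256 ≤ hf B w := by
    have h1 : hf B (fun m => VL * ffM M K X' D P m + O m) ≤ hf B w := by
      apply hf_le
      intro a _ b _ _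
      rw [hw, hO]
      simp only
      have e1 : ffM M K X' D P (a - b) = Lam K X' D P (a - b) ^ 2 - M * SPm K X' D P (a - b) := rfl
      rw [e1]
      have e2 := SPm_nonneg (K := K) (X := X') D P (a - b)
      have e3 : VU * SPm K X' D P (a - b) ≤ M * VL * SPm K X' D P (a - b) :=
        mul_le_mul_of_nonneg_right hVUL e2
      linarith
    rw [hf_add, hf_smul] at h1
    have h3 : ε₁ * f0 * ((B.card : ℝ) ^ 2 / 128) ≤ VL * hf B (ffM M K X' D P) :=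
      mul_le_mul hVL hhalf (by positivity) hVL0.le
    linarith
  -- the pointwise upper bound
  obtain ⟨G, hG⟩ : ∃ G : ℤ → Prop, G = fun m => (0 < WW N ζ υ aw bw (nn m) ∧
    ∀ p : ℕ, p.Prime → (p : ℝ) < (N : ℝ) ^ ε₁ → ¬ Z p m) := ⟨_, rfl⟩
  have hwup : hf B w ≤ hf B (fun m => if G m then C1 ^ 2 * D ^ 3 else 0) := by
    apply hf_le
    intro a haB b hbB hab'
    have hba : b < a := by linarith
    have hxI : ∀ p ∈ R, xI (X p) (a - b) = if p ∣ nn (a - b) then 1 else 0 := by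
      intro p hp
      obtain ⟨r1, r2, r3⟩ := hRm p hp
      have h1 := hnn a haB b hbB hba p r1 r3
      unfold xI
      by_cases h2 : X p (a - b)
      · rw [if_pos h2, if_pos (h1.2 h2)]
      · rw [if_neg h2, if_neg (fun h => h2 (h1.1 h))]
    have hVVc : ∀ cc : Finset ℕ → ℝ, VV R cc (fun p => xI (X p) (a - b)) =
        VV R cc (fun p => if p ∣ nn (a - b) then 1 else 0) := by
      intro cc
      unfold VV
      apply sum_congr rfl
      intro T hT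
      rw [mem_powerset] at hT
      congr 1
      exact prod_congr rfl fun p hp => hxI p (hT hp)
    obtain ⟨n1, n2⟩ := hcN (nn (a - b))
    rw [hw]
    simp only
    rw [hVVc, hVVc]
    have hwp := w_point (K := K) (X := X') hEv (a - b) _ _ (WB N ε₁ ζ υ aw bw (nn (a - b)))
      (if ∀ p ∈ pr N ε₁ ζ, ¬ p ∣ nn (a - b) then 1 else 0) (C1 ^ 2 * D ^ 3) n1
      (WB_le N ε₁ ζ υ aw bw hb hab _) n2 (by split_ifs <;> norm_num) (by split_ifs <;> norm_num) (hLamM (a - b))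
    refine hwp.trans ?_
    by_cases hgood : 0 < WB N ε₁ ζ υ aw bw (nn (a - b)) ∧ ∀ p ∈ P, ¬ X' p (a - b)
    · rw [if_pos hgood, if_pos]
      rw [hG]
      constructor
      · apply WW_pos N ε₁ ζ υ aw bw _ hgood.1
        intro p hp hpn
        rw [← hPe] at hp
        apply hgood.2 p hp
        rw [hX']
        left
        exact (hZ p (hPm p hp).1 (hPm p hp).2).2.2 _
          ((hnn a haB b hbB hba p (hPm p hp).1 ((hPm p hp).2.trans_le hευ)).1 hpn)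
      · intro p hp hpN hZp
        refine hgood.2 p ?_ ?_
        · rw [hPe, mem_PZ']
          refine ⟨⟨hp.one_le, ?_⟩, hp, (tt_lt N p ε₁ (by omega) hp.pos).2 hpN⟩
          have h9 : (p : ℝ) ≤ N := by
            calc (p : ℝ) ≤ (N : ℝ) ^ ε₁ := hpN.le
              _ ≤ (N : ℝ) ^ (1 : ℝ) := hpow _ _ (by linarith)
              _ = N := Real.rpow_one _
          exact_mod_cast h9
        · rw [hX']
          exact Or.inl hZp
    · rw [if_neg hgood]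
      split_ifs
      · positivity
      · exact le_refl _
  have hcount : hf B (fun m => if G m then C1 ^ 2 * D ^ 3 else 0) =
      C1 ^ 2 * D ^ 3 * (((B ×ˢ B).filter (fun z : ℤ × ℤ => z.2 < z.1 ∧ G (z.1 - z.2))).card : ℝ) := by
    unfold hf
    rw [← sum_product', card_filter]
    push_cast
    rw [mul_sum]
    apply sum_congr rfl
    intro z _
    by_cases h1 : z.2 < z.1
    · rw [if_pos (by linarith)]
      by_cases h2 : G (z.1 - z.2)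
      · rw [if_pos h2, if_pos ⟨h1, h2⟩, mul_one]
      · rw [if_neg h2, if_neg (fun h => h2 h.2), mul_zero]
    · rw [if_neg (by linarith), if_neg (fun h => h1 h.1), mul_zero]
  have hfin := (hwlow.trans hwup).trans (le_of_eq hcount)
  have hGe : ((B ×ˢ B).filter (fun z : ℤ × ℤ => z.2 < z.1 ∧ G (z.1 - z.2))) =
      (B ×ˢ B).filter (fun z : ℤ × ℤ => z.2 < z.1 ∧ (0 < WW N ζ υ aw bw (nn (z.1 - z.2)) ∧
        ∀ p : ℕ, p.Prime → (p : ℝ) < (N : ℝ) ^ ε₁ → ¬ Z p (z.1 - z.2))) := by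
    ext z
    rw [mem_filter, mem_filter, hG]
  rw [hGe] at hfin
  obtain ⟨t, ht⟩ : ∃ t : ℝ, t = (((B ×ˢ B).filter (fun z : ℤ × ℤ => z.2 < z.1 ∧
    (0 < WW N ζ υ aw bw (nn (z.1 - z.2)) ∧
        ∀ p : ℕ, p.Prime → (p : ℝ) < (N : ℝ) ^ ε₁ → ¬ Z p (z.1 - z.2)))).card : ℝ) := ⟨_, rfl⟩
  rw [← ht] at hfin ⊢
  have ht0 : 0 ≤ t := by rw [ht]; exact Nat.cast_nonneg _
  have hef : 0 < ε₁ * f0 := by positivity
  have k1 : (B.card : ℝ) ^ 2 ≤ 256 * C1 ^ 2 / (ε₁ * f0) * D ^ 3 * t := by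
    have e1 : (B.card : ℝ) ^ 2 * (ε₁ * f0) ≤ 256 * (C1 ^ 2 * D ^ 3 * t) := by linarith
    calc (B.card : ℝ) ^ 2 = (B.card : ℝ) ^ 2 * (ε₁ * f0) / (ε₁ * f0) := by field_simp
      _ ≤ 256 * (C1 ^ 2 * D ^ 3 * t) / (ε₁ * f0) := div_le_div_of_nonneg_right e1 hef.le
      _ = _ := by ring
  have k2 : (N : ℝ) ^ (2 - 2 * c) ≤ (B.card : ℝ) ^ 2 := by
    calc (N : ℝ) ^ (2 - 2 * c) = ((N : ℝ) ^ (1 - c)) ^ 2 := by
          rw [← Real.rpow_natCast, ← Real.rpow_mul hN0.le]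
          congr 1
          push_cast
          ring
      _ ≤ _ := pow_le_pow_left₀ (by positivity) hBc 2
  have k3 : 256 * C1 ^ 2 / (ε₁ * f0) * D ^ 3 * t ≤ (N : ℝ) ^ (δ - 2 * c) * t := by
    apply mul_le_mul_of_nonneg_right _ ht0
    rw [hD3]
    calc 256 * C1 ^ 2 / (ε₁ * f0) * (N : ℝ) ^ (3 * τ1) ≤ (N : ℝ) ^ (δ - 2 * c - 3 * τ1) * (N : ℝ) ^ (3 * τ1) :=
          mul_le_mul_of_nonneg_right g5 (by positivity)
      _ = (N : ℝ) ^ (δ - 2 * c) := by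
          rw [← Real.rpow_add hN0]
          congr 1
          ring
  have k4 : (N : ℝ) ^ (δ - 2 * c) * (N : ℝ) ^ (2 - δ) ≤ (N : ℝ) ^ (δ - 2 * c) * t := by
    calc (N : ℝ) ^ (δ - 2 * c) * (N : ℝ) ^ (2 - δ) = (N : ℝ) ^ (2 - 2 * c) := by
          rw [← Real.rpow_add hN0]
          congr 1
          ring
      _ ≤ _ := (k2.trans k1).trans k3
  exact le_of_mul_le_mul_left k4 (by positivity)

end Pool.Agent.H540.PS
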