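import Pool.Agent.H540.PS.Wt

/-! Domination of Fourier coefficients and twisted pair sums. -/

set_option autoImplicit false

namespace Pool.Agent.H540.PS

open Finset
open H343 (ex)
open Pool.Agent.Helper112 (ee)

/-- twisted pair sums -/
noncomputable def pt (A : Finset ℤ) (θ : ℝ) (f : ℤ → ℂ) : ℂ :=
  ∑ a ∈ A, ∑ b ∈ A, ex (θ * ((a - b : ℤ) : ℝ)) * f (a - b)

/-- the Fourier coefficients of the first function are dominated by those of the second -/
inductive Dm : (ℤ → ℂ) → (ℤ → ℂ) → Prop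
  | ch (φ : ℝ) (z : ℂ) (c : ℝ) : ‖z‖ ≤ c →
      Dm (fun m => z * ex (φ * m)) (fun m => (c : ℂ) * ex (φ * m))
  | zero : Dm (fun _ => 0) (fun _ => 0)
  | add {f g f' g' : ℤ → ℂ} : Dm f g → Dm f' g' → Dm (fun m => f m + f' m) (fun m => g m + g' m)

theorem Dm.congr {f g f' g' : ℤ → ℂ} (h : Dm f g) (e : ∀ m, f m = f' m) (e' : ∀ m, g m = g' m) :
    Dm f' g' := by
  have h1 : f = f' := funext e
  have h2 : g = g' := funext e'
  rw [← h1, ← h2]
  exact h

theorem Dm.ch_mul (φ : ℝ) (z : ℂ) (c : ℝ) (hz : ‖z‖ ≤ c) {f g : ℤ → ℂ} (h : Dm f g) :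
    Dm (fun m => z * ex (φ * m) * f m) (fun m => (c : ℂ) * ex (φ * m) * g m) := by
  have hc : 0 ≤ c := (norm_nonneg z).trans hz
  induction h with
  | ch φ' z' c' h' =>
    refine (Dm.ch (φ + φ') (z * z') (c * c') ?_).congr ?_ ?_
    · rw [norm_mul]
      exact mul_le_mul hz h' (norm_nonneg _) hc
    · intro m
      have : ex ((φ + φ') * m) = ex (φ * m) * ex (φ' * m) := by
        rw [← H343.Gauss.ex_add]
        congr 1
        ring
      rw [this]
      ring
    · intro m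
      have : ex ((φ + φ') * m) = ex (φ * m) * ex (φ' * m) := by
        rw [← H343.Gauss.ex_add]
        congr 1
        ring
      rw [this]
      push_cast
      ring
  | zero => exact Dm.zero.congr (fun m => by rw [mul_zero]) (fun m => by rw [mul_zero])
  | add _ _ h1 h2 => exact (Dm.add h1 h2).congr (fun m => by ring) (fun m => by ring)

theorem Dm.mul {f g f' g' : ℤ → ℂ} (h : Dm f g) (h' : Dm f' g') :
    Dm (fun m => f m * f' m) (fun m => g m * g' m) := by
  induction h with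
  | ch φ z c hz => exact Dm.ch_mul φ z c hz h'
  | zero => exact Dm.zero.congr (fun m => by rw [zero_mul]) (fun m => by rw [zero_mul])
  | add _ _ h1 h2 => exact (Dm.add h1 h2).congr (fun m => by ring) (fun m => by ring)

theorem Dm.const (z : ℂ) (c : ℝ) (h : ‖z‖ ≤ c) : Dm (fun _ => z) (fun _ => (c : ℂ)) := by
  refine (Dm.ch 0 z c h).congr (fun m => ?_) (fun m => ?_)
  · simp [ex]
  · simp [ex]

theorem Dm.self {f : ℤ → ℂ} (h : CP f) : Dm f f := by
  induction h with
  | ch θ => exact (Dm.ch θ 1 1 (by simp)).congr (fun m => by rw [one_mul]) (fun m => by push_cast; rw [one_mul])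
  | zero => exact Dm.zero
  | add _ _ h1 h2 => exact Dm.add h1 h2
  | smul c hc _ h1 =>
    exact (Dm.const (c : ℂ) c (by rw [Complex.norm_real, Real.norm_eq_abs, abs_of_nonneg hc])).mul h1

theorem Dm.of_zero {f : ℤ → ℂ} (h : CP f) : Dm (fun _ => 0) f := by
  induction h with
  | ch θ =>
    exact (Dm.ch θ 0 1 (by simp)).congr (fun m => by rw [zero_mul]) (fun m => by push_cast; rw [one_mul])
  | zero => exact Dm.zero
  | add _ _ h1 h2 => exact (Dm.add h1 h2).congr (fun m => by rw [add_zero]) (fun m => rfl)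
  | smul c hc _ h1 =>
    exact ((Dm.const (c : ℂ) c (by rw [Complex.norm_real, Real.norm_eq_abs, abs_of_nonneg hc])).mul h1).congr
      (fun m => by rw [mul_zero]) (fun m => rfl)

theorem pt_add (A : Finset ℤ) (θ : ℝ) (f g : ℤ → ℂ) : pt A θ (fun m => f m + g m) = pt A θ f + pt A θ g := by
  unfold pt
  rw [← sum_add_distrib]
  apply sum_congr rfl
  intro a _
  rw [← sum_add_distrib]
  apply sum_congr rfl
  intro b _
  ring

theorem pt_smul (A : Finset ℤ) (θ : ℝ) (z : ℂ) (f : ℤ → ℂ) : pt A θ (fun m => z * f m) = z * pt A θ f := by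
  unfold pt
  rw [mul_sum]
  apply sum_congr rfl
  intro a _
  rw [mul_sum]
  apply sum_congr rfl
  intro b _
  ring

theorem pt_sum (A : Finset ℤ) (θ : ℝ) {ι : Type*} (s : Finset ι) (f : ι → ℤ → ℂ) :
    pt A θ (fun m => ∑ i ∈ s, f i m) = ∑ i ∈ s, pt A θ (f i) := by
  classical
  induction s using Finset.induction_on with
  | empty => simp [pt]
  | insert i s hi ih =>
    rw [sum_insert hi, ← ih, ← pt_add]
    congr 1
    funext m
    rw [sum_insert hi]

theorem pt_ch (A : Finset ℤ) (θ φ : ℝ) : pt A θ (fun m => ex (φ * m)) =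
    ((‖∑ a ∈ A, ex (θ * (a : ℤ)) * ex (φ * (a : ℤ))‖ ^ 2 : ℝ) : ℂ) := by
  push_cast
  rw [← Complex.ofReal_pow, ← Complex.normSq_eq_norm_sq, ← Complex.mul_conj, map_sum, sum_mul_sum]
  unfold pt
  apply sum_congr rfl
  intro a _
  apply sum_congr rfl
  intro b _
  rw [map_mul, Pool.Agent.Y882.PX.ex_conj, Pool.Agent.Y882.PX.ex_conj]
  have e1 : ex (θ * ((a - b : ℤ) : ℝ)) = ex (θ * (a : ℤ)) * ex (-(θ * (b : ℤ))) := by
    rw [← H343.Gauss.ex_add]
    congr 1
    push_cast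
    ring
  have e2 : ex (φ * ((a - b : ℤ) : ℝ)) = ex (φ * (a : ℤ)) * ex (-(φ * (b : ℤ))) := by
    rw [← H343.Gauss.ex_add]
    congr 1
    push_cast
    ring
  show ex (θ * ((a - b : ℤ) : ℝ)) * ex (φ * ((a - b : ℤ) : ℝ)) = _
  rw [e1, e2]
  ring

theorem Dm.pt (A : Finset ℤ) (θ : ℝ) {f g : ℤ → ℂ} (h : Dm f g) :
    ‖PS.pt A θ f‖ ≤ (PS.pt A θ g).re := by
  induction h with
  | ch φ z c hz =>
    rw [pt_smul, pt_smul, pt_ch, norm_mul, Complex.norm_real, Real.norm_eq_abs, abs_of_nonneg (by positivity),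
      ← Complex.ofReal_mul, Complex.ofReal_re]
    exact mul_le_mul_of_nonneg_right hz (by positivity)
  | zero =>
    unfold PS.pt
    simp
  | add _ _ h1 h2 =>
    rw [pt_add, pt_add, Complex.add_re]
    exact (norm_add_le _ _).trans (add_le_add h1 h2)

/-- the real version -/
def DR (f g : ℤ → ℝ) : Prop := Dm (fun m => (f m : ℂ)) (fun m => (g m : ℂ))

theorem DR.congr {f g f' g' : ℤ → ℝ} (h : DR f g) (e : ∀ m, f m = f' m) (e' : ∀ m, g m = g' m) :
    DR f' g' := by
  have h1 : f = f' := funext e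
  have h2 : g = g' := funext e'
  rw [← h1, ← h2]
  exact h

theorem DR.add {f g f' g' : ℤ → ℝ} (h : DR f g) (h' : DR f' g') :
    DR (fun m => f m + f' m) (fun m => g m + g' m) := by
  unfold DR at *
  exact (Dm.add h h').congr (fun m => by push_cast; rfl) (fun m => by push_cast; rfl)

theorem DR.mul {f g f' g' : ℤ → ℝ} (h : DR f g) (h' : DR f' g') :
    DR (fun m => f m * f' m) (fun m => g m * g' m) := by
  unfold DR at *
  exact (Dm.mul h h').congr (fun m => by push_cast; rfl) (fun m => by push_cast; rfl)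

theorem DR.zero : DR (fun _ => 0) (fun _ => 0) := by
  unfold DR
  exact Dm.zero.congr (fun m => by simp) (fun m => by simp)

theorem DR.const (x c : ℝ) (h : |x| ≤ c) : DR (fun _ => x) (fun _ => c) := by
  unfold DR
  exact Dm.const (x : ℂ) c (by rw [Complex.norm_real]; exact h)

theorem DR.smul (x c : ℝ) (hx : |x| ≤ c) {f g : ℤ → ℝ} (h : DR f g) :
    DR (fun m => x * f m) (fun m => c * g m) := (DR.const x c hx).mul h

theorem DR.self {f : ℤ → ℝ} (h : PD f) : DR f f := Dm.self h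

theorem DR.of_zero {f : ℤ → ℝ} (h : PD f) : DR (fun _ => 0) f := by
  unfold DR
  exact (Dm.of_zero h).congr (fun m => by simp) (fun m => rfl)

theorem DR.mono {f g g' : ℤ → ℝ} (h : DR f g) (h' : PD (fun m => g' m - g m)) : DR f g' :=
  (h.add (DR.of_zero h')).congr (fun m => by ring) (fun m => by ring)

theorem DR.sum {ι : Type*} (s : Finset ι) {f g : ι → ℤ → ℝ} (h : ∀ i ∈ s, DR (f i) (g i)) :
    DR (fun m => ∑ i ∈ s, f i m) (fun m => ∑ i ∈ s, g i m) := by
  classical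
  induction s using Finset.induction_on with
  | empty => exact DR.zero.congr (fun m => by simp) (fun m => by simp)
  | insert a s ha ih =>
    refine ((h a (mem_insert_self _ _)).add (ih fun i hi => h i (mem_insert_of_mem hi))).congr ?_ ?_
    · intro m
      rw [sum_insert ha]
    · intro m
      rw [sum_insert ha]

theorem DR.prod {ι : Type*} (s : Finset ι) {f g : ι → ℤ → ℝ} (h : ∀ i ∈ s, DR (f i) (g i)) :
    DR (fun m => ∏ i ∈ s, f i m) (fun m => ∏ i ∈ s, g i m) := by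
  classical
  induction s using Finset.induction_on with
  | empty => exact (DR.const 1 1 (by simp)).congr (fun m => by simp) (fun m => by simp)
  | insert a s ha ih =>
    refine ((h a (mem_insert_self _ _)).mul (ih fun i hi => h i (mem_insert_of_mem hi))).congr ?_ ?_
    · intro m
      rw [prod_insert ha]
    · intro m
      rw [prod_insert ha]

/-- the twisted pair sum of a real function -/
noncomputable def pr' (A : Finset ℤ) (θ : ℝ) (f : ℤ → ℝ) : ℂ := PS.pt A θ (fun m => (f m : ℂ))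

theorem DR.pt (A : Finset ℤ) (θ : ℝ) {f g : ℤ → ℝ} (h : DR f g) : ‖pr' A θ f‖ ≤ (pr' A θ g).re :=
  Dm.pt A θ h

theorem pr'_smul (A : Finset ℤ) (θ x : ℝ) (f : ℤ → ℝ) : pr' A θ (fun m => x * f m) = x * pr' A θ f := by
  unfold pr'
  rw [← pt_smul]
  congr 1
  funext m
  push_cast
  rfl

theorem pr'_add (A : Finset ℤ) (θ : ℝ) (f g : ℤ → ℝ) :
    pr' A θ (fun m => f m + g m) = pr' A θ f + pr' A θ g := by
  unfold pr'
  rw [← pt_add]
  congr 1
  funext m
  push_cast
  rfl

theorem pr'_sum (A : Finset ℤ) (θ : ℝ) {ι : Type*} (s : Finset ι) (f : ι → ℤ → ℝ) :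
    pr' A θ (fun m => ∑ i ∈ s, f i m) = ∑ i ∈ s, pr' A θ (f i) := by
  unfold pr'
  rw [← pt_sum]
  congr 1
  funext m
  push_cast
  rfl

theorem pr'_congr (A : Finset ℤ) (θ : ℝ) {f g : ℤ → ℝ} (h : ∀ m, f m = g m) : pr' A θ f = pr' A θ g := by
  have : f = g := funext h
  rw [this]

/-- the twisted energies -/
noncomputable def Et (A : Finset ℤ) (θ : ℝ) (q : ℕ) : ℝ :=
  ∑ n ∈ (range q).filter (fun n => n.Coprime q), ‖∑ a ∈ A, ex (θ * (a : ℤ)) * ex ((n : ℝ) / q * (a : ℤ))‖ ^ 2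

theorem Et_nonneg (A : Finset ℤ) (θ : ℝ) (q : ℕ) : 0 ≤ Et A θ q := sum_nonneg fun _ _ => by positivity

theorem pt_vv (A : Finset ℤ) (θ : ℝ) (Q : Finset ℕ) (hQ : ∀ p ∈ Q, p.Prime) :
    pr' A θ (fun m => ∏ p ∈ Q, vv p m) = ((Et A θ (∏ p ∈ Q, p) / (∏ p ∈ Q, p : ℕ) : ℝ) : ℂ) := by
  have hk : 0 < ∏ p ∈ Q, p := prod_pos fun p hp => (hQ p hp).pos
  have hkr : ((∏ p ∈ Q, p : ℕ) : ℝ) ≠ 0 := by exact_mod_cast hk.ne'
  have h1 : (((∏ p ∈ Q, p : ℕ) : ℝ) : ℂ) * pr' A θ (fun m => ∏ p ∈ Q, vv p m) = ((Et A θ (∏ p ∈ Q, p) : ℝ) : ℂ) := by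
    rw [← pr'_smul]
    have h2 : ∀ m : ℤ, (((((∏ p ∈ Q, p : ℕ) : ℝ) * ∏ p ∈ Q, vv p m : ℝ)) : ℂ) =
        ∑ n ∈ (range (∏ p ∈ Q, p)).filter (fun n => n.Coprime (∏ p ∈ Q, p)),
          ex ((n : ℝ) / (∏ p ∈ Q, p : ℕ) * m) := by
      intro m
      rw [← raman_prod Q hQ m]
      apply sum_congr rfl
      intro n _
      congr 1
      ring
    have h3 : pr' A θ (fun m => ((∏ p ∈ Q, p : ℕ) : ℝ) * ∏ p ∈ Q, vv p m) =
        ∑ n ∈ (range (∏ p ∈ Q, p)).filter (fun n => n.Coprime (∏ p ∈ Q, p)),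
          PS.pt A θ (fun m => ex ((n : ℝ) / (∏ p ∈ Q, p : ℕ) * m)) := by
      unfold pr'
      rw [← pt_sum]
      congr 1
      funext m
      rw [h2 m]
    rw [h3]
    unfold Et
    push_cast
    apply sum_congr rfl
    intro n _
    rw [pt_ch]
    push_cast
    rfl
  have h2 : (((∏ p ∈ Q, p : ℕ) : ℝ) : ℂ) ≠ 0 := by exact_mod_cast hk.ne'
  rw [Complex.ofReal_div, eq_div_iff h2, ← h1]
  ring

open Classical in
/-- **the large sieve** for the twisted energies -/
theorem LS_tw (A : Finset ℤ) (N : ℕ) (hA : ∀ a ∈ A, 1 ≤ a ∧ a ≤ N) (θ : ℝ) (t : ℕ) :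
    ∑ f ∈ Icc 1 t, Et A θ f ≤ 6 * (N + (t : ℝ) ^ 2) * A.card := by
  obtain ⟨α, hα⟩ : ∃ α : ℕ → ℂ, α = fun (n : ℕ) => if (n : ℤ) ∈ A then ex (θ * n) else 0 := ⟨_, rfl⟩
  have h1 := Pool.Agent.Helper112.additive_large_sieve N t α
  have hAi : A = ((Icc 1 N).filter (fun n : ℕ => (n : ℤ) ∈ A)).image (fun n : ℕ => (n : ℤ)) := by
    ext a
    rw [mem_image]
    constructor
    · intro ha
      obtain ⟨h2, h3⟩ := hA a ha
      refine ⟨a.toNat, ?_, by omega⟩
      rw [mem_filter, mem_Icc, Int.toNat_of_nonneg (by omega)]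
      exact ⟨by omega, ha⟩
    · rintro ⟨n, hn, rfl⟩
      exact (mem_filter.1 hn).2
  have h2 : ∑ n ∈ Icc 1 N, ‖α n‖ ^ 2 ≤ A.card := by
    have e1 : ∀ n ∈ Icc 1 N, ‖α n‖ ^ 2 = if (n : ℤ) ∈ A then (1 : ℝ) else 0 := by
      intro n _
      rw [hα]
      simp only
      split_ifs
      · rw [H343.Gauss.norm_ex, one_pow]
      · simp
    rw [sum_congr rfl e1, sum_boole]
    have e2 : ((Icc 1 N).filter (fun n : ℕ => (n : ℤ) ∈ A)).card ≤ A.card := by
      apply card_le_card_of_injOn (fun n : ℕ => (n : ℤ))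
      · intro n hn
        rw [mem_coe, mem_filter] at hn
        exact hn.2
      · intro i _ j _ h
        simp only at h
        exact_mod_cast h
    exact_mod_cast e2
  have h3 : ∀ f ∈ Icc 1 t, Et A θ f = ∑ a ∈ (range f).filter (fun a => a.Coprime f),
        ‖∑ n ∈ Icc 1 N, α n * ee (n * a / f)‖ ^ 2 := by
    intro f _
    unfold Et
    apply sum_congr rfl
    intro b _
    congr 2
    conv_lhs => rw [hAi]
    rw [sum_image (by intro i _ j _ h; simp only at h; exact_mod_cast h), sum_filter]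
    apply sum_congr rfl
    intro n _
    rw [hα]
    simp only
    split_ifs
    · rw [← H343.PVaux.ex_eq_ee]
      congr 2
      push_cast
      ring
    · rw [zero_mul]
  rw [sum_congr rfl h3]
  exact h1.trans (mul_le_mul_of_nonneg_left h2 (by positivity))

/-- the mean-free indicator function of a set of residues -/
noncomputable def yg (X : ℤ → Prop) (p : ℕ) (m : ℤ) : ℝ := xI X m - (RR X p).card / p

theorem xI_sum' {X : ℤ → Prop} {p : ℕ} (h : ∀ m m' : ℤ, (p : ℤ) ∣ m - m' → (X m ↔ X m')) (hp : 0 < p) (m : ℤ) :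
    xI X m = ∑ r ∈ RR X p, uu p (m - r) := by
  classical
  have hpz : (0 : ℤ) < p := by exact_mod_cast hp
  obtain ⟨r0, hr0, hr1⟩ : ∃ r0 : ℕ, r0 < p ∧ (p : ℤ) ∣ m - r0 := by
    refine ⟨(m % p).toNat, ?_, ?_⟩
    · have h1 := Int.emod_lt_of_pos m hpz
      have h2 := Int.emod_nonneg m hpz.ne'
      omega
    · rw [Int.toNat_of_nonneg (Int.emod_nonneg _ hpz.ne')]
      exact Int.dvd_self_sub_emod
  have huniq : ∀ r ∈ range p, ((p : ℤ) ∣ m - (r : ℤ)) → r = r0 := by
    intro r hr h1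
    have h2 : (p : ℤ) ∣ (r : ℤ) - r0 := by
      have := dvd_sub hr1 h1
      have e : m - (r0 : ℤ) - (m - r) = r - r0 := by ring
      rwa [e] at this
    have h3 := mem_range.1 hr
    have h4 := Int.eq_zero_of_abs_lt_dvd h2 (by rw [abs_lt]; constructor <;> omega)
    omega
  by_cases hX : X m
  · have h1 : xI X m = 1 := by
      unfold xI
      rw [if_pos hX]
    have hmem : r0 ∈ RR X p := by
      unfold RR
      rw [mem_filter, mem_range]
      exact ⟨hr0, (h m r0 hr1).1 hX⟩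
    rw [h1, sum_eq_single_of_mem r0 hmem]
    · unfold uu
      rw [if_pos hr1]
    · intro r hr hne
      unfold uu
      rw [if_neg]
      intro h2
      unfold RR at hr
      exact hne (huniq r (mem_filter.1 hr).1 h2)
  · have h1 : xI X m = 0 := by
      unfold xI
      rw [if_neg hX]
    rw [h1, sum_eq_zero]
    intro r hr
    unfold uu
    rw [if_neg]
    intro h2
    unfold RR at hr
    rw [mem_filter] at hr
    exact hX ((h m r h2).2 hr.2)

theorem vv_shift (p : ℕ) (hp : 0 < p) (r : ℤ) : DR (fun m => vv p (m - r)) (vv p) := by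
  unfold DR
  have h : Dm (fun m : ℤ => ∑ h ∈ (range p).erase 0, (((1 / p : ℝ) : ℂ) * ex (-(h / p : ℝ) * r)) * ex ((h / p : ℝ) * m))
      (fun m : ℤ => ∑ h ∈ (range p).erase 0, ((1 / p : ℝ) : ℂ) * ex ((h / p : ℝ) * m)) := by
    induction (range p).erase 0 using Finset.induction_on with
    | empty => exact Dm.zero.congr (fun m => by simp) (fun m => by simp)
    | insert a s ha ih =>
      refine (Dm.add (Dm.ch (a / p : ℝ) (((1 / p : ℝ) : ℂ) * ex (-(a / p : ℝ) * r)) (1 / p) ?_) ih).congr ?_ ?_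
      · rw [norm_mul, H343.Gauss.norm_ex, mul_one, Complex.norm_real, Real.norm_eq_abs,
          abs_of_nonneg (by positivity)]
      · intro m
        rw [sum_insert ha]
      · intro m
        rw [sum_insert ha]
  refine h.congr (fun m => ?_) (fun m => ?_)
  · rw [vv_four p hp]
    apply sum_congr rfl
    intro b _
    rw [mul_assoc, ← H343.Gauss.ex_add]
    congr 2
    push_cast
    ring
  · rw [vv_four p hp]

theorem yg_dom {X : ℤ → Prop} {p : ℕ} (h : ∀ m m' : ℤ, (p : ℤ) ∣ m - m' → (X m ↔ X m')) (hp : 0 < p) (d : ℕ)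
    (hd : (RR X p).card ≤ d) : DR (yg X p) (fun m => d * vv p m) := by
  have h1 : DR (fun m => ∑ r ∈ RR X p, vv p (m - (r : ℤ))) (fun m => ∑ _r ∈ RR X p, vv p m) :=
    DR.sum _ fun r _ => vv_shift p hp r
  have h2 : PD (fun m => (d : ℝ) * vv p m - ∑ _r ∈ RR X p, vv p m) := by
    have h3 : (0 : ℝ) ≤ (d : ℝ) - (RR X p).card := by
      have : ((RR X p).card : ℝ) ≤ d := by exact_mod_cast hd
      linarith
    refine (PD.smul _ h3 (vv_PD p hp)).congr (fun m => ?_)
    rw [sum_const, nsmul_eq_mul]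
    ring
  refine (h1.mono h2).congr (fun m => ?_) (fun m => rfl)
  unfold yg
  rw [xI_sum' h hp]
  unfold vv
  rw [sum_sub_distrib, sum_const, nsmul_eq_mul]
  ring

theorem xI_dom {X : ℤ → Prop} {p : ℕ} (h : ∀ m m' : ℤ, (p : ℤ) ∣ m - m' → (X m ↔ X m')) (hp : 0 < p) (d : ℕ)
    (hd : (RR X p).card ≤ d) : DR (xI X) (fun m => d * uu p m) := by
  have h1 := yg_dom h hp d hd
  have h2 : DR (fun _ => ((RR X p).card : ℝ) / p) (fun _ => (d : ℝ) / p) := by
    apply DR.const
    rw [abs_of_nonneg (by positivity)]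
    exact div_le_div_of_nonneg_right (by exact_mod_cast hd) (Nat.cast_nonneg _)
  refine (h1.add h2).congr (fun m => ?_) (fun m => ?_)
  · unfold yg
    ring
  · unfold vv
    ring

theorem uu_PD (p : ℕ) (hp : 0 < p) : PD (uu p) :=
  ((vv_PD p hp).add (PD.const (1 / p : ℝ) (by positivity))).congr (fun m => by unfold vv; ring)

end Pool.Agent.H540.PS
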