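import Pool.Agent.H540.PS.Main2

/-! The main lower bound, with a factor. -/

set_option autoImplicit false

namespace Pool.Agent.H540.PS

open Finset
open Pool.Agent.H540.DS (En En_nonneg)

section

variable {K : ℕ} {X : ℕ → ℤ → Prop}

/-- the lower bound weight with a factor -/
noncomputable def ffM (M : ℝ) (K : ℕ) (X : ℕ → ℤ → Prop) (D : ℝ) (P : Finset ℕ) (m : ℤ) : ℝ :=
  Lam K X D P m ^ 2 - M * ∑ p ∈ P, xI (X p) m * Lp K X D P p m ^ 2

/-- **The contribution of one prime.** -/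
theorem one_primeM (A : Finset ℤ) (M : ℝ) (hM1 : 1 ≤ M) {D : ℝ} (hD : 1 < D) {P : Finset ℕ} (h : ∀ p ∈ P, Ev (X p) p K)
    (hP : ∀ p ∈ P, p.Prime) {p : ℕ} (hp : p ∈ P) (hMK : M * (RR (X p) p).card ≤ K) :
    pf A (fun m => M * (xI (X p) m * Lp K X D P p m ^ 2)) ≤
      ∑ y ∈ (P.erase p).powerset ×ˢ (P.erase p).powerset,
        CC (P.erase p) (fun U U' => kk D p U * kk D p U') (aa K X) (bb K X) y.1 y.2 *
        (K / p * TT K X A y.1 y.2 + K * TT K X A (insert p y.1) y.2) := by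
  have hp0 := (hP p hp).pos
  have hK0 : (0 : ℝ) ≤ K := Nat.cast_nonneg K
  have hR0 : (0 : ℝ) ≤ (RR (X p) p).card := Nat.cast_nonneg _
  have hRK : ((RR (X p) p).card : ℝ) ≤ K := by exact_mod_cast (h p hp).card
  have h1 : PD (fun m => (K / p + K * ss K X p m) - M * xI (X p) m) := by
    have hEv : Ev (X p) p (RR (X p) p).card := ⟨(h p hp).per, (h p hp).even, (h p hp).zero, le_rfl⟩
    have h2 := comb_PD hEv hp0 (K * (K + 1)) (-(K + M)) (by
      rw [abs_neg, abs_of_nonneg (by linarith)]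
      have e1 : (K + M) * ((RR (X p) p).card : ℝ) = K * (RR (X p) p).card + M * (RR (X p) p).card := by ring
      rw [e1]
      nlinarith)
    have h3 : (0 : ℝ) ≤ (K - M * (RR (X p) p).card) / p := by
      apply div_nonneg _ (Nat.cast_nonneg _)
      linarith
    refine ((PD.const _ h3).add h2).congr (fun m => ?_)
    unfold ss yy
    ring
  have h4 := pf_le A ((h1.mul (kk_quad_PD hD h hP hp)).congr (g := fun m =>
    (K / p + K * ss K X p m) * Lp K X D P p m ^ 2 - M * (xI (X p) m * Lp K X D P p m ^ 2))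
    (fun m => by ring))
  refine h4.trans (le_of_eq ?_)
  have h5 : ∀ m, (K / p + K * ss K X p m) * Lp K X D P p m ^ 2 =
      (K / p : ℝ) * Lp K X D P p m ^ 2 + K * (ss K X p m * Lp K X D P p m ^ 2) := by
    intro m
    ring
  have h' : ∀ q ∈ P.erase p, Ev (X q) q K := fun q hq => h q (mem_of_mem_erase hq)
  rw [pf_congr A h5, pf_add, pf_smul, pf_smul]
  have e1 := pf_quad A h' (kk D p)
  have e2 := pf_quad_s A (notMem_erase p P) h' (kk D p)
  have e3 : pf A (fun m => Lp K X D P p m ^ 2) =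
    pf A (fun m => (∑ U ∈ (P.erase p).powerset, kk D p U * ∏ p ∈ U, tt K X p m) ^ 2) := rfl
  have e4 : pf A (fun m => ss K X p m * Lp K X D P p m ^ 2) =
    pf A (fun m => ss K X p m * (∑ U ∈ (P.erase p).powerset, kk D p U * ∏ p ∈ U, tt K X p m) ^ 2) := rfl
  rw [e3, e4, e1, e2, mul_sum, mul_sum, ← sum_add_distrib]
  apply sum_congr rfl
  intro y _
  ring

/-- **The lower bound, in terms of the coefficients.** -/
theorem ff_lowerM (A : Finset ℤ) (M : ℝ) (hM1 : 1 ≤ M) {D : ℝ} (hD : 1 < D) {P : Finset ℕ} (h : ∀ p ∈ P, Ev (X p) p K)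
    (hMK : ∀ p ∈ P, M * (RR (X p) p).card ≤ K)
    (hP : ∀ p ∈ P, p.Prime) (hPD : ∀ p ∈ P, (p : ℝ) ≤ D) :
    ∑ y ∈ P.powerset ×ˢ P.powerset, (CC P (fun U U' => hh D U * hh D U') (aa K X) (bb K X) y.1 y.2 -
      EE K X (P \ (y.1 ∪ y.2)) * JJ D (y.1 ∪ y.2) * (∑ p ∈ P, K / p * (Real.log p / Real.log D) ^ 2 +
        K * ∑ p ∈ y.1 ∪ y.2, (Real.log p / Real.log D) ^ 2)) * TT K X A y.1 y.2 ≤
      pf A (ffM M K X D P) := by
  have hT : ∀ y ∈ P.powerset ×ˢ P.powerset, 0 ≤ TT K X A y.1 y.2 := by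
    intro y hy
    rw [mem_product, mem_powerset, mem_powerset] at hy
    exact TT_nonneg A h hP (union_subset hy.1 hy.2)
  have e1 : pf A (ffM M K X D P) = ∑ y ∈ P.powerset ×ˢ P.powerset,
      CC P (fun U U' => hh D U * hh D U') (aa K X) (bb K X) y.1 y.2 * TT K X A y.1 y.2 -
      ∑ p ∈ P, pf A (fun m => M * (xI (X p) m * Lp K X D P p m ^ 2)) := by
    rw [← pf_quad A h (hh D), ← pf_sum A P (fun p m => M * (xI (X p) m * Lp K X D P p m ^ 2)), ← pf_sub]
    apply pf_congr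
    intro m
    unfold ffM Lam
    rw [mul_sum]
  obtain ⟨g, hg⟩ : ∃ g : Finset ℕ → Finset ℕ → ℝ, g = fun V V' => EE K X (P \ (V ∪ V')) *
    JJ D (V ∪ V') * TT K X A V V' := ⟨_, rfl⟩
  have hg0 : ∀ V V' : Finset ℕ, V ⊆ P → V' ⊆ P → 0 ≤ g V V' := by
    intro V V' hV hV'
    rw [hg]
    have h1 : 0 ≤ EE K X (P \ (V ∪ V')) :=
      zero_le_one.trans (EE_one fun p hp => h p (mem_sdiff.1 hp).1)
    exact mul_nonneg (mul_nonneg h1 (JJ_nonneg _ _)) (TT_nonneg A h hP (union_subset hV hV'))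
  have e2 : ∀ p ∈ P, pf A (fun m => M * (xI (X p) m * Lp K X D P p m ^ 2)) ≤
      K / p * (Real.log p / Real.log D) ^ 2 * ∑ y ∈ P.powerset ×ˢ P.powerset, g y.1 y.2 +
      K * (Real.log p / Real.log D) ^ 2 * ∑ y ∈ P.powerset ×ˢ P.powerset,
        if p ∈ y.1 ∪ y.2 then g y.1 y.2 else 0 := by
    intro p hp
    obtain ⟨δ, hδ⟩ : ∃ δ, δ = Real.log p / Real.log D := ⟨_, rfl⟩
    rw [← hδ]
    have hp0 : (0 : ℝ) ≤ K / p := by positivity
    refine (one_primeM A M hM1 hD h hP hp (hMK p hp)).trans ?_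
    have h1 : ∀ y ∈ (P.erase p).powerset ×ˢ (P.erase p).powerset,
        CC (P.erase p) (fun U U' => kk D p U * kk D p U') (aa K X) (bb K X) y.1 y.2 *
        (K / p * TT K X A y.1 y.2 + K * TT K X A (insert p y.1) y.2) ≤
        K / p * δ ^ 2 * g y.1 y.2 + K * δ ^ 2 * g (insert p y.1) y.2 := by
      intro y hy
      rw [mem_product, mem_powerset, mem_powerset] at hy
      have c1 := CC_prime hD h hP hPD hp hy.1 hy.2
      rw [← hδ] at c1
      have s1 : y.1 ∪ y.2 ⊆ P := union_subset (hy.1.trans (erase_subset _ _)) (hy.2.trans (erase_subset _ _))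
      have s2 : insert p y.1 ∪ y.2 ⊆ P := by
        rw [insert_union]
        exact insert_subset hp s1
      have t1 := TT_nonneg A h hP s1
      have t2 : 0 ≤ TT K X A (insert p y.1) y.2 := TT_nonneg A h hP s2
      have c2 : EE K X (P \ (insert p y.1 ∪ y.2)) ≤ EE K X (P \ (y.1 ∪ y.2)) := by
        apply EE_mono (fun q hq => h q (mem_sdiff.1 hq).1)
        apply sdiff_subset_sdiff (subset_refl _)
        exact union_subset_union (subset_insert _ _) (subset_refl _)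
      have c3 : JJ D (insert p y.1 ∪ y.2) ≤ JJ D (y.1 ∪ y.2) := by
        unfold JJ
        by_cases h1 : ((∏ p ∈ insert p y.1 ∪ y.2, p : ℕ) : ℝ) ≤ D ^ 3
        · rw [if_pos h1, if_pos]
          refine le_trans ?_ h1
          have := prod_le_prod_of_subset_of_one_le' (f := fun q : ℕ => q)
            (union_subset_union (subset_insert p y.1) (subset_refl y.2))
            (fun q hq _ => (hP q (s2 hq)).one_le)
          exact_mod_cast this
        · rw [if_neg h1]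
          split_ifs <;> norm_num
      have c4 : 0 ≤ EE K X (P \ (insert p y.1 ∪ y.2)) :=
        zero_le_one.trans (EE_one fun p hp => h p (mem_sdiff.1 hp).1)
      have c5 : EE K X (P \ (insert p y.1 ∪ y.2)) * JJ D (insert p y.1 ∪ y.2) ≤
          EE K X (P \ (y.1 ∪ y.2)) * JJ D (y.1 ∪ y.2) :=
        mul_le_mul c2 c3 (JJ_nonneg _ _) (c4.trans c2)
      have d1 : K / p * TT K X A y.1 y.2 * CC (P.erase p) (fun U U' => kk D p U * kk D p U')
          (aa K X) (bb K X) y.1 y.2 ≤ K / p * TT K X A y.1 y.2 *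
          (δ ^ 2 * (EE K X (P \ (y.1 ∪ y.2)) * JJ D (y.1 ∪ y.2))) := by
        apply mul_le_mul_of_nonneg_left _ (mul_nonneg hp0 t1)
        refine c1.trans ?_
        rw [mul_assoc]
        exact mul_le_mul_of_nonneg_left c5 (sq_nonneg _)
      have d2 : K * TT K X A (insert p y.1) y.2 * CC (P.erase p) (fun U U' => kk D p U * kk D p U')
          (aa K X) (bb K X) y.1 y.2 ≤ K * TT K X A (insert p y.1) y.2 *
          (δ ^ 2 * EE K X (P \ (insert p y.1 ∪ y.2)) * JJ D (insert p y.1 ∪ y.2)) :=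
        mul_le_mul_of_nonneg_left c1 (mul_nonneg (Nat.cast_nonneg _) t2)
      rw [hg]
      simp only
      linarith
    refine (sum_le_sum h1).trans ?_
    rw [sum_add_distrib, ← mul_sum, ← mul_sum]
    apply add_le_add
    · apply mul_le_mul_of_nonneg_left _ (by positivity)
      apply sum_le_sum_of_subset_of_nonneg
      · exact product_subset_product (powerset_mono.2 (erase_subset _ _))
          (powerset_mono.2 (erase_subset _ _))
      · intro y hy _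
        rw [mem_product, mem_powerset, mem_powerset] at hy
        exact hg0 _ _ hy.1 hy.2
    · exact mul_le_mul_of_nonneg_left (sum_insert_le hp g hg0) (by positivity)
  have e3 := sum_le_sum e2
  rw [sum_add_distrib, ← sum_mul] at e3
  have e4 : ∑ p ∈ P, K * (Real.log p / Real.log D) ^ 2 * ∑ y ∈ P.powerset ×ˢ P.powerset,
        (if p ∈ y.1 ∪ y.2 then g y.1 y.2 else 0) =
      ∑ y ∈ P.powerset ×ˢ P.powerset, g y.1 y.2 * (K * ∑ p ∈ y.1 ∪ y.2, (Real.log p / Real.log D) ^ 2) := by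
    rw [sum_congr rfl (fun p _ => mul_sum _ _ _), sum_comm]
    apply sum_congr rfl
    intro y hy
    rw [mem_product, mem_powerset, mem_powerset] at hy
    have s1 : y.1 ∪ y.2 ⊆ P := union_subset hy.1 hy.2
    rw [mul_sum, mul_sum, ← sum_filter_add_sum_filter_not P (fun p => p ∈ y.1 ∪ y.2)]
    have h2 : P.filter (fun p => p ∈ y.1 ∪ y.2) = y.1 ∪ y.2 := by
      ext p
      rw [mem_filter]
      exact ⟨fun h => h.2, fun h => ⟨s1 h, h⟩⟩
    rw [h2]
    have h3 : ∑ x ∈ P.filter (fun p => ¬ p ∈ y.1 ∪ y.2), K * (Real.log x / Real.log D) ^ 2 *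
        (if x ∈ y.1 ∪ y.2 then g y.1 y.2 else 0) = 0 := by
      apply sum_eq_zero
      intro p hp
      rw [if_neg (mem_filter.1 hp).2, mul_zero]
    rw [h3, add_zero]
    apply sum_congr rfl
    intro p hp
    rw [if_pos hp]
    ring
  rw [e4] at e3
  rw [e1]
  have e5 : ∑ y ∈ P.powerset ×ˢ P.powerset, (CC P (fun U U' => hh D U * hh D U') (aa K X) (bb K X) y.1 y.2 -
      EE K X (P \ (y.1 ∪ y.2)) * JJ D (y.1 ∪ y.2) * (∑ p ∈ P, K / p * (Real.log p / Real.log D) ^ 2 +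
        K * ∑ p ∈ y.1 ∪ y.2, (Real.log p / Real.log D) ^ 2)) * TT K X A y.1 y.2 =
      ∑ y ∈ P.powerset ×ˢ P.powerset,
        CC P (fun U U' => hh D U * hh D U') (aa K X) (bb K X) y.1 y.2 * TT K X A y.1 y.2 -
      ((∑ p ∈ P, K / p * (Real.log p / Real.log D) ^ 2) * ∑ y ∈ P.powerset ×ˢ P.powerset, g y.1 y.2 +
        ∑ y ∈ P.powerset ×ˢ P.powerset, g y.1 y.2 * (K * ∑ p ∈ y.1 ∪ y.2, (Real.log p / Real.log D) ^ 2)) := by
    rw [mul_sum, ← sum_add_distrib, ← sum_sub_distrib]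
    apply sum_congr rfl
    intro y _
    rw [hg]
    simp only
    ring
  rw [e5]
  linarith

/-- **the main lower bound** -/
theorem ff_mainM (A : Finset ℤ) (N : ℕ) (hA : ∀ a ∈ A, 1 ≤ a ∧ a ≤ N) (M : ℝ) (hM1 : 1 ≤ M) {D : ℝ} (hD : 1 < D)
    {P : Finset ℕ} (h : ∀ p ∈ P, Ev (X p) p K) (hMK : ∀ p ∈ P, M * (RR (X p) p).card ≤ K) (hP : ∀ p ∈ P, p.Prime)
    (hPD : ∀ p ∈ P, (p : ℝ) ≤ D)
    (hlog : ∀ p ∈ P, Real.log p ≤ Real.log D / (24 * (K + 2) ^ 2))
    (hM : ∑ p ∈ P, Real.log p / p ≤ Real.log D / (24 * (K + 2) ^ 2)) (C : ℕ)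
    (hC : C = 4 * ((K + 1) * ((K + 1) ^ 2 + K))) :
    (A.card : ℝ) ^ 2 / 16 - 6 * (C : ℝ) ^ (C ^ 2) * (N + D ^ 6) * A.card / Real.sqrt (D ^ (1 / 4 : ℝ)) ≤
      pf A (ffM M K X D P) / EE K X P := by
  have hL : 0 < Real.log D := Real.log_pos hD
  have hE1 : 1 ≤ EE K X P := EE_one h
  have hE0 : 0 < EE K X P := by linarith
  have hD0 : 0 < D := by linarith
  rw [le_div_iff₀ hE0]
  refine le_trans ?_ (ff_lowerM A M hM1 hD h hMK hP hPD)
  obtain ⟨L, hLe⟩ : ∃ L, L = Real.log D := ⟨_, rfl⟩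
  obtain ⟨κ, hκ⟩ : ∃ κ, κ = ∑ p ∈ P, K / p * (Real.log p / Real.log D) ^ 2 := ⟨_, rfl⟩
  have hK2 : (0 : ℝ) < 24 * (K + 2) ^ 2 := by positivity
  have hK0 : (0 : ℝ) ≤ K := Nat.cast_nonneg K
  have hδ1 : ∀ p ∈ P, 0 ≤ Real.log p / Real.log D ∧ Real.log p / Real.log D ≤ 1 / (24 * (K + 2) ^ 2) := by
    intro p hp
    refine ⟨div_nonneg (Real.log_natCast_nonneg p) hL.le, ?_⟩
    rw [div_le_iff₀ hL]
    refine (hlog p hp).trans (le_of_eq ?_)
    ring
  have hδ2 : ∀ p ∈ P, (Real.log p / Real.log D) ^ 2 ≤ 1 / (24 * (K + 2) ^ 2) * (Real.log p / Real.log D) := by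
    intro p hp
    rw [sq]
    exact mul_le_mul_of_nonneg_right (hδ1 p hp).2 (hδ1 p hp).1
  have hKs : K * (1 / (24 * (K + 2) ^ 2)) ≤ (1 : ℝ) / 32 := by
    rw [mul_one_div, div_le_div_iff₀ hK2 (by norm_num)]
    nlinarith
  have hKs1 : 1 / (24 * (K + 2) ^ 2) ≤ (1 : ℝ) := by
    rw [div_le_one hK2]
    nlinarith
  have hκ1 : κ ≤ 1 / 32 := by
    rw [hκ]
    have h1 : ∀ p ∈ P, K / p * (Real.log p / Real.log D) ^ 2 ≤
        K * (1 / (24 * (K + 2) ^ 2)) * (1 / Real.log D) * (Real.log p / p) := by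
      intro p hp
      calc K / p * (Real.log p / Real.log D) ^ 2 ≤ K / p * (1 / (24 * (K + 2) ^ 2) * (Real.log p / Real.log D)) :=
            mul_le_mul_of_nonneg_left (hδ2 p hp) (by positivity)
        _ = _ := by ring
    refine (sum_le_sum h1).trans ?_
    rw [← mul_sum]
    calc K * (1 / (24 * (K + 2) ^ 2)) * (1 / Real.log D) * ∑ p ∈ P, Real.log p / p ≤
          K * (1 / (24 * (K + 2) ^ 2)) * (1 / Real.log D) * (Real.log D / (24 * (K + 2) ^ 2)) :=
          mul_le_mul_of_nonneg_left hM (by positivity)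
      _ = K * (1 / (24 * (K + 2) ^ 2)) * (1 / (24 * (K + 2) ^ 2)) := by field_simp
      _ ≤ 1 / 32 * 1 := mul_le_mul hKs hKs1 (by positivity) (by norm_num)
      _ = 1 / 32 := by ring
  have hκ0 : 0 ≤ κ := by
    rw [hκ]
    exact sum_nonneg fun p _ => by positivity
  -- the energies
  obtain ⟨R, hR⟩ : ∃ R : Finset ℕ → ℝ, R = fun Q => if (L / 4 < Real.log (∏ p ∈ Q, p : ℕ) ∧
    ((∏ p ∈ Q, p : ℕ) : ℝ) ≤ D ^ 3 ∧ Q ⊆ P) then (1 + K * Q.card) * (((K + 1 : ℝ) ^ 2 + K) ^ Q.card *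
      (En A (∏ p ∈ Q, p) / (∏ p ∈ Q, p : ℕ))) else 0 := ⟨_, rfl⟩
  have hR0 : ∀ Q, 0 ≤ R Q := by
    intro Q
    rw [hR]
    simp only
    split_ifs
    · have := En_nonneg A (∏ p ∈ Q, p)
      positivity
    · exact le_refl _
  -- each pair
  have hpair : ∀ y ∈ P.powerset ×ˢ P.powerset,
      (if y.1 = ∅ ∧ y.2 = ∅ then 1 / 16 * EE K X P * (A.card : ℝ) ^ 2 else 0) - EE K X P * R (y.1 ∪ y.2) ≤
      (CC P (fun U U' => hh D U * hh D U') (aa K X) (bb K X) y.1 y.2 -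
      EE K X (P \ (y.1 ∪ y.2)) * JJ D (y.1 ∪ y.2) * (∑ p ∈ P, K / p * (Real.log p / Real.log D) ^ 2 +
        K * ∑ p ∈ y.1 ∪ y.2, (Real.log p / Real.log D) ^ 2)) * TT K X A y.1 y.2 := by
    intro y hy
    rw [mem_product, mem_powerset, mem_powerset] at hy
    have hyP : y.1 ∪ y.2 ⊆ P := union_subset hy.1 hy.2
    rw [← hκ]
    obtain ⟨Q, hQ⟩ : ∃ Q, Q = y.1 ∪ y.2 := ⟨_, rfl⟩
    rw [← hQ] at hyP ⊢
    have hQp : ∀ p ∈ Q, p.Prime := fun p hp => hP p (hyP hp)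
    have hT0 : 0 ≤ TT K X A y.1 y.2 := TT_nonneg A h hP (by rw [← hQ]; exact hyP)
    have hEQ0 : 0 ≤ EE K X (P \ Q) := zero_le_one.trans (EE_one fun p hp => h p (mem_sdiff.1 hp).1)
    have hEQ : EE K X (P \ Q) ≤ EE K X P := EE_mono h sdiff_subset
    have hlogQ : ∑ p ∈ Q, Real.log p / Real.log D = Real.log (∏ p ∈ Q, p : ℕ) / L := by
      rw [← sum_div, hLe]
      push_cast
      rw [Real.log_prod (fun p hp => by exact_mod_cast (hQp p hp).ne_zero)]
    have hsq : ∑ p ∈ Q, (Real.log p / Real.log D) ^ 2 ≤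
        1 / (24 * (K + 2) ^ 2) * (Real.log (∏ p ∈ Q, p : ℕ) / L) := by
      rw [← hlogQ, mul_sum]
      exact sum_le_sum fun p hp => hδ2 p (hyP hp)
    have hsq0 : 0 ≤ ∑ p ∈ Q, (Real.log p / Real.log D) ^ 2 := sum_nonneg fun p _ => sq_nonneg _
    have hJ1 : JJ D Q ≤ 1 := by
      unfold JJ
      split_ifs <;> norm_num
    have hJ0 := JJ_nonneg D Q
    by_cases hc : Real.log (∏ p ∈ Q, p : ℕ) ≤ L / 4
    · -- small products
      have hR1 : R Q = 0 := by
        rw [hR]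
        simp only
        rw [if_neg]
        rintro ⟨h1, _⟩
        linarith
      have hmain := CC_main hD h hP hlog hM hy.1 hy.2 (by rw [← hQ, ← hLe]; exact hc)
      rw [← hQ] at hmain
      have h1 : K * ∑ p ∈ Q, (Real.log p / Real.log D) ^ 2 ≤ 1 / 32 := by
        have e1 : Real.log (∏ p ∈ Q, p : ℕ) / L ≤ 1 := by
          rw [div_le_one (by rw [hLe]; exact hL)]
          rw [← hLe] at hL
          linarith
        calc K * ∑ p ∈ Q, (Real.log p / Real.log D) ^ 2 ≤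
              K * (1 / (24 * (K + 2) ^ 2) * (Real.log (∏ p ∈ Q, p : ℕ) / L)) :=
              mul_le_mul_of_nonneg_left hsq hK0
          _ = (K * (1 / (24 * (K + 2) ^ 2))) * (Real.log (∏ p ∈ Q, p : ℕ) / L) := by ring
          _ ≤ (K * (1 / (24 * (K + 2) ^ 2))) * 1 := mul_le_mul_of_nonneg_left e1 (by positivity)
          _ ≤ 1 / 32 := by rw [mul_one]; exact hKs
      have h2 : EE K X (P \ Q) * JJ D Q * (κ + K * ∑ p ∈ Q, (Real.log p / Real.log D) ^ 2) ≤
          EE K X (P \ Q) * (1 / 16) := by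
        rw [mul_assoc]
        apply mul_le_mul_of_nonneg_left _ hEQ0
        calc JJ D Q * (κ + K * ∑ p ∈ Q, (Real.log p / Real.log D) ^ 2) ≤ 1 * (1 / 16) := by
              apply mul_le_mul hJ1 (by linarith) (by positivity) (by norm_num)
          _ = 1 / 16 := by ring
      have h3 : 1 / 16 * EE K X (P \ Q) ≤ CC P (fun U U' => hh D U * hh D U') (aa K X) (bb K X) y.1 y.2 -
          EE K X (P \ Q) * JJ D Q * (κ + K * ∑ p ∈ Q, (Real.log p / Real.log D) ^ 2) := by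
        linarith
      rw [hR1, mul_zero, sub_zero]
      refine le_trans ?_ (mul_le_mul_of_nonneg_right h3 hT0)
      split_ifs with h4
      · have hQe : Q = ∅ := by rw [hQ, h4.1, h4.2, union_empty]
        rw [h4.1, h4.2, hQe, sdiff_empty, TT_empty]
      · positivity
    · -- large products
      push Not at hc
      have hne : ¬ (y.1 = ∅ ∧ y.2 = ∅) := by
        rintro ⟨h1, h2⟩
        rw [h1, h2, union_empty] at hQ
        rw [hQ, prod_empty, Nat.cast_one, Real.log_one] at hc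
        rw [← hLe] at hL
        linarith
      rw [if_neg hne, zero_sub]
      have hCC0 : 0 ≤ CC P (fun U U' => hh D U * hh D U') (aa K X) (bb K X) y.1 y.2 := by
        unfold CC
        apply sum_nonneg
        intro z hz
        rw [mem_product, mem_powerset, mem_powerset] at hz
        have hz1 : z.1 ∪ z.2 ⊆ P := union_subset (hz.1.trans sdiff_subset) (hz.2.trans sdiff_subset)
        exact mul_nonneg (mul_nonneg (hh_nonneg _ _) (hh_nonneg _ _))
          (GG_nonneg _ _ _ _ _ (fun q hq => aa_nonneg (h q (hz1 hq)))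
            (fun q hq => aa_nonneg (h q (hz1 hq))) (fun q _ => bb_nonneg q))
      have hT1 := TT_le A h hP (V := y.1) (V' := y.2) (by rw [← hQ]; exact hyP)
      rw [← hQ] at hT1
      have hsum : κ + K * ∑ p ∈ Q, (Real.log p / Real.log D) ^ 2 ≤ 1 + K * Q.card := by
        have e1 : ∑ p ∈ Q, (Real.log p / Real.log D) ^ 2 ≤ Q.card := by
          have e2 : ∀ p ∈ Q, (Real.log p / Real.log D) ^ 2 ≤ 1 := by
            intro p hp
            obtain ⟨a1, a2⟩ := hδ1 p (hyP hp)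
            have a3 := a2.trans hKs1
            nlinarith
          refine (sum_le_sum e2).trans (le_of_eq ?_)
          rw [sum_const, nsmul_eq_mul, mul_one]
        have e3 := mul_le_mul_of_nonneg_left e1 hK0
        linarith
      by_cases hJ : ((∏ p ∈ Q, p : ℕ) : ℝ) ≤ D ^ 3
      · have hRQ : R Q = (1 + K * Q.card) * (((K + 1 : ℝ) ^ 2 + K) ^ Q.card *
            (En A (∏ p ∈ Q, p) / (∏ p ∈ Q, p : ℕ))) := by
          rw [hR]
          simp only
          rw [if_pos ⟨hc, hJ, hyP⟩]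
        have h4 : EE K X (P \ Q) * JJ D Q * (κ + K * ∑ p ∈ Q, (Real.log p / Real.log D) ^ 2) *
            TT K X A y.1 y.2 ≤ EE K X P * R Q := by
          rw [hRQ]
          calc EE K X (P \ Q) * JJ D Q * (κ + K * ∑ p ∈ Q, (Real.log p / Real.log D) ^ 2) *
                TT K X A y.1 y.2 ≤ EE K X P * 1 * (1 + K * Q.card) *
                (((K + 1 : ℝ) ^ 2 + K) ^ Q.card * (En A (∏ p ∈ Q, p) / (∏ p ∈ Q, p : ℕ))) := by
                apply mul_le_mul _ hT1 hT0 (by positivity)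
                apply mul_le_mul _ hsum (by positivity) (by positivity)
                exact mul_le_mul hEQ hJ1 hJ0 hE0.le
            _ = _ := by ring
        have h5 := mul_nonneg hCC0 hT0
        rw [sub_mul]
        linarith
      · have hJz : JJ D Q = 0 := by
          unfold JJ
          rw [if_neg hJ]
        rw [hJz, mul_zero, zero_mul, sub_zero]
        have h5 := mul_nonneg hCC0 hT0
        have h6 := mul_nonneg hE0.le (hR0 Q)
        linarith
  refine le_trans ?_ (sum_le_sum hpair)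
  rw [sum_sub_distrib, ← mul_sum]
  have hfirst : ∑ y ∈ P.powerset ×ˢ P.powerset, (if y.1 = ∅ ∧ y.2 = ∅ then
      1 / 16 * EE K X P * (A.card : ℝ) ^ 2 else 0) = 1 / 16 * EE K X P * (A.card : ℝ) ^ 2 := by
    rw [sum_eq_single_of_mem ((∅, ∅) : Finset ℕ × Finset ℕ)
      (mem_product.2 ⟨empty_mem_powerset P, empty_mem_powerset P⟩)]
    · rw [if_pos ⟨rfl, rfl⟩]
    · rintro ⟨V, V'⟩ _ hne
      rw [if_neg]
      rintro ⟨h1, h2⟩
      exact hne (Prod.ext h1 h2)
  rw [hfirst]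
  -- the sum of the energies
  have hsumR : ∑ y ∈ P.powerset ×ˢ P.powerset, R (y.1 ∪ y.2) ≤
      6 * (C : ℝ) ^ (C ^ 2) * (N + D ^ 6) * A.card / Real.sqrt (D ^ (1 / 4 : ℝ)) := by
    refine (sum_union_le P R hR0).trans ?_
    have hC1 : 1 ≤ C := by
      rw [hC]
      have : 0 < (K + 1) * ((K + 1) ^ 2 + K) := by positivity
      omega
    have hs0 : 0 < Real.sqrt (D ^ (1 / 4 : ℝ)) := Real.sqrt_pos.2 (by positivity)
    have h1 : ∀ Q ∈ P.powerset, (4 : ℝ) ^ Q.card * R Q ≤ (C : ℝ) ^ (C ^ 2) / Real.sqrt (D ^ (1 / 4 : ℝ)) *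
        (if (∏ p ∈ Q, p) ≤ ⌊D ^ 3⌋₊ then En A (∏ p ∈ Q, p) else 0) := by
      intro Q hQ
      rw [mem_powerset] at hQ
      have hQp : ∀ p ∈ Q, p.Prime := fun p hp => hP p (hQ hp)
      rw [hR]
      simp only
      by_cases hc : L / 4 < Real.log (∏ p ∈ Q, p : ℕ) ∧ ((∏ p ∈ Q, p : ℕ) : ℝ) ≤ D ^ 3 ∧ Q ⊆ P
      · rw [if_pos hc, if_pos (Nat.le_floor hc.2.1)]
        have e1 := pow_card_le C hC1 Q hQp
        have hq1 : (1 : ℝ) ≤ ((∏ p ∈ Q, p : ℕ) : ℝ) := by exact_mod_cast prod_ge_one Q hQp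
        have hq0 : (0 : ℝ) < ((∏ p ∈ Q, p : ℕ) : ℝ) := by linarith
        have e2 : (4 : ℝ) ^ Q.card * ((1 + K * Q.card) * ((K + 1 : ℝ) ^ 2 + K) ^ Q.card) ≤ (C : ℝ) ^ Q.card := by
          have e3 : (1 + K * Q.card : ℝ) ≤ (1 + K) ^ Q.card := by
            have := one_add_mul_le_pow (a := (K : ℝ)) (by linarith) Q.card
            linarith
          calc (4 : ℝ) ^ Q.card * ((1 + K * Q.card) * ((K + 1 : ℝ) ^ 2 + K) ^ Q.card) ≤
                (4 : ℝ) ^ Q.card * ((1 + K) ^ Q.card * ((K + 1 : ℝ) ^ 2 + K) ^ Q.card) := by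
                apply mul_le_mul_of_nonneg_left _ (by positivity)
                exact mul_le_mul_of_nonneg_right e3 (by positivity)
            _ = (C : ℝ) ^ Q.card := by
                rw [← mul_pow, ← mul_pow, hC]
                push_cast
                ring
        have e4 : Real.sqrt (D ^ (1 / 4 : ℝ)) ≤ Real.sqrt (∏ p ∈ Q, p : ℕ) := by
          apply Real.sqrt_le_sqrt
          rw [← Real.log_le_log_iff (by positivity) hq0, Real.log_rpow hD0, ← hLe]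
          linarith [hc.1]
        have e5 : (C : ℝ) ^ Q.card / ((∏ p ∈ Q, p : ℕ) : ℝ) ≤ (C : ℝ) ^ (C ^ 2) / Real.sqrt (D ^ (1 / 4 : ℝ)) := by
          rw [div_le_div_iff₀ hq0 hs0]
          have e6 : Real.sqrt (∏ p ∈ Q, p : ℕ) * Real.sqrt (∏ p ∈ Q, p : ℕ) = ((∏ p ∈ Q, p : ℕ) : ℝ) :=
            Real.mul_self_sqrt hq0.le
          calc (C : ℝ) ^ Q.card * Real.sqrt (D ^ (1 / 4 : ℝ)) ≤
                ((C : ℝ) ^ (C ^ 2) * Real.sqrt (∏ p ∈ Q, p : ℕ)) * Real.sqrt (∏ p ∈ Q, p : ℕ) :=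
                mul_le_mul e1 e4 (Real.sqrt_nonneg _) (by positivity)
            _ = _ := by rw [mul_assoc, e6]
        have hEn := En_nonneg A (∏ p ∈ Q, p)
        calc (4 : ℝ) ^ Q.card * ((1 + K * Q.card) * (((K + 1 : ℝ) ^ 2 + K) ^ Q.card *
              (En A (∏ p ∈ Q, p) / ((∏ p ∈ Q, p : ℕ) : ℝ)))) =
              ((4 : ℝ) ^ Q.card * ((1 + K * Q.card) * ((K + 1 : ℝ) ^ 2 + K) ^ Q.card)) /
              ((∏ p ∈ Q, p : ℕ) : ℝ) * En A (∏ p ∈ Q, p) := by ring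
          _ ≤ (C : ℝ) ^ Q.card / ((∏ p ∈ Q, p : ℕ) : ℝ) * En A (∏ p ∈ Q, p) := by
              apply mul_le_mul_of_nonneg_right _ hEn
              exact div_le_div_of_nonneg_right e2 hq0.le
          _ ≤ _ := mul_le_mul_of_nonneg_right e5 hEn
      · rw [if_neg hc, mul_zero]
        have hEn := En_nonneg A (∏ p ∈ Q, p)
        split_ifs <;> positivity
    refine (sum_le_sum h1).trans ?_
    rw [← mul_sum, ← sum_filter]
    have h2 := LS_prod A N hA P hP ⌊D ^ 3⌋₊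
    have h3 : (⌊D ^ 3⌋₊ : ℝ) ^ 2 ≤ D ^ 6 := by
      have e1 : (⌊D ^ 3⌋₊ : ℝ) ≤ D ^ 3 := Nat.floor_le (by positivity)
      calc (⌊D ^ 3⌋₊ : ℝ) ^ 2 ≤ (D ^ 3) ^ 2 := pow_le_pow_left₀ (Nat.cast_nonneg _) e1 2
        _ = D ^ 6 := by ring
    calc (C : ℝ) ^ (C ^ 2) / Real.sqrt (D ^ (1 / 4 : ℝ)) *
          ∑ Q ∈ P.powerset.filter (fun Q => ∏ p ∈ Q, p ≤ ⌊D ^ 3⌋₊), En A (∏ p ∈ Q, p) ≤
          (C : ℝ) ^ (C ^ 2) / Real.sqrt (D ^ (1 / 4 : ℝ)) * (6 * (N + D ^ 6) * A.card) := by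
          apply mul_le_mul_of_nonneg_left _ (by positivity)
          refine h2.trans ?_
          apply mul_le_mul_of_nonneg_right _ (Nat.cast_nonneg _)
          linarith
      _ = _ := by ring
  have hlast := mul_le_mul_of_nonneg_left hsumR hE0.le
  have e9 : ((A.card : ℝ) ^ 2 / 16 - 6 * (C : ℝ) ^ (C ^ 2) * (N + D ^ 6) * A.card /
      Real.sqrt (D ^ (1 / 4 : ℝ))) * EE K X P = 1 / 16 * EE K X P * (A.card : ℝ) ^ 2 -
      EE K X P * (6 * (C : ℝ) ^ (C ^ 2) * (N + D ^ 6) * A.card / Real.sqrt (D ^ (1 / 4 : ℝ))) := by ring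
  rw [e9]
  linarith

end

end Pool.Agent.H540.PS
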