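import Pool.Agent.H540.TE.Dm
import Pool.Agent.H540.TE.LowM

/-! Twisted pair sums of the weights multiplied with functions of mean zero. -/

set_option autoImplicit false

namespace Pool.Agent.H540.PS

open Finset

/-- change of the order of summation -/
theorem reidx (P : Finset ℕ) (f : Finset ℕ → Finset ℕ → ℝ) :
    ∑ Q ∈ P.powerset, ∑ T ∈ Q.powerset, f T (Q \ T) =
      ∑ T ∈ P.powerset, ∑ W ∈ (P \ T).powerset, f T W := by
  rw [sum_sigma', sum_sigma']
  refine sum_bij' (fun x _ => ⟨x.2, x.1 \ x.2⟩) (fun y _ => ⟨y.1 ∪ y.2, y.1⟩) ?_ ?_ ?_ ?_ ?_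
  · rintro ⟨Q, T⟩ h
    simp only [mem_sigma, mem_powerset] at h ⊢
    exact ⟨h.2.trans h.1, sdiff_subset_sdiff h.1 (subset_refl _)⟩
  · rintro ⟨T, W⟩ h
    simp only [mem_sigma, mem_powerset] at h ⊢
    exact ⟨union_subset h.1 (h.2.trans sdiff_subset), subset_union_left⟩
  · rintro ⟨Q, T⟩ h
    simp only [mem_sigma, mem_powerset] at h
    simp only [union_sdiff_of_subset h.2]
  · rintro ⟨T, W⟩ h
    simp only [mem_sigma, mem_powerset] at h
    have h1 : Disjoint T W := by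
      rw [disjoint_left]
      intro p hp hp'
      exact (mem_sdiff.1 (h.2 hp')).2 hp
    simp only [union_sdiff_cancel_left h1]
  · rintro ⟨Q, T⟩ _
    rfl

/-- the indicator function of the multiples of a product -/
noncomputable def uQ (Q : Finset ℕ) (m : ℤ) : ℝ := ∏ p ∈ Q, uu p m

theorem uu_sq (p : ℕ) (m : ℤ) : uu p m * uu p m = uu p m := by
  rcases uu_cases p m with h | h <;> rw [h.2] <;> norm_num

theorem uQ_insert (Q : Finset ℕ) (p : ℕ) (m : ℤ) : uu p m * uQ Q m = uQ (insert p Q) m := by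
  by_cases h : p ∈ Q
  · rw [insert_eq_of_mem h]
    unfold uQ
    rw [← mul_prod_erase Q _ h, ← mul_assoc, uu_sq]
  · unfold uQ
    rw [prod_insert h]

theorem uQ_union (Q Q' : Finset ℕ) (m : ℤ) : uQ Q m * uQ Q' m = uQ (Q ∪ Q') m := by
  induction Q using Finset.induction_on with
  | empty => simp [uQ]
  | insert p Q hp ih =>
    rw [← uQ_insert, insert_union, ← uQ_insert, mul_assoc, ih]

theorem uQ_PD (Q : Finset ℕ) (hQ : ∀ p ∈ Q, p.Prime) : PD (uQ Q) :=
  PD.prod Q fun p hp => uu_PD p (hQ p hp).pos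

section

variable {K : ℕ} {X : ℕ → ℤ → Prop}

theorem tt_dom {p : ℕ} (h : Ev (X p) p K) (hp : 0 < p) :
    DR (tt K X p) (fun m => (2 * K + 1) * uu p m) := by
  have h1 : DR (fun m => ((K : ℝ) + 1) * uu p m) (fun m => ((K : ℝ) + 1) * uu p m) :=
    DR.self (PD.smul _ (by positivity) (uu_PD p hp))
  have h2 : DR (fun m => (-1) * xI (X p) m) (fun m => 1 * (K * uu p m)) :=
    DR.smul (-1) 1 (by simp) (xI_dom h.per hp K h.card)
  refine (h1.add h2).congr (fun m => ?_) (fun m => ?_)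
  · unfold tt
    ring
  · ring

/-- domination of a combination of products of the local weights -/
theorem comb_dom {P : Finset ℕ} (h : ∀ p ∈ P, Ev (X p) p K) (hP : ∀ p ∈ P, p.Prime) (k : Finset ℕ → ℝ)
    (hk : ∀ U ∈ P.powerset, 0 ≤ k U) :
    DR (fun m => (∑ U ∈ P.powerset, k U * ∏ p ∈ U, tt K X p m) ^ 2)
      (fun m => ∑ y ∈ P.powerset ×ˢ P.powerset, k y.1 * k y.2 * (2 * K + 1) ^ (y.1.card + y.2.card) *
        uQ (y.1 ∪ y.2) m) := by
  have h1 : DR (fun m => ∑ U ∈ P.powerset, k U * ∏ p ∈ U, tt K X p m)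
      (fun m => ∑ U ∈ P.powerset, k U * ∏ p ∈ U, ((2 * K + 1) * uu p m)) := by
    apply DR.sum P.powerset
    intro U hU
    apply DR.smul
    · rw [abs_of_nonneg (hk U hU)]
    · rw [mem_powerset] at hU
      exact DR.prod U fun p hp => tt_dom (h p (hU hp)) (hP p (hU hp)).pos
  refine (h1.mul h1).congr (fun m => by ring) (fun m => ?_)
  rw [sum_mul_sum, sum_product]
  apply sum_congr rfl
  intro U _
  apply sum_congr rfl
  intro U' _
  rw [prod_mul_distrib, prod_mul_distrib, prod_const, prod_const, ← uQ_union]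
  unfold uQ
  rw [pow_add]
  ring

/-- the dominating pair sums -/
noncomputable def BB (A : Finset ℤ) (θ : ℝ) (S Q : Finset ℕ) : ℝ :=
  (pr' A θ (fun m => (∏ p ∈ S, vv p m) * uQ Q m)).re

theorem BB_nonneg (A : Finset ℤ) (θ : ℝ) {S Q : Finset ℕ} (hS : ∀ p ∈ S, p.Prime) (hQ : ∀ p ∈ Q, p.Prime) :
    0 ≤ BB A θ S Q := by
  have h1 : PD (fun m => (∏ p ∈ S, vv p m) * uQ Q m) :=
    (PD.prod S fun p hp => vv_PD p (hS p hp).pos).mul (uQ_PD Q hQ)
  have h2 := (DR.of_zero h1).pt A θ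
  exact (norm_nonneg _).trans h2

theorem re_smul (A : Finset ℤ) (θ x : ℝ) (f : ℤ → ℝ) : (pr' A θ (fun m => x * f m)).re = x * (pr' A θ f).re := by
  rw [pr'_smul, Complex.re_ofReal_mul]

theorem re_sum (A : Finset ℤ) (θ : ℝ) {ι : Type*} (s : Finset ι) (f : ι → ℤ → ℝ) :
    (pr' A θ (fun m => ∑ i ∈ s, f i m)).re = ∑ i ∈ s, (pr' A θ (f i)).re := by
  rw [pr'_sum, Complex.re_sum]

/-- the main weight -/
theorem bound1 (A : Finset ℤ) (θ : ℝ) {D : ℝ} (hD : 1 < D) {P : Finset ℕ} (h : ∀ p ∈ P, Ev (X p) p K)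
    (hP : ∀ p ∈ P, p.Prime) {S : Finset ℕ} (hS : ∀ p ∈ S, p.Prime) (y : ℤ → ℝ) (c : ℝ) (hc : 0 ≤ c)
    (hy : DR y (fun m => c * ∏ p ∈ S, vv p m)) :
    ‖pr' A θ (fun m => y m * Lam K X D P m ^ 2)‖ ≤
      c * ∑ Q ∈ P.powerset, (4 * (2 * K + 1) ^ 2 : ℝ) ^ Q.card * JJ D Q * BB A θ S Q := by
  have h1 := comb_dom h hP (hh D) (fun U _ => hh_nonneg D U)
  have h2 := (hy.mul h1).pt A θ
  refine h2.trans ?_
  have e1 : ∀ m : ℤ, c * (∏ p ∈ S, vv p m) * ∑ y ∈ P.powerset ×ˢ P.powerset,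
      hh D y.1 * hh D y.2 * (2 * K + 1) ^ (y.1.card + y.2.card) * uQ (y.1 ∪ y.2) m =
      c * ∑ y ∈ P.powerset ×ˢ P.powerset, hh D y.1 * hh D y.2 * (2 * K + 1) ^ (y.1.card + y.2.card) *
        ((∏ p ∈ S, vv p m) * uQ (y.1 ∪ y.2) m) := by
    intro m
    rw [mul_assoc, mul_sum]
    congr 1
    apply sum_congr rfl
    intro y _
    ring
  rw [pr'_congr A θ e1, re_smul, re_sum]
  apply mul_le_mul_of_nonneg_left _ hc
  have h3 : ∀ y ∈ P.powerset ×ˢ P.powerset,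
      (pr' A θ (fun m => hh D y.1 * hh D y.2 * (2 * K + 1) ^ (y.1.card + y.2.card) *
        ((∏ p ∈ S, vv p m) * uQ (y.1 ∪ y.2) m))).re ≤
      ((2 * K + 1) ^ 2 : ℝ) ^ (y.1 ∪ y.2).card * JJ D (y.1 ∪ y.2) * BB A θ S (y.1 ∪ y.2) := by
    intro y hy
    rw [mem_product, mem_powerset, mem_powerset] at hy
    have hyP : y.1 ∪ y.2 ⊆ P := union_subset hy.1 hy.2
    rw [re_smul]
    apply mul_le_mul_of_nonneg_right _ (BB_nonneg A θ hS fun p hp => hP p (hyP hp))
    have c1 := hh_le_one D hD y.1 (fun p hp => hP p (hy.1 hp))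
    have c2 := hh_le_one D hD y.2 (fun p hp => hP p (hy.2 hp))
    have c3 := hh_nonneg D y.1
    have c4 := hh_nonneg D y.2
    have c5 : ((2 * K + 1 : ℝ)) ^ (y.1.card + y.2.card) ≤ ((2 * K + 1) ^ 2 : ℝ) ^ (y.1 ∪ y.2).card := by
      rw [← pow_mul]
      apply pow_le_pow_right₀ (by linarith [(Nat.cast_nonneg K : (0 : ℝ) ≤ K)])
      have d1 := card_le_card (subset_union_left (s₁ := y.1) (s₂ := y.2))
      have d2 := card_le_card (subset_union_right (s₁ := y.1) (s₂ := y.2))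
      omega
    by_cases hJ : ((∏ p ∈ y.1 ∪ y.2, p : ℕ) : ℝ) ≤ D ^ 3
    · have hJ1 : JJ D (y.1 ∪ y.2) = 1 := by
        unfold JJ
        rw [if_pos hJ]
      rw [hJ1, mul_one]
      calc hh D y.1 * hh D y.2 * (2 * K + 1 : ℝ) ^ (y.1.card + y.2.card) ≤
            1 * (2 * K + 1 : ℝ) ^ (y.1.card + y.2.card) := by
            apply mul_le_mul_of_nonneg_right _ (by positivity)
            nlinarith
        _ ≤ _ := by rw [one_mul]; exact c5
    · have hz : hh D y.1 * hh D y.2 = 0 := by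
        by_contra hne
        apply hJ
        have d1 : ((∏ p ∈ y.1, p : ℕ) : ℝ) ≤ D := by
          by_contra hcon
          push Not at hcon
          exact hne (by rw [hh_zero D hD _ hcon, zero_mul])
        have d2 : ((∏ p ∈ y.2, p : ℕ) : ℝ) ≤ D := by
          by_contra hcon
          push Not at hcon
          exact hne (by rw [hh_zero D hD _ hcon, mul_zero])
        have d3 := prod_union_le y.1 y.2 (fun p hp => hP p (hyP hp))
        have d4 : ((∏ p ∈ y.1 ∪ y.2, p : ℕ) : ℝ) ≤ ((∏ p ∈ y.1, p : ℕ) : ℝ) * ((∏ p ∈ y.2, p : ℕ) : ℝ) := by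
          exact_mod_cast d3
        calc ((∏ p ∈ y.1 ∪ y.2, p : ℕ) : ℝ) ≤ D * D :=
              d4.trans (mul_le_mul d1 d2 (Nat.cast_nonneg _) (by linarith))
          _ ≤ D ^ 3 := by nlinarith [mul_pos (show (0 : ℝ) < D by linarith) (show (0 : ℝ) < D by linarith)]
      rw [hz, zero_mul]
      exact mul_nonneg (by positivity) (JJ_nonneg _ _)
  refine (sum_le_sum h3).trans ?_
  have h4 := sum_union_le P (fun Q => if Q ⊆ P then ((2 * K + 1) ^ 2 : ℝ) ^ Q.card * JJ D Q * BB A θ S Q else 0) (by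
    intro Q
    split_ifs with hQ
    · exact mul_nonneg (mul_nonneg (by positivity) (JJ_nonneg _ _)) (BB_nonneg A θ hS fun p hp => hP p (hQ hp))
    · exact le_refl _)
  have h5 : ∑ y ∈ P.powerset ×ˢ P.powerset, ((2 * K + 1) ^ 2 : ℝ) ^ (y.1 ∪ y.2).card * JJ D (y.1 ∪ y.2) *
      BB A θ S (y.1 ∪ y.2) = ∑ y ∈ P.powerset ×ˢ P.powerset, (fun Q => if Q ⊆ P then ((2 * K + 1) ^ 2 : ℝ) ^ Q.card *
      JJ D Q * BB A θ S Q else 0) (y.1 ∪ y.2) := by
    apply sum_congr rfl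
    intro y hy
    rw [mem_product, mem_powerset, mem_powerset] at hy
    simp only
    rw [if_pos (union_subset hy.1 hy.2)]
  rw [h5]
  refine h4.trans (le_of_eq ?_)
  apply sum_congr rfl
  intro Q hQ
  rw [mem_powerset] at hQ
  rw [if_pos hQ, mul_pow]
  ring

/-- the weights of the primes -/
theorem bound2 (A : Finset ℤ) (θ : ℝ) {D : ℝ} (hD : 1 < D) {P : Finset ℕ} (h : ∀ p ∈ P, Ev (X p) p K)
    (hP : ∀ p ∈ P, p.Prime) (hPD : ∀ p ∈ P, (p : ℝ) ≤ D) {S : Finset ℕ} (hS : ∀ p ∈ S, p.Prime) (y : ℤ → ℝ)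
    (c : ℝ) (hc : 0 ≤ c) (hy : DR y (fun m => c * ∏ p ∈ S, vv p m)) :
    ‖pr' A θ (fun m => y m * ∑ p ∈ P, xI (X p) m * Lp K X D P p m ^ 2)‖ ≤
      c * ∑ Q ∈ P.powerset, (8 * (K + 1) * (2 * K + 1) ^ 2 : ℝ) ^ Q.card * JJ D Q * BB A θ S Q := by
  have hK0 : (0 : ℝ) ≤ K := Nat.cast_nonneg K
  -- one prime
  have key : ∀ p ∈ P, DR (fun m => y m * (xI (X p) m * Lp K X D P p m ^ 2))
      (fun m => ∑ z ∈ (P.erase p).powerset ×ˢ (P.erase p).powerset, (c * (K * (kk D p z.1 * kk D p z.2 *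
        (2 * K + 1) ^ (z.1.card + z.2.card)))) * ((∏ p ∈ S, vv p m) * uQ (insert p z.1 ∪ z.2) m)) := by
    intro p hp
    have hp0 := (hP p hp).pos
    have h' : ∀ q ∈ P.erase p, Ev (X q) q K := fun q hq => h q (mem_of_mem_erase hq)
    have hP' : ∀ q ∈ P.erase p, q.Prime := fun q hq => hP q (mem_of_mem_erase hq)
    have h1 := comb_dom h' hP' (kk D p) (fun U hU => by
      rw [mem_powerset] at hU
      exact kk_nonneg D hD p U (fun h => notMem_erase p P (hU h)) (hP p hp) (fun q hq => hP' q (hU hq)))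
    have h2 := xI_dom (h p hp).per hp0 K (h p hp).card
    refine (hy.mul (h2.mul h1)).congr (fun m => rfl) (fun m => ?_)
    rw [mul_sum, mul_sum]
    apply sum_congr rfl
    intro z _
    rw [insert_union, ← uQ_insert]
    ring
  have hsum : DR (fun m => y m * ∑ p ∈ P, xI (X p) m * Lp K X D P p m ^ 2)
      (fun m => ∑ p ∈ P, ∑ z ∈ (P.erase p).powerset ×ˢ (P.erase p).powerset, (c * (K * (kk D p z.1 * kk D p z.2 *
        (2 * K + 1) ^ (z.1.card + z.2.card)))) * ((∏ p ∈ S, vv p m) * uQ (insert p z.1 ∪ z.2) m)) :=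
    (DR.sum P key).congr (fun m => by rw [mul_sum]) (fun m => rfl)
  refine (hsum.pt A θ).trans ?_
  rw [re_sum]
  obtain ⟨R, hR⟩ : ∃ R : Finset ℕ → ℝ, R = fun Q => if Q ⊆ P then
    K * ((2 * K + 1) ^ 2 : ℝ) ^ Q.card * JJ D Q * BB A θ S Q else 0 := ⟨_, rfl⟩
  have hR0 : ∀ Q, 0 ≤ R Q := by
    intro Q
    rw [hR]
    simp only
    split_ifs with hQ
    · exact mul_nonneg (mul_nonneg (by positivity) (JJ_nonneg _ _)) (BB_nonneg A θ hS fun p hp => hP p (hQ hp))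
    · exact le_refl _
  have h1 : ∀ p ∈ P, (pr' A θ (fun m => ∑ z ∈ (P.erase p).powerset ×ˢ (P.erase p).powerset,
      (c * (K * (kk D p z.1 * kk D p z.2 * (2 * K + 1) ^ (z.1.card + z.2.card)))) *
      ((∏ p ∈ S, vv p m) * uQ (insert p z.1 ∪ z.2) m))).re ≤
      c * ∑ z ∈ P.powerset ×ˢ P.powerset, if p ∈ z.1 ∪ z.2 then R (z.1 ∪ z.2) else 0 := by
    intro p hp
    rw [re_sum]
    refine le_trans ?_ (mul_le_mul_of_nonneg_left
      (sum_insert_le hp (fun V V' => R (V ∪ V')) (fun V V' _ _ => hR0 _)) hc)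
    rw [mul_sum]
    apply sum_le_sum
    intro z hz
    rw [mem_product, mem_powerset, mem_powerset] at hz
    rw [re_smul, mul_assoc c]
    apply mul_le_mul_of_nonneg_left _ hc
    have z1 : p ∉ z.1 := fun h => notMem_erase p P (hz.1 h)
    have z2 : p ∉ z.2 := fun h => notMem_erase p P (hz.2 h)
    have hz1 : ∀ q ∈ z.1, q.Prime := fun q hq => hP q (mem_of_mem_erase (hz.1 hq))
    have hz2 : ∀ q ∈ z.2, q.Prime := fun q hq => hP q (mem_of_mem_erase (hz.2 hq))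
    have hins : insert p z.1 ∪ z.2 ⊆ P := by
      intro q hq
      rw [mem_union, mem_insert] at hq
      rcases hq with (rfl | hq) | hq
      · exact hp
      · exact mem_of_mem_erase (hz.1 hq)
      · exact mem_of_mem_erase (hz.2 hq)
    rw [hR]
    simp only
    rw [if_pos hins]
    have hB : 0 ≤ BB A θ S (insert p z.1 ∪ z.2) := BB_nonneg A θ hS fun q hq => hP q (hins hq)
    apply mul_le_mul_of_nonneg_right _ hB
    rw [mul_assoc (K : ℝ) (((2 * K + 1) ^ 2 : ℝ) ^ _)]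
    apply mul_le_mul_of_nonneg_left _ hK0
    have k1 := kk_nonneg D hD p z.1 z1 (hP p hp) hz1
    have k2 := kk_nonneg D hD p z.2 z2 (hP p hp) hz2
    have hdiv : Real.log p / Real.log D ≤ 1 := by
      rw [div_le_one (Real.log_pos hD)]
      apply Real.log_le_log _ (hPD p hp)
      exact_mod_cast (hP p hp).pos
    have k3 := (kk_le D hD p z.1 z1 (hP p hp) hz1).trans hdiv
    have k4 := (kk_le D hD p z.2 z2 (hP p hp) hz2).trans hdiv
    have c5 : ((2 * K + 1 : ℝ)) ^ (z.1.card + z.2.card) ≤ ((2 * K + 1) ^ 2 : ℝ) ^ (insert p z.1 ∪ z.2).card := by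
      rw [← pow_mul]
      apply pow_le_pow_right₀ (by linarith)
      have d1 := card_le_card ((subset_insert p z.1).trans (subset_union_left (s₁ := insert p z.1) (s₂ := z.2)))
      have d2 := card_le_card (subset_union_right (s₁ := insert p z.1) (s₂ := z.2))
      omega
    by_cases hJ : ((∏ q ∈ insert p z.1 ∪ z.2, q : ℕ) : ℝ) ≤ D ^ 3
    · have hJ1 : JJ D (insert p z.1 ∪ z.2) = 1 := by
        unfold JJ
        rw [if_pos hJ]
      rw [hJ1, mul_one]
      calc kk D p z.1 * kk D p z.2 * (2 * K + 1 : ℝ) ^ (z.1.card + z.2.card) ≤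
            1 * (2 * K + 1 : ℝ) ^ (z.1.card + z.2.card) := by
            apply mul_le_mul_of_nonneg_right _ (by positivity)
            nlinarith
        _ ≤ _ := by rw [one_mul]; exact c5
    · have hz0 : kk D p z.1 * kk D p z.2 = 0 := by
        by_contra hne
        apply hJ
        have d1 : ((∏ q ∈ z.1, q : ℕ) : ℝ) ≤ D := by
          by_contra hcon
          push Not at hcon
          exact hne (by rw [kk_zero D hD p _ z1 (hP p hp) hz1 hcon, zero_mul])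
        have d2 : ((∏ q ∈ z.2, q : ℕ) : ℝ) ≤ D := by
          by_contra hcon
          push Not at hcon
          exact hne (by rw [kk_zero D hD p _ z2 (hP p hp) hz2 hcon, mul_zero])
        have d3 := prod_union_le (insert p z.1) z.2 (fun q hq => hP q (hins hq))
        rw [prod_insert z1] at d3
        have d4 : ((∏ q ∈ insert p z.1 ∪ z.2, q : ℕ) : ℝ) ≤
            (p : ℝ) * ((∏ q ∈ z.1, q : ℕ) : ℝ) * ((∏ q ∈ z.2, q : ℕ) : ℝ) := by
          exact_mod_cast d3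
        have hD0 : 0 ≤ D := by linarith
        calc ((∏ q ∈ insert p z.1 ∪ z.2, q : ℕ) : ℝ) ≤ D * D * D := by
              refine d4.trans (mul_le_mul ?_ d2 (Nat.cast_nonneg _) (by positivity))
              exact mul_le_mul (hPD p hp) d1 (Nat.cast_nonneg _) hD0
          _ = D ^ 3 := by ring
      rw [hz0, zero_mul]
      exact mul_nonneg (by positivity) (JJ_nonneg _ _)
  refine (sum_le_sum h1).trans ?_
  rw [← mul_sum]
  apply mul_le_mul_of_nonneg_left _ hc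
  rw [sum_comm]
  have h2 : ∀ z ∈ P.powerset ×ˢ P.powerset, ∑ p ∈ P, (if p ∈ z.1 ∪ z.2 then R (z.1 ∪ z.2) else 0) =
      (fun Q => (Q.card : ℝ) * R Q) (z.1 ∪ z.2) := by
    intro z hz
    rw [mem_product, mem_powerset, mem_powerset] at hz
    have s1 : z.1 ∪ z.2 ⊆ P := union_subset hz.1 hz.2
    rw [← sum_filter, sum_const, nsmul_eq_mul]
    simp only
    congr 2
    congr 1
    ext p
    rw [mem_filter]
    exact ⟨fun h => h.2, fun h => ⟨s1 h, h⟩⟩
  rw [sum_congr rfl h2]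
  refine (sum_union_le P (fun Q => (Q.card : ℝ) * R Q) (fun Q => mul_nonneg (Nat.cast_nonneg _) (hR0 Q))).trans ?_
  apply sum_le_sum
  intro Q hQ
  rw [mem_powerset] at hQ
  rw [hR]
  simp only
  rw [if_pos hQ]
  have hB : 0 ≤ BB A θ S Q := BB_nonneg A θ hS fun q hq => hP q (hQ hq)
  have hJ := JJ_nonneg D Q
  have h3 : (4 : ℝ) ^ Q.card * (Q.card * (K * ((2 * K + 1) ^ 2 : ℝ) ^ Q.card)) ≤
      (8 * (K + 1) * (2 * K + 1) ^ 2 : ℝ) ^ Q.card := by
    have e1 : (Q.card : ℝ) ≤ 2 ^ Q.card := by exact_mod_cast (Nat.lt_two_pow_self (n := Q.card)).le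
    have e2 : (Q.card : ℝ) * K ≤ 2 ^ Q.card * (K + 1) ^ Q.card := by
      rcases Nat.eq_zero_or_pos Q.card with h0 | h0
      · rw [h0]
        simp
      · have e3 : (K : ℝ) ≤ (K + 1) ^ Q.card := by
          calc (K : ℝ) ≤ (K + 1) ^ 1 := by rw [pow_one]; linarith
            _ ≤ _ := pow_le_pow_right₀ (by linarith) h0
        exact mul_le_mul e1 e3 hK0 (by positivity)
    calc (4 : ℝ) ^ Q.card * (Q.card * (K * ((2 * K + 1) ^ 2 : ℝ) ^ Q.card)) =
          (4 : ℝ) ^ Q.card * ((Q.card * K) * ((2 * K + 1) ^ 2 : ℝ) ^ Q.card) := by ring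
      _ ≤ (4 : ℝ) ^ Q.card * ((2 ^ Q.card * (K + 1) ^ Q.card) * ((2 * K + 1) ^ 2 : ℝ) ^ Q.card) := by
          apply mul_le_mul_of_nonneg_left _ (by positivity)
          exact mul_le_mul_of_nonneg_right e2 (by positivity)
      _ = _ := by
          rw [← mul_pow, ← mul_pow, ← mul_pow]
          congr 1
          ring
  calc (4 : ℝ) ^ Q.card * (Q.card * (K * ((2 * K + 1) ^ 2 : ℝ) ^ Q.card * JJ D Q * BB A θ S Q)) =
        ((4 : ℝ) ^ Q.card * (Q.card * (K * ((2 * K + 1) ^ 2 : ℝ) ^ Q.card))) * (JJ D Q * BB A θ S Q) := by ring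
    _ ≤ (8 * (K + 1) * (2 * K + 1) ^ 2 : ℝ) ^ Q.card * (JJ D Q * BB A θ S Q) :=
        mul_le_mul_of_nonneg_right h3 (mul_nonneg hJ hB)
    _ = _ := by ring

/-- the dominating pair sums in terms of the energies -/
theorem BB_eq (A : Finset ℤ) (θ : ℝ) {S Q : Finset ℕ} (hS : ∀ p ∈ S, p.Prime) (hQ : ∀ p ∈ Q, p.Prime)
    (hSQ : Disjoint S Q) : BB A θ S Q = ∑ T ∈ Q.powerset,
      (∏ p ∈ Q \ T, (1 / (p : ℝ))) * (Et A θ (∏ p ∈ S ∪ T, p) / (∏ p ∈ S ∪ T, p : ℕ)) := by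
  unfold BB
  have h1 : ∀ m : ℤ, (∏ p ∈ S, vv p m) * uQ Q m = ∑ T ∈ Q.powerset, (∏ p ∈ Q \ T, (1 / (p : ℝ))) *
      ∏ p ∈ S ∪ T, vv p m := by
    intro m
    have e1 : uQ Q m = ∏ p ∈ Q, (vv p m + 1 / p) := by
      unfold uQ vv
      apply prod_congr rfl
      intro p _
      ring
    rw [e1, prod_add, mul_sum]
    apply sum_congr rfl
    intro T hT
    rw [mem_powerset] at hT
    have e2 : Disjoint S T := by
      rw [disjoint_left] at hSQ ⊢
      exact fun p hp hp' => hSQ hp (hT hp')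
    rw [prod_union e2]
    ring
  rw [pr'_congr A θ h1, re_sum]
  apply sum_congr rfl
  intro T hT
  rw [mem_powerset] at hT
  rw [re_smul, pt_vv A θ (S ∪ T) (by
    intro p hp
    rw [mem_union] at hp
    rcases hp with hp | hp
    · exact hS p hp
    · exact hQ p (hT hp)), Complex.ofReal_re]

/-- summation over the sets of small primes -/
theorem sum_BB (A : Finset ℤ) (θ : ℝ) {D : ℝ} {P S : Finset ℕ} (hP : ∀ p ∈ P, p.Prime)
    (hS : ∀ p ∈ S, p.Prime) (hSP : Disjoint S P) (C : ℝ) (hC : 0 ≤ C) :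
    ∑ Q ∈ P.powerset, C ^ Q.card * JJ D Q * BB A θ S Q ≤
      (∏ p ∈ P, (1 + C / p)) * ∑ T ∈ P.powerset, C ^ T.card * JJ D T *
        (Et A θ (∏ p ∈ S ∪ T, p) / (∏ p ∈ S ∪ T, p : ℕ)) := by
  have h1 : ∀ Q ∈ P.powerset, C ^ Q.card * JJ D Q * BB A θ S Q ≤ ∑ T ∈ Q.powerset,
      (fun T W : Finset ℕ => C ^ T.card * JJ D T * (Et A θ (∏ p ∈ S ∪ T, p) / (∏ p ∈ S ∪ T, p : ℕ)) *
        ∏ p ∈ W, (C / p)) T (Q \ T) := by
    intro Q hQ
    rw [mem_powerset] at hQ
    have hd : Disjoint S Q := by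
      rw [disjoint_left] at hSP ⊢
      exact fun p hp hp' => hSP hp (hQ hp')
    rw [BB_eq A θ hS (fun p hp => hP p (hQ hp)) hd, mul_sum]
    apply sum_le_sum
    intro T hT
    rw [mem_powerset] at hT
    simp only
    have e1 : JJ D Q ≤ JJ D T := by
      unfold JJ
      by_cases h1 : ((∏ p ∈ Q, p : ℕ) : ℝ) ≤ D ^ 3
      · rw [if_pos h1, if_pos]
        refine le_trans ?_ h1
        have := prod_le_prod_of_subset_of_one_le' (f := fun q : ℕ => q) hT
          (fun q hq _ => (hP q (hQ hq)).one_le)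
        exact_mod_cast this
      · rw [if_neg h1]
        split_ifs <;> norm_num
    have e2 : C ^ Q.card = C ^ T.card * C ^ (Q \ T).card := by
      rw [← pow_add, card_sdiff_of_subset hT]
      congr 1
      have := card_le_card hT
      omega
    have e3 : ∏ p ∈ Q \ T, (C / (p : ℝ)) = C ^ (Q \ T).card * ∏ p ∈ Q \ T, (1 / (p : ℝ)) := by
      rw [← prod_const, ← prod_mul_distrib]
      apply prod_congr rfl
      intro p _
      ring
    have hE : 0 ≤ Et A θ (∏ p ∈ S ∪ T, p) / (∏ p ∈ S ∪ T, p : ℕ) :=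
      div_nonneg (Et_nonneg _ _ _) (Nat.cast_nonneg _)
    have hpr : 0 ≤ ∏ p ∈ Q \ T, (1 / (p : ℝ)) := prod_nonneg fun p _ => by positivity
    rw [e2, e3]
    calc C ^ T.card * C ^ (Q \ T).card * JJ D Q * ((∏ p ∈ Q \ T, (1 / (p : ℝ))) *
          (Et A θ (∏ p ∈ S ∪ T, p) / (∏ p ∈ S ∪ T, p : ℕ))) =
          JJ D Q * (C ^ T.card * C ^ (Q \ T).card * ((∏ p ∈ Q \ T, (1 / (p : ℝ))) *
          (Et A θ (∏ p ∈ S ∪ T, p) / (∏ p ∈ S ∪ T, p : ℕ)))) := by ring
      _ ≤ JJ D T * (C ^ T.card * C ^ (Q \ T).card * ((∏ p ∈ Q \ T, (1 / (p : ℝ))) *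
          (Et A θ (∏ p ∈ S ∪ T, p) / (∏ p ∈ S ∪ T, p : ℕ)))) := by
          apply mul_le_mul_of_nonneg_right e1
          positivity
      _ = _ := by ring
  refine (sum_le_sum h1).trans ?_
  refine (le_of_eq (reidx P (fun T W : Finset ℕ => C ^ T.card * JJ D T *
    (Et A θ (∏ p ∈ S ∪ T, p) / (∏ p ∈ S ∪ T, p : ℕ)) * ∏ p ∈ W, (C / p)))).trans ?_
  rw [mul_sum]
  apply sum_le_sum
  intro T hT
  rw [mem_powerset] at hT
  rw [← mul_sum]
  have hE : 0 ≤ Et A θ (∏ p ∈ S ∪ T, p) / (∏ p ∈ S ∪ T, p : ℕ) :=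
    div_nonneg (Et_nonneg _ _ _) (Nat.cast_nonneg _)
  have h2 : ∑ W ∈ (P \ T).powerset, ∏ p ∈ W, (C / (p : ℝ)) ≤ ∏ p ∈ P, (1 + C / p) := by
    have e1 : ∏ p ∈ P \ T, (C / (p : ℝ) + 1) = ∑ W ∈ (P \ T).powerset, ∏ p ∈ W, (C / (p : ℝ)) := by
      rw [prod_add]
      apply sum_congr rfl
      intro W _
      rw [prod_const_one, mul_one]
    rw [← e1]
    have e2 : ∏ p ∈ P \ T, (C / (p : ℝ) + 1) = ∏ p ∈ P \ T, (1 + C / (p : ℝ)) :=
      prod_congr rfl fun p _ => by ring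
    rw [e2, ← prod_sdiff hT]
    apply le_mul_of_one_le_right
    · exact prod_nonneg fun p _ => by positivity
    · apply prod_ge1
      intro p _
      have : 0 ≤ C / (p : ℝ) := by positivity
      linarith
  rw [mul_comm]
  exact mul_le_mul_of_nonneg_right h2 (mul_nonneg (mul_nonneg (by positivity) (JJ_nonneg _ _)) hE)

end

end Pool.Agent.H540.PS
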