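import Pool.Agent.H540.TE.Err1
import Pool.Agent.H540.DS.Sum
import Pool.Graph.R_seed8.Y882.VV

/-! The total error. -/

set_option autoImplicit false

namespace Pool.Agent.H540.PS

open Finset
open Pool.Agent.Y882 (VV)

/-- the weights in terms of functions of mean zero -/
theorem VV_expand (R : Finset ℕ) (c : Finset ℕ → ℝ) (g y : ℕ → ℝ) :
    VV R c (fun p => y p + g p) - VV R c g =
      ∑ T ∈ R.powerset, ∑ S ∈ T.powerset.erase ∅, c T * (∏ p ∈ T \ S, g p) * ∏ p ∈ S, y p := by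
  unfold VV
  rw [← sum_sub_distrib]
  apply sum_congr rfl
  intro T _
  rw [prod_add, ← mul_sub]
  have h1 : ∑ S ∈ T.powerset, (∏ p ∈ S, y p) * ∏ p ∈ T \ S, g p =
      (∏ p ∈ T, g p) + ∑ S ∈ T.powerset.erase ∅, (∏ p ∈ S, y p) * ∏ p ∈ T \ S, g p := by
    rw [← add_sum_erase _ _ (empty_mem_powerset T), prod_empty, one_mul, sdiff_empty]
  rw [h1, add_sub_cancel_left, mul_sum]
  apply sum_congr rfl
  intro S _
  ring

theorem pr_expand (A : Finset ℤ) (θ : ℝ) (R : Finset ℕ) (hR : ∀ p ∈ R, p.Prime) (c : Finset ℕ → ℝ) (g : ℕ → ℝ)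
    (hg : ∀ p ∈ R, 0 ≤ g p) (y : ℕ → ℤ → ℝ) (Φ : ℤ → ℝ) (G : Finset ℕ → ℝ) (cm X : ℝ)
    (hcm : ∀ T, |c T| ≤ cm) (hcX : ∀ T ⊆ R, c T ≠ 0 → ((∏ p ∈ T, p : ℕ) : ℝ) ≤ X)
    (hG : ∀ S ⊆ R, S.Nonempty → ‖pr' A θ (fun m => (∏ p ∈ S, y p m) * Φ m)‖ ≤ G S) :
    ‖pr' A θ (fun m => (VV R c (fun p => y p m + g p) - VV R c g) * Φ m)‖ ≤
      cm * (∏ p ∈ R, (1 + g p)) * ∑ S ∈ R.powerset,
        (if S.Nonempty ∧ ((∏ p ∈ S, p : ℕ) : ℝ) ≤ X then G S else 0) := by
  have hcm0 : 0 ≤ cm := (abs_nonneg _).trans (hcm ∅)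
  obtain ⟨H, hH⟩ : ∃ H : Finset ℕ → ℝ, H = fun S =>
    if S.Nonempty ∧ ((∏ p ∈ S, p : ℕ) : ℝ) ≤ X then G S else 0 := ⟨_, rfl⟩
  have hH0 : ∀ S ⊆ R, 0 ≤ H S := by
    intro S hS
    rw [hH]
    simp only
    split_ifs with h
    · exact (norm_nonneg _).trans (hG S hS h.1)
    · exact le_refl _
  have e1 : pr' A θ (fun m => (VV R c (fun p => y p m + g p) - VV R c g) * Φ m) =
      ∑ T ∈ R.powerset, ∑ S ∈ T.powerset.erase ∅, ((c T * (∏ p ∈ T \ S, g p) : ℝ) : ℂ) *
        pr' A θ (fun m => (∏ p ∈ S, y p m) * Φ m) := by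
    have e2 : ∀ m : ℤ, (VV R c (fun p => y p m + g p) - VV R c g) * Φ m = ∑ T ∈ R.powerset,
        ∑ S ∈ T.powerset.erase ∅, (c T * (∏ p ∈ T \ S, g p)) * ((∏ p ∈ S, y p m) * Φ m) := by
      intro m
      rw [VV_expand, sum_mul]
      apply sum_congr rfl
      intro T _
      rw [sum_mul]
      apply sum_congr rfl
      intro S _
      ring
    rw [pr'_congr A θ e2, pr'_sum]
    apply sum_congr rfl
    intro T _
    rw [pr'_sum]
    apply sum_congr rfl
    intro S _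
    rw [pr'_smul]
  rw [e1]
  refine (norm_sum_le _ _).trans ?_
  have e3 : ∀ T ∈ R.powerset, ‖∑ S ∈ T.powerset.erase ∅, ((c T * (∏ p ∈ T \ S, g p) : ℝ) : ℂ) *
        pr' A θ (fun m => (∏ p ∈ S, y p m) * Φ m)‖ ≤
      ∑ S ∈ T.powerset, (fun S W : Finset ℕ => cm * H S * ∏ p ∈ W, g p) S (T \ S) := by
    intro T hT
    rw [mem_powerset] at hT
    have hpos : ∀ S ⊆ T, 0 ≤ ∏ p ∈ T \ S, g p := fun S _ =>
      prod_nonneg fun p hp => hg p (hT (mem_sdiff.1 hp).1)
    refine (norm_sum_le _ _).trans ?_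
    refine le_trans ?_ (sum_le_sum_of_subset_of_nonneg (erase_subset ∅ _) (fun S hS _ => ?_))
    · apply sum_le_sum
      intro S hS
      rw [mem_erase, mem_powerset] at hS
      have hSn : S.Nonempty := nonempty_iff_ne_empty.2 hS.1
      have hSR : S ⊆ R := hS.2.trans hT
      simp only
      rw [norm_mul, Complex.norm_real, Real.norm_eq_abs, abs_mul, abs_of_nonneg (hpos S hS.2)]
      by_cases hc : c T = 0
      · rw [hc, abs_zero, zero_mul, zero_mul]
        exact mul_nonneg (mul_nonneg hcm0 (hH0 S hSR)) (hpos S hS.2)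
      · have h1 := hcX T hT hc
        have h2 : ((∏ p ∈ S, p : ℕ) : ℝ) ≤ X := by
          refine le_trans ?_ h1
          have := prod_le_prod_of_subset_of_one_le' (f := fun q : ℕ => q) hS.2
            (fun q hq _ => (hR q (hT hq)).one_le)
          exact_mod_cast this
        have h3 : H S = G S := by
          rw [hH]
          simp only
          rw [if_pos ⟨hSn, h2⟩]
        rw [h3]
        have h4 := hG S hSR hSn
        have h5 : 0 ≤ G S := (norm_nonneg _).trans h4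
        calc |c T| * (∏ p ∈ T \ S, g p) * ‖pr' A θ (fun m => (∏ p ∈ S, y p m) * Φ m)‖ ≤
              cm * (∏ p ∈ T \ S, g p) * G S := by
              apply mul_le_mul _ h4 (norm_nonneg _) (mul_nonneg hcm0 (hpos S hS.2))
              exact mul_le_mul_of_nonneg_right (hcm T) (hpos S hS.2)
          _ = _ := by ring
    · rw [mem_powerset] at hS
      exact mul_nonneg (mul_nonneg hcm0 (hH0 S (hS.trans hT))) (hpos S hS)
  refine (sum_le_sum e3).trans ?_
  refine (le_of_eq (reidx R (fun S W : Finset ℕ => cm * H S * ∏ p ∈ W, g p))).trans ?_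
  have e4 : ∀ S ∈ R.powerset, ∑ W ∈ (R \ S).powerset, cm * H S * ∏ p ∈ W, g p ≤
      cm * (∏ p ∈ R, (1 + g p)) * H S := by
    intro S hS
    rw [mem_powerset] at hS
    rw [← mul_sum]
    have e5 : ∏ p ∈ R \ S, (g p + 1) = ∑ W ∈ (R \ S).powerset, ∏ p ∈ W, g p := by
      rw [prod_add]
      apply sum_congr rfl
      intro W _
      rw [prod_const_one, mul_one]
    rw [← e5]
    have e6 : ∏ p ∈ R \ S, (g p + 1) ≤ ∏ p ∈ R, (1 + g p) := by
      have e7 : ∏ p ∈ R \ S, (g p + 1) = ∏ p ∈ R \ S, (1 + g p) := prod_congr rfl fun p _ => by ring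
      rw [e7, ← prod_sdiff hS]
      apply le_mul_of_one_le_right
      · exact prod_nonneg fun p hp => by
          have := hg p (mem_sdiff.1 hp).1
          linarith
      · apply prod_ge1
        intro p hp
        have := hg p (hS hp)
        linarith
    calc cm * H S * ∏ p ∈ R \ S, (g p + 1) ≤ cm * H S * ∏ p ∈ R, (1 + g p) :=
          mul_le_mul_of_nonneg_left e6 (mul_nonneg hcm0 (hH0 S hS))
      _ = _ := by ring
  refine (sum_le_sum e4).trans (le_of_eq ?_)
  rw [← mul_sum, hH]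

/-- the sum of the energies -/
theorem en_sum (A : Finset ℤ) (N : ℕ) (hN : 1 ≤ N) (hA : ∀ a ∈ A, 1 ≤ a ∧ a ≤ N) (θ : ℝ) {D X z : ℝ} (hD : 1 ≤ D)
    (hX : 1 ≤ X) (hz : 1 ≤ z) (P R : Finset ℕ) (hP : ∀ p ∈ P, p.Prime) (hR : ∀ p ∈ R, p.Prime)
    (hPR : Disjoint R P) (hRz : ∀ p ∈ R, z ≤ (p : ℝ)) (C : ℕ) (hC : 1 ≤ C) (s0 : ℕ)
    (hs0 : ∀ S ⊆ R, ((∏ p ∈ S, p : ℕ) : ℝ) ≤ X → S.card ≤ s0) :
    ∑ S ∈ R.powerset, (if S.Nonempty ∧ ((∏ p ∈ S, p : ℕ) : ℝ) ≤ X then (C : ℝ) ^ S.card *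
        ∑ T ∈ P.powerset, (C : ℝ) ^ T.card * JJ D T * (Et A θ (∏ p ∈ S ∪ T, p) / (∏ p ∈ S ∪ T, p : ℕ)) else 0) ≤
      (C : ℝ) ^ s0 * (C : ℝ) ^ (C ^ 2) * (12 * N * A.card / Real.sqrt z + D ^ 2 *
        ((Nat.clog 2 ⌊X * D ^ 3⌋₊ + 1) * (48 * N * A.card * (1 / Real.sqrt N + (⌊X * D ^ 3⌋₊ : ℝ) / N)))) := by
  have hN0 : (0 : ℝ) < N := by exact_mod_cast hN
  have hD0 : 0 < D := by linarith
  have hz0 : 0 < z := by linarith
  have hC1 : (1 : ℝ) ≤ C := by exact_mod_cast hC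
  have hsN : 0 < Real.sqrt N := Real.sqrt_pos.2 hN0
  have hsz : 0 < Real.sqrt z := Real.sqrt_pos.2 hz0
  obtain ⟨D', hD'⟩ : ∃ D' : ℕ, D' = ⌊X * D ^ 3⌋₊ := ⟨_, rfl⟩
  rw [← hD']
  obtain ⟨φ, hφ⟩ : ∃ φ : ℕ → ℝ, φ = fun f : ℕ => (if (f : ℝ) ≤ Real.sqrt N then 1 / Real.sqrt z else D ^ 2 * (1 / (f : ℝ))) *
    Et A θ f := ⟨_, rfl⟩
  have hφ0 : ∀ f, 0 ≤ φ f := by
    intro f
    rw [hφ]
    simp only
    apply mul_nonneg _ (Et_nonneg _ _ _)
    split_ifs <;> positivity
  -- one pair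
  have hone : ∀ S ∈ R.powerset, (if S.Nonempty ∧ ((∏ p ∈ S, p : ℕ) : ℝ) ≤ X then (C : ℝ) ^ S.card *
        ∑ T ∈ P.powerset, (C : ℝ) ^ T.card * JJ D T * (Et A θ (∏ p ∈ S ∪ T, p) / (∏ p ∈ S ∪ T, p : ℕ)) else 0) ≤
      ∑ T ∈ P.powerset, (C : ℝ) ^ s0 * (C : ℝ) ^ (C ^ 2) *
        (if (∏ p ∈ S ∪ T, p) ≤ D' then φ (∏ p ∈ S ∪ T, p) else 0) := by
    intro S hS
    rw [mem_powerset] at hS
    have hpos : ∀ T ∈ P.powerset, 0 ≤ (C : ℝ) ^ s0 * (C : ℝ) ^ (C ^ 2) *
        (if (∏ p ∈ S ∪ T, p) ≤ D' then φ (∏ p ∈ S ∪ T, p) else 0) := by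
      intro T _
      apply mul_nonneg (by positivity)
      split_ifs
      · exact hφ0 _
      · exact le_refl _
    by_cases hc : S.Nonempty ∧ ((∏ p ∈ S, p : ℕ) : ℝ) ≤ X
    · rw [if_pos hc, mul_sum]
      apply sum_le_sum
      intro T hT
      have hposT := hpos T hT
      rw [mem_powerset] at hT
      have hSp : ∀ p ∈ S, p.Prime := fun p hp => hR p (hS hp)
      have hTp : ∀ p ∈ T, p.Prime := fun p hp => hP p (hT hp)
      by_cases hJ : ((∏ p ∈ T, p : ℕ) : ℝ) ≤ D ^ 3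
      · have hdis : Disjoint S T := by
          rw [disjoint_left] at hPR ⊢
          exact fun p hp hp' => hPR (hS hp) (hT hp')
        have hf : ∏ p ∈ S ∪ T, p = (∏ p ∈ S, p) * ∏ p ∈ T, p := prod_union hdis
        have hs1 : (1 : ℝ) ≤ ((∏ p ∈ S, p : ℕ) : ℝ) := by exact_mod_cast prod_ge_one S hSp
        have ht1 : (1 : ℝ) ≤ ((∏ p ∈ T, p : ℕ) : ℝ) := by exact_mod_cast prod_ge_one T hTp
        have hfD : ∏ p ∈ S ∪ T, p ≤ D' := by
          rw [hD', hf]
          apply Nat.le_floor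
          push_cast
          push_cast at hc hJ
          exact mul_le_mul hc.2 hJ (by positivity) (by linarith)
        rw [if_pos hfD]
        have hJ1 : JJ D T = 1 := by
          unfold JJ
          rw [if_pos hJ]
        rw [hJ1, mul_one]
        obtain ⟨s, hs⟩ : ∃ s : ℝ, s = ((∏ p ∈ S, p : ℕ) : ℝ) := ⟨_, rfl⟩
        obtain ⟨t, ht⟩ : ∃ t : ℝ, t = ((∏ p ∈ T, p : ℕ) : ℝ) := ⟨_, rfl⟩
        have hfr : ((∏ p ∈ S ∪ T, p : ℕ) : ℝ) = s * t := by
          rw [hf, hs, ht]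
          push_cast
          rfl
        rw [← hs] at hs1
        rw [← ht] at ht1 hJ
        have hs0' : 0 < s := by linarith
        have ht0 : 0 < t := by linarith
        have hsz' : z ≤ s := by
          obtain ⟨p, hp⟩ := hc.1
          have h1 : (p : ℝ) ≤ s := by
            rw [hs]
            have := Nat.le_of_dvd (prod_ge_one S hSp) (dvd_prod_of_mem (fun p : ℕ => p) hp)
            exact_mod_cast this
          exact (hRz p (hS hp)).trans h1
        have h1 : (C : ℝ) ^ S.card ≤ (C : ℝ) ^ s0 := pow_le_pow_right₀ hC1 (hs0 S hS hc.2)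
        have h2 := pow_card_le C hC T hTp
        rw [← ht] at h2
        have hst : 0 < Real.sqrt t := Real.sqrt_pos.2 ht0
        have htt : Real.sqrt t * Real.sqrt t = t := Real.mul_self_sqrt ht0.le
        -- the weight
        have h3 : Real.sqrt t * (1 / (s * t)) ≤
            (if (((∏ p ∈ S ∪ T, p : ℕ) : ℕ) : ℝ) ≤ Real.sqrt N then 1 / Real.sqrt z else
              D ^ 2 * (1 / ((∏ p ∈ S ∪ T, p : ℕ) : ℝ))) := by
          rw [hfr]
          split_ifs
          · rw [mul_one_div, div_le_div_iff₀ (by positivity) hsz, one_mul]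
            have e1 : Real.sqrt z ≤ s := by
              calc Real.sqrt z ≤ z := by
                    rw [Real.sqrt_le_left hz0.le]
                    nlinarith
                _ ≤ s := hsz'
            have e2 : Real.sqrt t ≤ t := by
              rw [Real.sqrt_le_left ht0.le]
              nlinarith
            calc Real.sqrt t * Real.sqrt z ≤ t * s := mul_le_mul e2 e1 hsz.le ht0.le
              _ = s * t := by ring
          · apply mul_le_mul_of_nonneg_right _ (by positivity)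
            have e1 : t ≤ D ^ 4 := by
              refine hJ.trans ?_
              exact pow_le_pow_right₀ hD (by norm_num)
            calc Real.sqrt t ≤ Real.sqrt (D ^ 4) := Real.sqrt_le_sqrt e1
              _ = D ^ 2 := by
                  rw [show D ^ 4 = (D ^ 2) ^ 2 by ring, Real.sqrt_sq (by positivity)]
        have hE := Et_nonneg A θ (∏ p ∈ S ∪ T, p)
        calc (C : ℝ) ^ S.card * ((C : ℝ) ^ T.card * (Et A θ (∏ p ∈ S ∪ T, p) / ((∏ p ∈ S ∪ T, p : ℕ) : ℝ))) =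
              ((C : ℝ) ^ S.card * (C : ℝ) ^ T.card) * (1 / (s * t)) * Et A θ (∏ p ∈ S ∪ T, p) := by
              rw [hfr]
              ring
          _ ≤ ((C : ℝ) ^ s0 * ((C : ℝ) ^ (C ^ 2) * Real.sqrt t)) * (1 / (s * t)) * Et A θ (∏ p ∈ S ∪ T, p) := by
              apply mul_le_mul_of_nonneg_right _ hE
              apply mul_le_mul_of_nonneg_right _ (by positivity)
              exact mul_le_mul h1 h2 (by positivity) (by positivity)
          _ = (C : ℝ) ^ s0 * (C : ℝ) ^ (C ^ 2) * ((Real.sqrt t * (1 / (s * t))) * Et A θ (∏ p ∈ S ∪ T, p)) := by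
              ring
          _ ≤ (C : ℝ) ^ s0 * (C : ℝ) ^ (C ^ 2) * φ (∏ p ∈ S ∪ T, p) := by
              apply mul_le_mul_of_nonneg_left _ (by positivity)
              rw [hφ]
              exact mul_le_mul_of_nonneg_right h3 hE
      · have hJ0 : JJ D T = 0 := by
          unfold JJ
          rw [if_neg hJ]
        rw [hJ0, mul_zero, zero_mul, mul_zero]
        exact hposT
    · rw [if_neg hc]
      exact sum_nonneg hpos
  refine (sum_le_sum hone).trans ?_
  rw [sum_congr rfl (fun S _ => (mul_sum P.powerset _ _).symm), ← mul_sum]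
  apply mul_le_mul_of_nonneg_left _ (by positivity)
  -- injectivity
  have hinj : ∑ S ∈ R.powerset, ∑ T ∈ P.powerset, (if (∏ p ∈ S ∪ T, p) ≤ D' then φ (∏ p ∈ S ∪ T, p) else 0) ≤
      ∑ f ∈ Icc 1 D', φ f := by
    rw [← sum_product', ← sum_filter]
    have hi : Set.InjOn (fun y : Finset ℕ × Finset ℕ => ∏ p ∈ y.1 ∪ y.2, p)
        ((R.powerset ×ˢ P.powerset).filter (fun y => (∏ p ∈ y.1 ∪ y.2, p) ≤ D')) := by
      intro y hy y' hy' h
      rw [coe_filter, Set.mem_setOf_eq, mem_product, mem_powerset, mem_powerset] at hy hy'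
      have hRP : ∀ p ∈ R ∪ P, p.Prime := by
        intro p hp
        rcases mem_union.1 hp with h | h
        · exact hR p h
        · exact hP p h
      have h1 : y.1 ∪ y.2 = y'.1 ∪ y'.2 := by
        apply prod_inj (R ∪ P) hRP
        · rw [coe_powerset, Set.mem_preimage, Set.mem_powerset_iff]
          exact_mod_cast union_subset_union hy.1.1 hy.1.2
        · rw [coe_powerset, Set.mem_preimage, Set.mem_powerset_iff]
          exact_mod_cast union_subset_union hy'.1.1 hy'.1.2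
        · exact h
      have h2 : ∀ u v u' v' : Finset ℕ, u ⊆ R → v ⊆ P → u' ⊆ R → v' ⊆ P → u ∪ v = u' ∪ v' → u ⊆ u' ∧ v ⊆ v' := by
        intro u v u' v' hu hv hu' hv' he
        constructor
        · intro p hp
          have : p ∈ u' ∪ v' := by rw [← he]; exact mem_union_left _ hp
          rcases mem_union.1 this with h | h
          · exact h
          · exact absurd (hv' h) (disjoint_left.1 hPR (hu hp))
        · intro p hp
          have : p ∈ u' ∪ v' := by rw [← he]; exact mem_union_right _ hp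
          rcases mem_union.1 this with h | h
          · exact absurd (hv hp) (disjoint_left.1 hPR (hu' h))
          · exact h
      have h3 := h2 _ _ _ _ hy.1.1 hy.1.2 hy'.1.1 hy'.1.2 h1
      have h4 := h2 _ _ _ _ hy'.1.1 hy'.1.2 hy.1.1 hy.1.2 h1.symm
      exact Prod.ext (Subset.antisymm h3.1 h4.1) (Subset.antisymm h3.2 h4.2)
    rw [← sum_image hi (f := φ)]
    apply sum_le_sum_of_subset_of_nonneg
    · intro f hf
      rw [mem_image] at hf
      obtain ⟨y, hy, rfl⟩ := hf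
      rw [mem_filter, mem_product, mem_powerset, mem_powerset] at hy
      rw [mem_Icc]
      refine ⟨prod_ge_one _ ?_, hy.2⟩
      intro p hp
      rcases mem_union.1 hp with h | h
      · exact hR p (hy.1.1 h)
      · exact hP p (hy.1.2 h)
    · intro f _ _
      exact hφ0 f
  refine hinj.trans ?_
  -- the two ranges
  rw [← sum_filter_add_sum_filter_not (Icc 1 D') (fun f : ℕ => (f : ℝ) ≤ Real.sqrt N)]
  apply add_le_add
  · have e1 : ∀ f ∈ (Icc 1 D').filter (fun f : ℕ => (f : ℝ) ≤ Real.sqrt N), φ f = 1 / Real.sqrt z * Et A θ f := by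
      intro f hf
      rw [hφ]
      simp only
      rw [if_pos (mem_filter.1 hf).2]
    rw [sum_congr rfl e1, ← mul_sum]
    have e2 : ∑ f ∈ (Icc 1 D').filter (fun f : ℕ => (f : ℝ) ≤ Real.sqrt N), Et A θ f ≤ 12 * N * A.card := by
      have e3 : ∑ f ∈ (Icc 1 D').filter (fun f : ℕ => (f : ℝ) ≤ Real.sqrt N), Et A θ f ≤
          ∑ f ∈ Icc 1 ⌊Real.sqrt N⌋₊, Et A θ f := by
        apply sum_le_sum_of_subset_of_nonneg
        · intro f hf
          rw [mem_filter, mem_Icc] at hf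
          rw [mem_Icc]
          exact ⟨hf.1.1, Nat.le_floor hf.2⟩
        · intro f _ _
          exact Et_nonneg _ _ _
      refine e3.trans ((LS_tw A N hA θ _).trans ?_)
      have e4 : ((⌊Real.sqrt N⌋₊ : ℕ) : ℝ) ^ 2 ≤ N := by
        calc ((⌊Real.sqrt N⌋₊ : ℕ) : ℝ) ^ 2 ≤ (Real.sqrt N) ^ 2 :=
              pow_le_pow_left₀ (Nat.cast_nonneg _) (Nat.floor_le hsN.le) 2
          _ = N := Real.sq_sqrt hN0.le
      have e5 : (6 : ℝ) * (N + ((⌊Real.sqrt N⌋₊ : ℕ) : ℝ) ^ 2) ≤ 12 * N := by linarith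
      exact mul_le_mul_of_nonneg_right e5 (Nat.cast_nonneg _)
    calc 1 / Real.sqrt z * ∑ f ∈ (Icc 1 D').filter (fun f : ℕ => (f : ℝ) ≤ Real.sqrt N), Et A θ f ≤
          1 / Real.sqrt z * (12 * N * A.card) := mul_le_mul_of_nonneg_left e2 (by positivity)
      _ = _ := by ring
  · have e1 : ∀ f ∈ (Icc 1 D').filter (fun f : ℕ => ¬ (f : ℝ) ≤ Real.sqrt N), φ f =
        D ^ 2 * ((f : ℝ) ^ (-(1 : ℝ)) * Et A θ f) := by
      intro f hf
      rw [hφ]
      simp only
      rw [if_neg (mem_filter.1 hf).2, Real.rpow_neg_one]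
      ring
    rw [sum_congr rfl e1, ← mul_sum]
    apply mul_le_mul_of_nonneg_left _ (by positivity)
    have e2 := Pool.Agent.H540.DS.dyadic (Et A θ) (Et_nonneg A θ) (6 * N * A.card) N 1 0 (Real.sqrt N) hN0
      (by positivity) (by norm_num) (by norm_num) (le_refl _) (by norm_num) hsN D' (by
        intro t _
        refine (LS_tw A N hA θ t).trans (le_of_eq ?_)
        rw [Real.rpow_zero, mul_one]
        field_simp)
    have e3 : (Icc 1 D').filter (fun f : ℕ => ¬ (f : ℝ) ≤ Real.sqrt N) =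
        (Icc 1 D').filter (fun f : ℕ => Real.sqrt N < (f : ℝ)) := by
      apply filter_congr
      intro f _
      exact not_le
    rw [e3]
    refine e2.trans (le_of_eq ?_)
    have e4 : (2 : ℝ) - (1 - 0) = 1 := by norm_num
    rw [e4, Real.rpow_one, sub_zero, Real.rpow_neg_one]
    ring

end Pool.Agent.H540.PS
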