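import Pool.Agent.H540.TE.LowM
import Pool.Agent.H540.DS.Num

/-! Pointwise facts. -/

set_option autoImplicit false

namespace Pool.Agent.H540.PS

open Finset

section

variable {K : ℕ} {X : ℕ → ℤ → Prop}

theorem uu_even (p : ℕ) (m : ℤ) : uu p (-m) = uu p m := by
  unfold uu
  simp only [dvd_neg]

theorem tt_even {p : ℕ} (h : Ev (X p) p K) (m : ℤ) : tt K X p (-m) = tt K X p m := by
  unfold tt
  rw [uu_even, xI_even h]

theorem Lam_even {D : ℝ} {P : Finset ℕ} (h : ∀ p ∈ P, Ev (X p) p K) (m : ℤ) :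
    Lam K X D P (-m) = Lam K X D P m := by
  unfold Lam
  apply sum_congr rfl
  intro U hU
  rw [mem_powerset] at hU
  congr 1
  exact prod_congr rfl fun p hp => tt_even (h p (hU hp)) m

theorem Lp_even {D : ℝ} {P : Finset ℕ} (h : ∀ p ∈ P, Ev (X p) p K) (p : ℕ) (m : ℤ) :
    Lp K X D P p (-m) = Lp K X D P p m := by
  unfold Lp
  apply sum_congr rfl
  intro U hU
  rw [mem_powerset] at hU
  congr 1
  exact prod_congr rfl fun q hq => tt_even (h q (mem_of_mem_erase (hU hq))) m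

theorem ffM_even {M D : ℝ} {P : Finset ℕ} (h : ∀ p ∈ P, Ev (X p) p K) (m : ℤ) :
    ffM M K X D P (-m) = ffM M K X D P m := by
  unfold ffM
  rw [Lam_even h]
  congr 2
  apply sum_congr rfl
  intro p hp
  rw [Lp_even h, xI_even (h p hp)]

/-- the part of the pair sum below the diagonal -/
noncomputable def hf (A : Finset ℤ) (f : ℤ → ℝ) : ℝ := ∑ a ∈ A, ∑ b ∈ A, (if 0 < a - b then f (a - b) else 0)

theorem half_even (A : Finset ℤ) (f : ℤ → ℝ) (h : ∀ m, f (-m) = f m) :
    pf A f = A.card * f 0 + 2 * hf A f := by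
  have h1 : hf A f = ∑ a ∈ A, ∑ b ∈ A, (if a - b < 0 then f (a - b) else 0) := by
    unfold hf
    rw [sum_comm]
    apply sum_congr rfl
    intro b _
    apply sum_congr rfl
    intro a _
    by_cases hc : 0 < a - b
    · rw [if_pos hc, if_pos (by linarith), ← h (a - b)]
      congr 1
      ring
    · rw [if_neg hc, if_neg (by linarith)]
  have h2 : ∑ a ∈ A, ∑ b ∈ A, (if a - b = 0 then f (a - b) else 0) = A.card * f 0 := by
    have e1 : ∀ a ∈ A, ∑ b ∈ A, (if a - b = 0 then f (a - b) else 0) = f 0 := by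
      intro a ha
      rw [sum_eq_single_of_mem a ha]
      · rw [if_pos (sub_self a), sub_self]
      · intro b _ hb
        rw [if_neg]
        intro hc
        exact hb (by linarith)
    rw [sum_congr rfl e1, sum_const, nsmul_eq_mul]
  have h3 : pf A f = ∑ a ∈ A, ∑ b ∈ A, (if a - b = 0 then f (a - b) else 0) + (hf A f +
      ∑ a ∈ A, ∑ b ∈ A, (if a - b < 0 then f (a - b) else 0)) := by
    unfold pf hf
    rw [← sum_add_distrib, ← sum_add_distrib]
    apply sum_congr rfl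
    intro a _
    rw [← sum_add_distrib, ← sum_add_distrib]
    apply sum_congr rfl
    intro b _
    rcases lt_trichotomy (a - b) 0 with hc | hc | hc
    · rw [if_neg hc.ne, if_neg (by linarith), if_pos hc]
      ring
    · rw [if_pos hc, if_neg (by linarith), if_neg (by linarith)]
      ring
    · rw [if_neg hc.ne', if_pos hc, if_neg (by linarith)]
      ring
  rw [h3, h2, ← h1]
  ring

theorem hf_add (A : Finset ℤ) (f g : ℤ → ℝ) : hf A (fun m => f m + g m) = hf A f + hf A g := by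
  unfold hf
  rw [← sum_add_distrib]
  apply sum_congr rfl
  intro a _
  rw [← sum_add_distrib]
  apply sum_congr rfl
  intro b _
  split_ifs <;> ring

theorem hf_smul (A : Finset ℤ) (c : ℝ) (f : ℤ → ℝ) : hf A (fun m => c * f m) = c * hf A f := by
  unfold hf
  rw [mul_sum]
  apply sum_congr rfl
  intro a _
  rw [mul_sum]
  apply sum_congr rfl
  intro b _
  split_ifs <;> ring

theorem hf_le (A : Finset ℤ) (f g : ℤ → ℝ) (h : ∀ a ∈ A, ∀ b ∈ A, 0 < a - b → f (a - b) ≤ g (a - b)) :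
    hf A f ≤ hf A g := by
  unfold hf
  apply sum_le_sum
  intro a ha
  apply sum_le_sum
  intro b hb
  split_ifs with hc
  · exact h a ha b hb hc
  · exact le_refl _

/-- the weights of the primes -/
noncomputable def SPm (K : ℕ) (X : ℕ → ℤ → Prop) (D : ℝ) (P : Finset ℕ) (m : ℤ) : ℝ :=
  ∑ p ∈ P, xI (X p) m * Lp K X D P p m ^ 2

theorem SPm_nonneg (D : ℝ) (P : Finset ℕ) (m : ℤ) : 0 ≤ SPm K X D P m :=
  sum_nonneg fun p _ => mul_nonneg (xI_nonneg _ m) (sq_nonneg _)

open Classical in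
/-- the pointwise upper bound -/
theorem w_point {D : ℝ} {P : Finset ℕ} (h : ∀ p ∈ P, Ev (X p) p K) (m : ℤ) (xl xu wb ind Mx : ℝ)
    (h1 : xl ≤ wb) (h2 : wb ≤ ind) (h3 : ind ≤ xu) (h4 : 0 ≤ ind) (h5 : ind ≤ 1) (hM : Lam K X D P m ^ 2 ≤ Mx) :
    xl * Lam K X D P m ^ 2 - xu * SPm K X D P m ≤ if 0 < wb ∧ ∀ p ∈ P, ¬ X p m then Mx else 0 := by
  have hL := sq_nonneg (Lam K X D P m)
  have hM0 : 0 ≤ Mx := hL.trans hM
  by_cases hX : ∀ p ∈ P, ¬ X p m
  · have hS : SPm K X D P m = 0 := by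
      unfold SPm
      apply sum_eq_zero
      intro p hp
      rcases xI_cases (X p) m with h6 | h6
      · exact absurd h6.1 (hX p hp)
      · rw [h6.2, zero_mul]
    rw [hS, mul_zero, sub_zero]
    by_cases hw : 0 < wb
    · rw [if_pos ⟨hw, hX⟩]
      have h6 : xl ≤ 1 := by linarith
      nlinarith
    · rw [if_neg (fun hc => hw hc.1)]
      push Not at hw
      exact mul_nonpos_of_nonpos_of_nonneg (by linarith) hL
  · rw [if_neg (fun hc => hX hc.2)]
    push Not at hX
    obtain ⟨p, hp, hpm⟩ := hX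
    have h6 : Lam K X D P m ^ 2 ≤ SPm K X D P m := by
      unfold SPm
      have h7 := single_le_sum (f := fun p => xI (X p) m * Lp K X D P p m ^ 2)
        (fun p _ => mul_nonneg (xI_nonneg _ m) (sq_nonneg _)) hp
      rcases xI_cases (X p) m with h8 | h8
      · rw [h8.2, one_mul, ← Lam_eq hp (h p hp) m hpm] at h7
        exact h7
      · exact absurd hpm h8.1
    have h7 : xl * Lam K X D P m ^ 2 ≤ ind * Lam K X D P m ^ 2 := mul_le_mul_of_nonneg_right (by linarith) hL
    have h8 : ind * Lam K X D P m ^ 2 ≤ xu * SPm K X D P m := mul_le_mul h3 h6 hL (by linarith)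
    linarith

end

/-- products over primes -/
theorem prod_up (C : ℕ) : ∃ c : ℝ, 0 < c ∧ ∀ (P : Finset ℕ) (x : ℝ), 2 ≤ x →
    (∀ p ∈ P, p.Prime ∧ (p : ℝ) ≤ x) → ∏ p ∈ P, (1 + (C : ℝ) / p) ≤ c * (3 * Real.log x) ^ (2 * C) := by
  obtain ⟨c, hc, HV⟩ := Pool.Agent.Y882.PX.V_low C
  refine ⟨(1 + C) ^ (C + 1) / c, by positivity, ?_⟩
  intro P x hx hP
  obtain ⟨J, hJ1, hJ2⟩ := Pool.Agent.H540.DS.exJ2 x hx
  have hl : 0 < Real.log x := Real.log_pos (by linarith)
  have hC0 : (0 : ℝ) ≤ C := Nat.cast_nonneg C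
  rw [← prod_filter_mul_prod_filter_not P (fun p => p ≤ C)]
  have h1 : ∏ p ∈ P.filter (fun p => p ≤ C), (1 + (C : ℝ) / p) ≤ (1 + C) ^ (C + 1) := by
    have e1 : ∏ p ∈ P.filter (fun p => p ≤ C), (1 + (C : ℝ) / p) ≤ ∏ p ∈ P.filter (fun p => p ≤ C), (1 + (C : ℝ)) := by
      apply prod_le_prod
      · intro p _
        positivity
      · intro p hp
        have hp1 : (1 : ℝ) ≤ p := by exact_mod_cast (hP p (mem_filter.1 hp).1).1.one_le
        have : (C : ℝ) / p ≤ C := div_le_self hC0 hp1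
        linarith
    refine e1.trans ?_
    rw [prod_const]
    apply pow_le_pow_right₀ (by linarith)
    have e2 : P.filter (fun p => p ≤ C) ⊆ range (C + 1) := by
      intro p hp
      rw [mem_filter] at hp
      rw [mem_range]
      omega
    have e3 := card_le_card e2
    rw [card_range] at e3
    exact e3
  have h2 := HV J (P.filter (fun p => ¬ p ≤ C)) (fun _ => (C : ℝ)) (by
    intro p hp
    rw [mem_filter] at hp
    refine ⟨(hP p hp.1).1, ?_⟩
    have := (hP p hp.1).2.trans_lt hJ1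
    exact_mod_cast this) (fun _ _ => le_refl _) (by
    intro p hp
    rw [mem_filter] at hp
    have h5 : C + 1 ≤ p := by omega
    have h6 : (C : ℝ) + 1 ≤ p := by exact_mod_cast h5
    linarith)
  have h3 : c / (3 * Real.log x) ^ (2 * C) ≤ ∏ p ∈ P.filter (fun p => ¬ p ≤ C), (1 - (C : ℝ) / p) := by
    refine le_trans ?_ h2
    rw [one_div_pow, mul_one_div]
    exact div_le_div_of_nonneg_left hc.le (by positivity) (pow_le_pow_left₀ (by positivity) hJ2 _)
  have h4 : (∏ p ∈ P.filter (fun p => ¬ p ≤ C), (1 + (C : ℝ) / p)) *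
      ∏ p ∈ P.filter (fun p => ¬ p ≤ C), (1 - (C : ℝ) / p) ≤ 1 := by
    rw [← prod_mul_distrib]
    apply prod_le_one
    · intro p hp
      rw [mem_filter] at hp
      have hp0 : (0 : ℝ) < p := by exact_mod_cast (hP p hp.1).1.pos
      have h5 : (C : ℝ) ≤ p := by
        have : C ≤ p := by omega
        exact_mod_cast this
      have h6 : (C : ℝ) / p ≤ 1 := by
        rw [div_le_one hp0]
        exact h5
      have h7 : 0 ≤ (C : ℝ) / p := by positivity
      exact mul_nonneg (by linarith) (by linarith)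
    · intro p _
      nlinarith [sq_nonneg ((C : ℝ) / p)]
  have h5 : 0 < c / (3 * Real.log x) ^ (2 * C) := by positivity
  have h6 : 0 < ∏ p ∈ P.filter (fun p => ¬ p ≤ C), (1 - (C : ℝ) / p) := h5.trans_le h3
  have h7 : ∏ p ∈ P.filter (fun p => ¬ p ≤ C), (1 + (C : ℝ) / p) ≤ (3 * Real.log x) ^ (2 * C) / c := by
    calc ∏ p ∈ P.filter (fun p => ¬ p ≤ C), (1 + (C : ℝ) / p) ≤
          1 / ∏ p ∈ P.filter (fun p => ¬ p ≤ C), (1 - (C : ℝ) / p) := by rwa [le_div_iff₀ h6]
      _ ≤ 1 / (c / (3 * Real.log x) ^ (2 * C)) := one_div_le_one_div_of_le h5 h3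
      _ = _ := one_div_div _ _
  have h8 : 0 ≤ ∏ p ∈ P.filter (fun p => ¬ p ≤ C), (1 + (C : ℝ) / p) := prod_nonneg fun p _ => by positivity
  calc (∏ p ∈ P.filter (fun p => p ≤ C), (1 + (C : ℝ) / p)) *
        ∏ p ∈ P.filter (fun p => ¬ p ≤ C), (1 + (C : ℝ) / p) ≤
        (1 + C) ^ (C + 1) * ((3 * Real.log x) ^ (2 * C) / c) := mul_le_mul h1 h7 h8 (by positivity)
    _ = _ := by ring

end Pool.Agent.H540.PS
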