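import Pool.Agent.H540.TE.Err2
import Pool.Agent.H540.TE.Pt

/-! The error terms of the two parts. -/

set_option autoImplicit false

namespace Pool.Agent.H540.PS

open Finset
open Pool.Agent.Y882 (VV)

/-- the size of the error -/
noncomputable def Es (A : Finset ℤ) (N : ℕ) (D Y z : ℝ) (C s0 : ℕ) : ℝ :=
  (C : ℝ) ^ s0 * (C : ℝ) ^ (C ^ 2) * (12 * N * A.card / Real.sqrt z + D ^ 2 *
        ((Nat.clog 2 ⌊Y * D ^ 3⌋₊ + 1) * (48 * N * A.card * (1 / Real.sqrt N + (⌊Y * D ^ 3⌋₊ : ℝ) / N))))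

theorem Es_nonneg (A : Finset ℤ) (N : ℕ) (D Y z : ℝ) (C s0 : ℕ) : 0 ≤ Es A N D Y z C s0 := by
  unfold Es
  positivity

theorem err_one (A : Finset ℤ) (N : ℕ) (hN : 1 ≤ N) (hA : ∀ a ∈ A, 1 ≤ a ∧ a ≤ N) (θ : ℝ) {D Y z : ℝ} (hD : 1 ≤ D)
    (hY : 1 ≤ Y) (hz : 1 ≤ z) (P R : Finset ℕ) (hP : ∀ p ∈ P, p.Prime) (hR : ∀ p ∈ R, p.Prime)
    (hPR : Disjoint R P) (hRz : ∀ p ∈ R, z ≤ (p : ℝ)) (C : ℕ) (hC : 1 ≤ C) (s0 : ℕ)
    (hs0 : ∀ S ⊆ R, ((∏ p ∈ S, p : ℕ) : ℝ) ≤ Y → S.card ≤ s0) (U : ℕ → ℤ → Prop)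
    (hU : ∀ p ∈ R, ∀ m m' : ℤ, (p : ℤ) ∣ m - m' → (U p m ↔ U p m')) (hUC : ∀ p ∈ R, (RR (U p) p).card ≤ C)
    (c : Finset ℕ → ℝ) (cm : ℝ) (hcm : ∀ T, |c T| ≤ cm)
    (hcX : ∀ T ⊆ R, c T ≠ 0 → ((∏ p ∈ T, p : ℕ) : ℝ) ≤ Y) (Φ : ℤ → ℝ)
    (hΦ : ∀ S ⊆ R, ∀ (y : ℤ → ℝ) (c' : ℝ), 0 ≤ c' → DR y (fun m => c' * ∏ p ∈ S, vv p m) →
      ‖pr' A θ (fun m => y m * Φ m)‖ ≤ c' * ∑ Q ∈ P.powerset, (C : ℝ) ^ Q.card * JJ D Q * BB A θ S Q) :
    ‖pr' A θ (fun m => (VV R c (fun p => xI (U p) m) - VV R c (fun p => ((RR (U p) p).card : ℝ) / p)) * Φ m)‖ ≤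
      cm * (∏ p ∈ R, (1 + ((RR (U p) p).card : ℝ) / p)) * ((∏ p ∈ P, (1 + (C : ℝ) / p)) * Es A N D Y z C s0) := by
  have hcm0 : 0 ≤ cm := (abs_nonneg _).trans (hcm ∅)
  obtain ⟨Pi1, hPi⟩ : ∃ Pi1 : ℝ, Pi1 = ∏ p ∈ P, (1 + (C : ℝ) / p) := ⟨_, rfl⟩
  have hPi0 : 0 ≤ Pi1 := by
    rw [hPi]
    exact prod_nonneg fun p _ => by positivity
  obtain ⟨G, hG⟩ : ∃ G : Finset ℕ → ℝ, G = fun S => (C : ℝ) ^ S.card * (Pi1 * ∑ T ∈ P.powerset,
    (C : ℝ) ^ T.card * JJ D T * (Et A θ (∏ p ∈ S ∪ T, p) / (∏ p ∈ S ∪ T, p : ℕ))) := ⟨_, rfl⟩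
  have h1 := pr_expand A θ R hR c (fun p => ((RR (U p) p).card : ℝ) / p) (fun p _ => by positivity)
    (fun p m => yg (U p) p m) Φ G cm Y hcm hcX (by
      intro S hS _
      have hSp : ∀ p ∈ S, p.Prime := fun p hp => hR p (hS hp)
      have hdom : DR (fun m => ∏ p ∈ S, yg (U p) p m) (fun m => (C : ℝ) ^ S.card * ∏ p ∈ S, vv p m) := by
        refine (DR.prod S fun p hp => yg_dom (hU p (hS hp)) (hSp p hp).pos C (hUC p (hS hp))).congr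
          (fun m => rfl) (fun m => ?_)
        rw [prod_mul_distrib, prod_const]
      refine (hΦ S hS _ _ (by positivity) hdom).trans ?_
      rw [hG]
      simp only
      apply mul_le_mul_of_nonneg_left _ (by positivity)
      rw [hPi]
      have hSP : Disjoint S P := by
        rw [disjoint_left] at hPR ⊢
        exact fun p hp hp' => hPR (hS hp) hp'
      exact sum_BB A θ hP hSp hSP C (Nat.cast_nonneg C))
  have e1 : ∀ m : ℤ, (VV R c (fun p => xI (U p) m) - VV R c (fun p => ((RR (U p) p).card : ℝ) / p)) * Φ m =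
      (VV R c (fun p => yg (U p) p m + ((RR (U p) p).card : ℝ) / p) -
        VV R c (fun p => ((RR (U p) p).card : ℝ) / p)) * Φ m := by
    intro m
    congr 3
    funext p
    unfold yg
    ring
  rw [pr'_congr A θ e1]
  refine h1.trans ?_
  apply mul_le_mul_of_nonneg_left
  · have h2 := en_sum A N hN hA θ hD hY hz P R hP hR hPR hRz C hC s0 hs0
    rw [← hPi]
    unfold Es
    refine le_trans (le_of_eq ?_) (mul_le_mul_of_nonneg_left h2 hPi0)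
    rw [mul_sum]
    apply sum_congr rfl
    intro S _
    rw [hG]
    simp only
    split_ifs
    · ring
    · rw [mul_zero]
  · exact mul_nonneg hcm0 (prod_nonneg fun p _ => by positivity)

/-- **the total error** -/
theorem err_tot (A : Finset ℤ) (N : ℕ) (hN : 1 ≤ N) (hA : ∀ a ∈ A, 1 ≤ a ∧ a ≤ N) (θ : ℝ) {D Y z : ℝ} (hD : 1 < D)
    (hY : 1 ≤ Y) (hz : 1 ≤ z) (P R : Finset ℕ) (hP : ∀ p ∈ P, p.Prime) (hR : ∀ p ∈ R, p.Prime)
    (hPR : Disjoint R P) (hRz : ∀ p ∈ R, z ≤ (p : ℝ)) (K : ℕ) (X : ℕ → ℤ → Prop) (h : ∀ p ∈ P, Ev (X p) p K)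
    (hPD : ∀ p ∈ P, (p : ℝ) ≤ D) (C : ℕ) (hC : C = 8 * (K + 1) * (2 * K + 1) ^ 2) (s0 : ℕ)
    (hs0 : ∀ S ⊆ R, ((∏ p ∈ S, p : ℕ) : ℝ) ≤ Y → S.card ≤ s0) (U : ℕ → ℤ → Prop)
    (hU : ∀ p ∈ R, ∀ m m' : ℤ, (p : ℤ) ∣ m - m' → (U p m ↔ U p m')) (hUC : ∀ p ∈ R, (RR (U p) p).card ≤ C)
    (cL cU : Finset ℕ → ℝ) (cm : ℝ) (hcm : ∀ T, |cU T| ≤ cm ∧ |cL T| ≤ cm)
    (hcX : ∀ T ⊆ R, (cU T ≠ 0 ∨ cL T ≠ 0) → ((∏ p ∈ T, p : ℕ) : ℝ) ≤ Y) :
    ‖pr' A θ (fun m => (VV R cL (fun p => xI (U p) m) - VV R cL (fun p => ((RR (U p) p).card : ℝ) / p)) *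
        Lam K X D P m ^ 2 - (VV R cU (fun p => xI (U p) m) - VV R cU (fun p => ((RR (U p) p).card : ℝ) / p)) *
        SPm K X D P m)‖ ≤
      2 * (cm * (∏ p ∈ R, (1 + ((RR (U p) p).card : ℝ) / p)) *
        ((∏ p ∈ P, (1 + (C : ℝ) / p)) * Es A N D Y z C s0)) := by
  have hC1 : 1 ≤ C := by
    rw [hC]
    have : 0 < 8 * (K + 1) * (2 * K + 1) ^ 2 := by positivity
    omega
  have hK0 : (0 : ℝ) ≤ K := Nat.cast_nonneg K
  have hCr : (C : ℝ) = 8 * (K + 1) * (2 * K + 1) ^ 2 := by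
    rw [hC]
    push_cast
    ring
  have hC4 : (4 * (2 * K + 1) ^ 2 : ℝ) ≤ C := by
    rw [hCr]
    have h1 : (0 : ℝ) < (2 * K + 1) ^ 2 := by positivity
    nlinarith
  have hL := err_one A N hN hA θ hD.le hY hz P R hP hR hPR hRz C hC1 s0 hs0 U hU hUC cL cm (fun T => (hcm T).2)
    (fun T hT hc => hcX T hT (Or.inr hc)) (fun m => Lam K X D P m ^ 2) (by
      intro S hS y c' hc' hy
      refine (bound1 A θ hD h hP (fun p hp => hR p (hS hp)) y c' hc' hy).trans ?_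
      apply mul_le_mul_of_nonneg_left _ hc'
      apply sum_le_sum
      intro Q hQ
      rw [mem_powerset] at hQ
      apply mul_le_mul_of_nonneg_right _ (BB_nonneg A θ (fun p hp => hR p (hS hp)) fun p hp => hP p (hQ hp))
      exact mul_le_mul_of_nonneg_right (pow_le_pow_left₀ (by positivity) hC4 _) (JJ_nonneg _ _))
  have hS := err_one A N hN hA θ hD.le hY hz P R hP hR hPR hRz C hC1 s0 hs0 U hU hUC cU cm (fun T => (hcm T).1)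
    (fun T hT hc => hcX T hT (Or.inl hc)) (fun m => SPm K X D P m) (by
      intro S hS y c' hc' hy
      have h1 := bound2 A θ hD h hP hPD (fun p hp => hR p (hS hp)) y c' hc' hy
      rw [← hCr] at h1
      exact h1)
  have e1 : pr' A θ (fun m => (VV R cL (fun p => xI (U p) m) - VV R cL (fun p => ((RR (U p) p).card : ℝ) / p)) *
        Lam K X D P m ^ 2 - (VV R cU (fun p => xI (U p) m) - VV R cU (fun p => ((RR (U p) p).card : ℝ) / p)) *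
        SPm K X D P m) = pr' A θ (fun m => (VV R cL (fun p => xI (U p) m) -
        VV R cL (fun p => ((RR (U p) p).card : ℝ) / p)) * Lam K X D P m ^ 2) +
        ((-1 : ℝ) : ℂ) * pr' A θ (fun m => (VV R cU (fun p => xI (U p) m) -
        VV R cU (fun p => ((RR (U p) p).card : ℝ) / p)) * SPm K X D P m) := by
    rw [← pr'_smul, ← pr'_add]
    apply pr'_congr
    intro m
    ring
  rw [e1]
  refine (norm_add_le _ _).trans ?_
  rw [norm_mul]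
  have e2 : ‖((-1 : ℝ) : ℂ)‖ = 1 := by simp
  rw [e2, one_mul]
  linarith

end Pool.Agent.H540.PS
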