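import Pool.Agent.H540.TE.Pol

/-! The general theorems. -/

set_option autoImplicit false

namespace Pool.Agent.H540.PS

open Finset Filter Polynomial
open Pool.Agent.Y882 (VV PZ tt_lt)
open Pool.Agent.Y882.KW (WW WB)
open Pool.Agent.W23.DC (pr Mer)

open Classical in
/-- **The sieve with almost primes.** -/
theorem genM (K0 r : ℕ) (γ δ β : ℝ) (hβ : 0 < β) (hr : 9 / 8 + γ / (24 / 25 * (24 / 25)) ≤ r + 1) (hδ : 0 < δ) :
    ∃ (c ε₁ η : ℝ) (N0 : ℕ), 0 < c ∧ c ≤ δ ∧ c < ε₁ ∧ 0 < ε₁ ∧ ε₁ ≤ β ∧ 0 < η ∧ ∀ N : ℕ, N0 ≤ N →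
      ∀ (X Z : ℕ → ℤ → Prop) (B : Finset ℤ) (nn : ℤ → ℕ),
      (∀ p : ℕ, p.Prime → (p : ℝ) < (N : ℝ) ^ (24 / 25 * (24 / 25) : ℝ) →
        (∀ m m' : ℤ, (p : ℤ) ∣ m - m' → (X p m ↔ X p m')) ∧ (RR (X p) p).card ≤ K0) →
      (∀ p : ℕ, p.Prime → (p : ℝ) < (N : ℝ) ^ ε₁ → ((∀ m m' : ℤ, (p : ℤ) ∣ m - m' → (Z p m ↔ Z p m')) ∧
        (RR (Z p) p).card ≤ K0) ∧ ¬ Z p 0 ∧ ∀ m, X p m → Z p m) →
      Mer (pr N ε₁ (24 / 25 * (24 / 25))) (Pool.Agent.W23.DC.tt N) (fun p => ((RR (X p) p).card : ℝ) / p)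
        ε₁ (24 / 25 * (24 / 25)) η →
      (∀ a ∈ B, ∀ b ∈ B, b < a → ∀ p : ℕ, p.Prime → (p : ℝ) < (N : ℝ) ^ (24 / 25 * (24 / 25) : ℝ) →
        (p ∣ nn (a - b) ↔ X p (a - b))) →
      (∀ a ∈ B, 1 ≤ a ∧ a ≤ N) → (N : ℝ) ^ (1 - c) ≤ B.card →
      (∀ a ∈ B, ∀ b ∈ B, b < a → ((nn (a - b) : ℕ) : ℝ) ≤ (N : ℝ) ^ γ) →
      (((Icc 1 N).filter (fun m : ℕ => ∃ q ∈ pr N (6 / 25) (24 / 25 * (24 / 25)), q ^ 2 ∣ nn m)).card : ℝ) ≤
        (N : ℝ) ^ (0.95 : ℝ) →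
      (N : ℝ) ^ (2 - δ) ≤ (((B ×ˢ B).filter (fun z : ℤ × ℤ => z.2 < z.1 ∧
        (AP r ((N : ℝ) ^ (6 / 25 : ℝ)) (nn (z.1 - z.2)) ∧
        ∀ p : ℕ, p.Prime → (p : ℝ) < (N : ℝ) ^ ε₁ → ¬ Z p (z.1 - z.2)))).card : ℝ) := by
  obtain ⟨τ, hτ⟩ : ∃ τ : ℝ, τ = 24 / 25 := ⟨_, rfl⟩
  obtain ⟨ζ, hζ⟩ : ∃ ζ : ℝ, ζ = τ / 4 := ⟨_, rfl⟩
  obtain ⟨υ, hυ⟩ : ∃ υ : ℝ, υ = 24 / 25 * τ := ⟨_, rfl⟩
  obtain ⟨lam, hlam⟩ : ∃ lam : ℝ, lam = 8 / 9 := ⟨_, rfl⟩
  have hJ0 := Pool.Agent.Y882.KW.cond_A τ lam (by rw [hτ]; norm_num) (by rw [hlam]; norm_num)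
    (by rw [hlam]; norm_num)
  rw [← hζ, ← hυ] at hJ0
  have hζ' : ζ = 6 / 25 := by rw [hζ, hτ]; norm_num
  have hυ' : υ = 24 / 25 * (24 / 25) := by rw [hυ, hτ]
  have hυ0 : 0 < υ := by rw [hυ']; norm_num
  have hυ1 : υ ≤ 1 := by rw [hυ']; norm_num
  rw [← hυ', ← hζ']
  obtain ⟨δ1, hδ1⟩ : ∃ δ1 : ℝ, δ1 = min δ (1 / 50) / 2 := ⟨_, rfl⟩
  have hδ10 : 0 < δ1 := by
    rw [hδ1]
    have := lt_min hδ (show (0 : ℝ) < 1 / 50 by norm_num)
    linarith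
  have hδ1a : 2 * δ1 ≤ δ := by
    rw [hδ1]
    have := min_le_left δ (1 / 50)
    linarith
  have hδ1b : δ1 ≤ 1 / 100 := by
    rw [hδ1]
    have := min_le_right δ (1 / 50)
    linarith
  obtain ⟨c1, ε₁, η, N0, hc1, hc1δ, hc1ε, hε0, hεζ, hεβ, hη, HC⟩ := coreT K0 τ ζ υ lam (lam / υ) δ1 β
    hβ (by rw [hζ']; norm_num) (by rw [hζ', hτ]; norm_num) (by rw [hζ', hτ]; norm_num) (by rw [hτ])
    (by rw [hζ', hυ']; norm_num) (by rw [hυ', hτ]; norm_num) (by rw [hlam]; norm_num)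
    (by rw [hlam, hυ']; norm_num) (by rw [div_mul_cancel₀ _ hυ0.ne']) hJ0 hδ10 hδ1b
  have v2 : ∀ (x : ℝ) (κ : ℝ), 0 < κ → ∀ᶠ N : ℕ in atTop, x ≤ (N : ℝ) ^ κ := fun x κ hκ =>
    (tpow hκ).eventually_ge_atTop _
  obtain ⟨N1, HN1⟩ := eventually_atTop.1 ((v2 2 δ1 hδ10).and ((v2 3 (1 / 100) (by norm_num)).and
    (eventually_ge_atTop 3)))
  refine ⟨c1, ε₁, η, max N0 N1, hc1, by linarith, hc1ε, hε0, hεβ, hη, ?_⟩
  intro N hN X Z B nn hX hZ hMer hnn hB hBc hsize hbad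
  have hNN0 : N0 ≤ N := (le_max_left _ _).trans hN
  obtain ⟨k10, k7, k1⟩ := HN1 N ((le_max_right _ _).trans hN)
  have hN3 : (3 : ℝ) ≤ N := by exact_mod_cast k1
  have hNp : (0 : ℝ) < N := by linarith
  have hN1 : (1 : ℝ) ≤ N := by linarith
  have hpow : ∀ a b : ℝ, a ≤ b → (N : ℝ) ^ a ≤ (N : ℝ) ^ b := fun a b h =>
    Real.rpow_le_rpow_of_exponent_le hN1 h
  have hN1' : (N : ℝ) = (N : ℝ) ^ (1 : ℝ) := (Real.rpow_one _).symm
  have hmain := HC N hNN0 X Z B nn hX hZ hMer hnn hB hBc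
  obtain ⟨Zg, hZg⟩ : ∃ Zg : Finset (ℤ × ℤ), Zg = (B ×ˢ B).filter (fun z : ℤ × ℤ => z.2 < z.1 ∧
    (0 < WW N ζ υ lam (lam / υ) (nn (z.1 - z.2)) ∧
    ∀ p : ℕ, p.Prime → (p : ℝ) < (N : ℝ) ^ ε₁ → ¬ Z p (z.1 - z.2))) := ⟨_, rfl⟩
  obtain ⟨Zb, hZb⟩ : ∃ Zb : Finset (ℤ × ℤ), Zb = (B ×ˢ B).filter (fun z : ℤ × ℤ => z.2 < z.1 ∧
      ∃ q ∈ pr N ζ υ, q ^ 2 ∣ nn (z.1 - z.2)) := ⟨_, rfl⟩
  rw [← hZg] at hmain
  have hB2N : (B.card : ℝ) ≤ N := by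
    have h1 : B.card ≤ (Icc (1 : ℤ) N).card := card_le_card (fun a ha => by
      rw [mem_Icc]
      exact hB a ha)
    rw [Int.card_Icc] at h1
    have h2 : ((N : ℤ) + 1 - 1).toNat = N := by omega
    rw [h2] at h1
    exact_mod_cast h1
  have hbadc : Zb.card ≤ ((Icc 1 N).filter (fun m : ℕ => ∃ q ∈ pr N ζ υ, q ^ 2 ∣ nn m)).card * B.card := by
    rw [← card_product, hZb]
    apply card_le_card_of_injOn (fun z : ℤ × ℤ => ((z.1 - z.2).toNat, z.2))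
    · rintro ⟨x, y⟩ hz
      rw [mem_coe, mem_filter, mem_product] at hz
      obtain ⟨⟨hx, hy⟩, hlt, q, hq, hqd⟩ := hz
      simp only at hx hy hlt hqd
      rw [mem_coe, mem_product, mem_filter, mem_Icc]
      have h4 := hB x hx
      have h4' := hB y hy
      have h5 : (((x - y).toNat : ℕ) : ℤ) = x - y := Int.toNat_of_nonneg (by omega)
      simp only
      refine ⟨⟨⟨by omega, by omega⟩, q, hq, ?_⟩, hy⟩
      rw [h5]
      exact hqd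
    · rintro ⟨x, y⟩ hz ⟨x', y'⟩ hz' heq
      rw [mem_coe, mem_filter, mem_product] at hz hz'
      simp only [Prod.mk.injEq] at heq
      have h1 := hz.2.1
      have h2 := hz'.2.1
      simp only at h1 h2
      rw [Prod.mk.injEq]
      omega
  have hZbc : (Zb.card : ℝ) ≤ (N : ℝ) ^ (1.95 : ℝ) := by
    have h0 : (Zb.card : ℝ) ≤ ((((Icc 1 N).filter (fun m : ℕ => ∃ q ∈ pr N ζ υ,
        q ^ 2 ∣ nn m)).card : ℕ) : ℝ) * (B.card : ℝ) := by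
      rw [← Nat.cast_mul]
      exact Nat.cast_le.2 hbadc
    refine h0.trans ?_
    calc ((((Icc 1 N).filter (fun m : ℕ => ∃ q ∈ pr N ζ υ, q ^ 2 ∣ nn m)).card : ℕ) : ℝ) * (B.card : ℝ) ≤
          (N : ℝ) ^ (0.95 : ℝ) * N := mul_le_mul hbad hB2N (Nat.cast_nonneg _) (by positivity)
      _ = (N : ℝ) ^ (1.95 : ℝ) := by
          nth_rewrite 2 [hN1']
          rw [← Real.rpow_add hNp]
          norm_num
  have hdiff : (N : ℝ) ^ (2 - δ) ≤ ((Zg \ Zb).card : ℝ) := by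
    have h1 : (Zg.card : ℝ) ≤ ((Zg \ Zb).card : ℝ) + Zb.card := by
      have := card_le_card_sdiff_add_card (s := Zg) (t := Zb)
      exact_mod_cast this
    have h2 : (N : ℝ) ^ (1.95 : ℝ) ≤ (N : ℝ) ^ (2 - 2 * δ1) := hpow _ _ (by linarith)
    have h3 : 2 * (N : ℝ) ^ (2 - 2 * δ1) ≤ (N : ℝ) ^ (2 - δ1) := by
      calc 2 * (N : ℝ) ^ (2 - 2 * δ1) ≤ (N : ℝ) ^ δ1 * (N : ℝ) ^ (2 - 2 * δ1) :=
            mul_le_mul_of_nonneg_right k10 (by positivity)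
        _ = (N : ℝ) ^ (2 - δ1) := by
            rw [← Real.rpow_add hNp]
            congr 1
            ring
    have h4 : (N : ℝ) ^ (2 - δ) ≤ (N : ℝ) ^ (2 - 2 * δ1) := hpow _ _ (by linarith)
    linarith
  refine hdiff.trans (Nat.cast_le.2 (card_le_card ?_))
  rintro ⟨a, b⟩ hz
  rw [Finset.mem_sdiff, hZg, hZb, mem_filter, mem_filter, mem_product] at hz
  obtain ⟨⟨⟨ha, hb⟩, hlt, hW, hZp⟩, hnb⟩ := hz
  simp only at ha hb hlt hW hZp hnb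
  rw [mem_filter, mem_product]
  refine ⟨⟨ha, hb⟩, hlt, ?_, hZp⟩
  have hn0 : nn (a - b) ≠ 0 := by
    intro hn0
    rw [hn0] at hW
    unfold WW at hW
    have h2PZ : 2 ∈ PZ N ζ := by
      rw [mem_PZ']
      refine ⟨⟨by norm_num, by omega⟩, Nat.prime_two, (tt_lt N 2 ζ (by omega) (by norm_num)).2 ?_⟩
      have h5 : (N : ℝ) ^ (1 / 100 : ℝ) < (N : ℝ) ^ ζ :=
        Real.rpow_lt_rpow_of_exponent_lt (by linarith) (by rw [hζ']; norm_num)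
      push_cast
      linarith
    rw [if_neg (fun h => h 2 h2PZ (dvd_zero 2)), zero_mul] at hW
    exact lt_irrefl _ hW
  have hal := Pool.Agent.Y882.KW.almost N (by omega) ζ υ lam γ r
    (by rw [hζ', hυ']; norm_num) hυ0 hυ1 (by rw [hlam]; norm_num) (by
      rw [hlam, hυ']
      refine le_trans (le_of_eq ?_) hr
      norm_num) (nn (a - b)) hn0 (hsize a ha b hb hlt) hW (fun q hq hqn => hnb ⟨⟨ha, hb⟩, hlt, q, hq, hqn⟩)
  exact ⟨Nat.pos_of_ne_zero hn0, hal.1, hal.2⟩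

/-- numbers without small prime factors are almost primes -/
theorem AP_free (N n R : ℕ) (c S : ℝ) (hN : 1 < N) (hc : 0 < c) (h2 : (2 : ℝ) ≤ (N : ℝ) ^ c) (hR : S / c < R)
    (hn : (n : ℝ) ≤ (N : ℝ) ^ S) (hfree : ∀ p : ℕ, p.Prime → (p : ℝ) ≤ (N : ℝ) ^ c → ¬ p ∣ n) :
    AP R ((N : ℝ) ^ c) n := by
  have hNr : (1 : ℝ) < N := by exact_mod_cast hN
  have hN0 : (0 : ℝ) < N := by linarith
  have hn0 : n ≠ 0 := by
    rintro rfl
    exact hfree 2 Nat.prime_two (by exact_mod_cast h2) (dvd_zero 2)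
  have hpn : ∀ p : ℕ, p.Prime → p ∣ n → (N : ℝ) ^ c < p := by
    intro p hp hpd
    by_contra hcon
    push Not at hcon
    exact hfree p hp hcon hpd
  refine ⟨Nat.pos_of_ne_zero hn0, ?_, fun p hp hpd => (hpn p hp hpd).le⟩
  by_contra hcon
  push Not at hcon
  have h2' := pow_length_le ((N : ℝ) ^ c) (by positivity) n.primeFactorsList (fun p hp =>
    (hpn p (Nat.prime_of_mem_primeFactorsList hp) (Nat.dvd_of_mem_primeFactorsList hp)).le)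
  rw [Nat.prod_primeFactorsList hn0] at h2'
  have h3 : ((N : ℝ) ^ c) ^ (R : ℕ) ≤ ((N : ℝ) ^ c) ^ n.primeFactorsList.length :=
    pow_le_pow_right₀ (by linarith) hcon.le
  have h4 : (N : ℝ) ^ S < ((N : ℝ) ^ c) ^ (R : ℕ) := by
    rw [← Real.rpow_natCast, ← Real.rpow_mul hN0.le]
    apply Real.rpow_lt_rpow_of_exponent_lt hNr
    rw [div_lt_iff₀ hc] at hR
    linarith
  linarith

/-- translation of a periodic set -/
theorem rr_shift (Y : ℤ → Prop) (p : ℕ) (hp : 0 < p) (s : ℤ)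
    (h : ∀ m m' : ℤ, (p : ℤ) ∣ m - m' → (Y m ↔ Y m')) :
    (RR (fun m => Y (s + m)) p).card = (RR Y p).card := by
  have hpz : (0 : ℤ) < p := by exact_mod_cast hp
  have key : ∀ (Y : ℤ → Prop) (s : ℤ), (∀ m m' : ℤ, (p : ℤ) ∣ m - m' → (Y m ↔ Y m')) →
      (RR (fun m => Y (s + m)) p).card ≤ (RR Y p).card := by
    intro Y s h
    apply card_le_card_of_injOn (fun r : ℕ => ((s + r) % p).toNat)
    · intro r hr
      rw [mem_coe, mem_RR] at hr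
      rw [mem_coe, mem_RR]
      have h1 := Int.emod_lt_of_pos (s + r) hpz
      have h2 := Int.emod_nonneg (s + r) hpz.ne'
      show ((s + r) % (p : ℤ)).toNat < p ∧ Y ((((s + r) % (p : ℤ)).toNat : ℕ) : ℤ)
      refine ⟨by omega, ?_⟩
      rw [Int.toNat_of_nonneg h2]
      refine (h _ _ ?_).1 hr.2
      exact Int.dvd_self_sub_emod
    · intro r hr r' hr' he
      rw [mem_coe, mem_RR] at hr hr'
      simp only at he
      have h1 := Int.emod_nonneg (s + r) hpz.ne'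
      have h2 := Int.emod_nonneg (s + r') hpz.ne'
      have h3 : (s + r) % (p : ℤ) = (s + r') % p := by omega
      have h4 : (p : ℤ) ∣ (s + r') - (s + r) := Int.ModEq.dvd h3
      have h5 : (p : ℤ) ∣ (r' : ℤ) - r := by
        have e : (s + (r' : ℤ)) - (s + r) = r' - r := by ring
        rwa [e] at h4
      have h6 := Int.eq_zero_of_abs_lt_dvd h5 (by rw [abs_lt]; constructor <;> omega)
      omega
  apply le_antisymm (key Y s h)
  have h1 := key (fun m => Y (s + m)) (-s) (by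
    intro m m' hm
    apply h
    have e : s + m - (s + m') = m - m' := by ring
    rw [e]
    exact hm)
  have h2 : (fun m => (fun m => Y (s + m)) (-s + m)) = Y := by
    funext m
    simp only
    congr 1
    ring
  rw [h2] at h1
  exact h1

theorem eval_bound2 (F : ℤ[X]) (d : ℕ) (x : ℤ) (T M : ℝ) (hT : 1 ≤ T) (hM : 0 ≤ M) (hd : F.natDegree ≤ d)
    (hx : |(x : ℝ)| ≤ T) (hH : ∀ i, |(F.coeff i : ℝ)| ≤ M) :
    ((F.eval x).natAbs : ℝ) ≤ (d + 1) * (M * T ^ d) := by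
  rw [Nat.cast_natAbs, Int.cast_abs, eval_eq_sum_range' (Nat.lt_succ_of_le hd)]
  push_cast
  refine (abs_sum_le_sum_abs _ _).trans ?_
  have h1 : ∀ i ∈ range (d + 1), |(F.coeff i : ℝ) * (x : ℝ) ^ i| ≤ M * T ^ d := by
    intro i hi
    rw [mem_range] at hi
    rw [abs_mul, abs_pow]
    apply mul_le_mul (hH i) _ (by positivity) hM
    exact (pow_le_pow_left₀ (abs_nonneg _) hx i).trans (pow_le_pow_right₀ hT (by omega))
  refine (sum_le_sum h1).trans (le_of_eq ?_)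
  rw [sum_const, card_range, nsmul_eq_mul]
  push_cast
  ring

theorem card_ex (J : ℕ) (Y : ℕ → ℤ → Prop) (p d : ℕ) (h : ∀ i < J, (RR (Y i) p).card ≤ d) :
    (RR (fun m => ∃ i < J, Y i m) p).card ≤ J * d := by
  classical
  have h1 : RR (fun m => ∃ i < J, Y i m) p ⊆ (range J).biUnion (fun i => RR (Y i) p) := by
    intro r hr
    rw [mem_RR] at hr
    obtain ⟨hr1, i, hi, hi2⟩ := hr
    rw [mem_biUnion]
    exact ⟨i, mem_range.2 hi, (mem_RR _ _ _).2 ⟨hr1, hi2⟩⟩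
  refine (card_le_card h1).trans (card_biUnion_le.trans ?_)
  refine (sum_le_sum fun i hi => h i (mem_range.1 hi)).trans (le_of_eq ?_)
  rw [sum_const, card_range, smul_eq_mul]

theorem per_dvd (F : ℤ[X]) (p : ℕ) (s m m' : ℤ) (h : (p : ℤ) ∣ m - m') :
    ((p : ℤ) ∣ F.eval (s + m) ↔ (p : ℤ) ∣ F.eval (s + m')) := by
  have h1 : (p : ℤ) ∣ F.eval (s + m) - F.eval (s + m') := by
    refine dvd_trans ?_ (sub_dvd_eval_sub (s + m) (s + m') F)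
    have e : s + m - (s + m') = m - m' := by ring
    rw [e]
    exact h
  exact Int.dvd_iff_dvd_of_dvd_sub h1

theorem per_dvd0 (F : ℤ[X]) (p : ℕ) (m m' : ℤ) (h : (p : ℤ) ∣ m - m') :
    ((p : ℤ) ∣ F.eval m ↔ (p : ℤ) ∣ F.eval m') :=
  Int.dvd_iff_dvd_of_dvd_sub (h.trans (sub_dvd_eval_sub m m' F))

/-- the roots of a polynomial which has a value prime to `p` -/
theorem roots_le' (F : ℤ[X]) (d p : ℕ) (s : ℤ) (hp : p.Prime) (hd : F.natDegree ≤ d)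
    (h : ¬ (p : ℤ) ∣ F.eval s) : (RR (fun m => (p : ℤ) ∣ F.eval (s + m)) p).card ≤ d := by
  have h1 := roots_le (F.comp (X + C s)) d p hp (by
    rw [natDegree_comp, natDegree_X_add_C, mul_one]
    exact hd) (by
    rw [eval_comp, eval_add, eval_X, eval_C, zero_add]
    exact h)
  refine le_trans (card_le_card ?_) h1
  intro r hr
  rw [mem_RR] at hr ⊢
  refine ⟨hr.1, ?_⟩
  rw [eval_comp, eval_add, eval_X, eval_C, add_comm]
  exact hr.2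

open Classical in
/-- **The general theorem** for the values of polynomials at translates of differences. -/
theorem genS (K0 d J r : ℕ) (E Hh γ κ δ : ℝ) (hE : 0 ≤ E) (hH : 0 ≤ Hh) (hκ : 0 < κ) (hδ : 0 < δ)
    (hr : 9 / 8 + γ / (24 / 25 * (24 / 25)) ≤ r + 1) :
    ∃ (c ε₁ η : ℝ) (R N0 : ℕ), 0 < c ∧ c ≤ δ ∧ 0 < ε₁ ∧ 0 < η ∧ ∀ N : ℕ, N0 ≤ N →
      ∀ (F : ℤ[X]) (s : ℤ) (G : ℕ → ℤ[X]) (A : Finset ℤ),
      (∀ p : ℕ, p.Prime → (RR (fun m => (p : ℤ) ∣ F.eval m) p).card ≤ K0) →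
      Mer (pr N ε₁ (24 / 25 * (24 / 25))) (Pool.Agent.W23.DC.tt N)
        (fun p => ((RR (fun m => (p : ℤ) ∣ F.eval m) p).card : ℝ) / p) ε₁ (24 / 25 * (24 / 25)) η →
      (∀ m : ℕ, 1 ≤ m → m ≤ N → ((F.eval (s + m)).natAbs : ℝ) ≤ (N : ℝ) ^ γ) →
      (((Icc 1 N).filter (fun m : ℕ => ∃ q ∈ pr N (6 / 25) (24 / 25 * (24 / 25)),
        ((q ^ 2 : ℕ) : ℤ) ∣ F.eval (s + m))).card : ℝ) ≤ (N : ℝ) ^ (0.95 : ℝ) →
      (∀ p : ℕ, p.Prime → (p : ℤ) ∣ F.eval s → (N : ℝ) ^ κ ≤ p) →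
      |(s : ℝ)| ≤ (N : ℝ) ^ E →
      (∀ i < J, (G i).natDegree ≤ d ∧ (∀ j, |((G i).coeff j : ℝ)| ≤ (N : ℝ) ^ Hh) ∧
        ∀ p : ℕ, p.Prime → (p : ℤ) ∣ (G i).eval s → (N : ℝ) ^ κ ≤ p) →
      (∀ a ∈ A, 1 ≤ a ∧ a ≤ N) → (N : ℝ) ^ (1 - c) ≤ A.card →
      (N : ℝ) ^ (2 - δ) ≤ (((A ×ˢ A).filter (fun z : ℤ × ℤ => z.2 < z.1 ∧
        AP r ((N : ℝ) ^ (6 / 25 : ℝ)) (F.eval (s + (z.1 - z.2))).natAbs ∧
        ∀ i < J, AP R ((N : ℝ) ^ c) ((G i).eval (s + (z.1 - z.2))).natAbs)).card : ℝ) := by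
  obtain ⟨c, ε₁, η, N1, hc, hcδ, hcε, hε, hεβ, hη, H⟩ := genM (K0 + J * d) r γ δ (κ / 2) (by linarith) hr hδ
  obtain ⟨S, hS⟩ : ∃ S : ℝ, S = 1 + Hh + (1 + (E + 1)) * d := ⟨_, rfl⟩
  obtain ⟨R, hR⟩ : ∃ R : ℕ, S / c < (R : ℝ) := exists_nat_gt _
  obtain ⟨N2, HN2⟩ := eventually_atTop.1 (((tpow (show (0 : ℝ) < 1 by norm_num)).eventually_ge_atTop ((d : ℝ) + 1)).and
    (((tpow hc).eventually_ge_atTop 2).and (eventually_ge_atTop 3)))
  refine ⟨c, ε₁, η, R, max N1 N2, hc, hcδ, hε, hη, ?_⟩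
  intro N hN F s G A hK hMer hsize hbad hFs hs hG hA hAc
  obtain ⟨e1, e2, e3⟩ := HN2 N ((le_max_right _ _).trans hN)
  have hNr : (3 : ℝ) ≤ N := by exact_mod_cast e3
  have hN0 : (0 : ℝ) < N := by linarith
  have hN1 : (1 : ℝ) ≤ N := by linarith
  have hpow : ∀ a b : ℝ, a ≤ b → (N : ℝ) ^ a ≤ (N : ℝ) ^ b := fun a b h =>
    Real.rpow_le_rpow_of_exponent_le hN1 h
  have hεκ : (N : ℝ) ^ ε₁ < (N : ℝ) ^ κ :=
    Real.rpow_lt_rpow_of_exponent_lt (by linarith) (by linarith)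
  have hsmall : ∀ p : ℕ, p.Prime → (p : ℝ) < (N : ℝ) ^ ε₁ → ¬ (p : ℤ) ∣ F.eval s ∧
      ∀ i < J, ¬ (p : ℤ) ∣ (G i).eval s := by
    intro p hp hpε
    refine ⟨fun h => ?_, fun i hi h => ?_⟩
    · have := hFs p hp h
      linarith
    · have := (hG i hi).2.2 p hp h
      linarith
  obtain ⟨Z, hZ⟩ : ∃ Z : ℕ → ℤ → Prop, Z = fun (p : ℕ) (m : ℤ) => (p : ℤ) ∣ F.eval (s + m) ∨
    ∃ i < J, (p : ℤ) ∣ (G i).eval (s + m) := ⟨_, rfl⟩
  have hcardF : ∀ p : ℕ, p.Prime → (RR (fun m => (p : ℤ) ∣ F.eval (s + m)) p).card =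
      (RR (fun m => (p : ℤ) ∣ F.eval m) p).card := fun p hp =>
    rr_shift (fun m => (p : ℤ) ∣ F.eval m) p hp.pos s (fun m m' h => per_dvd0 F p m m' h)
  have hmain := H N ((le_max_left _ _).trans hN) (fun p m => (p : ℤ) ∣ F.eval (s + m)) Z A
    (fun m => (F.eval (s + m)).natAbs)
    (fun p hp _ => ⟨fun m m' h => per_dvd F p s m m' h, by
      rw [hcardF p hp]
      exact (hK p hp).trans (Nat.le_add_right _ _)⟩) (by
      intro p hp hpε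
      obtain ⟨s1, s2⟩ := hsmall p hp hpε
      refine ⟨⟨?_, ?_⟩, ?_, ?_⟩
      · intro m m' h
        rw [hZ]
        simp only
        rw [per_dvd F p s m m' h]
        have h1 : (∃ i < J, (p : ℤ) ∣ (G i).eval (s + m)) ↔ (∃ i < J, (p : ℤ) ∣ (G i).eval (s + m')) := by
          constructor
          · rintro ⟨i, hi, h2⟩
            exact ⟨i, hi, (per_dvd (G i) p s m m' h).1 h2⟩
          · rintro ⟨i, hi, h2⟩
            exact ⟨i, hi, (per_dvd (G i) p s m m' h).2 h2⟩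
        rw [h1]
      · rw [hZ]
        refine (card_or _ _ p).trans (Nat.add_le_add ?_ ?_)
        · rw [hcardF p hp]
          exact hK p hp
        · exact card_ex J (fun i m => (p : ℤ) ∣ (G i).eval (s + m)) p d (fun i hi =>
            roots_le' (G i) d p s hp (hG i hi).1 (s2 i hi))
      · rw [hZ]
        simp only
        rw [add_zero]
        rintro (h | ⟨i, hi, h⟩)
        · exact s1 h
        · exact s2 i hi h
      · intro m hm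
        rw [hZ]
        exact Or.inl hm) (by
      have e5 : (fun p : ℕ => ((RR (fun m => (p : ℤ) ∣ F.eval (s + m)) p).card : ℝ) / p) = fun p : ℕ =>
          ((RR (fun m => (p : ℤ) ∣ F.eval (s + m)) p).card : ℝ) / p := rfl
      intro a b ha hab hb
      have h1 := hMer a b ha hab hb
      have h3 : ∑ p ∈ (pr N ε₁ (24 / 25 * (24 / 25))).filter (fun p => a ≤ Pool.Agent.W23.DC.tt N p ∧
          Pool.Agent.W23.DC.tt N p < b), ((RR (fun m => (p : ℤ) ∣ F.eval (s + m)) p).card : ℝ) / p =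
          ∑ p ∈ (pr N ε₁ (24 / 25 * (24 / 25))).filter (fun p => a ≤ Pool.Agent.W23.DC.tt N p ∧
          Pool.Agent.W23.DC.tt N p < b), ((RR (fun m => (p : ℤ) ∣ F.eval m) p).card : ℝ) / p := by
        apply sum_congr rfl
        intro p hp
        rw [mem_filter, mem_pr'] at hp
        rw [hcardF p hp.1.2.1]
      rw [h3]
      exact h1) (by
      intro a _ b _ _ p _ _
      exact Int.natCast_dvd.symm) hA hAc (by
      intro a ha b hb hlt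
      obtain ⟨m, hm⟩ : ∃ m : ℕ, (m : ℤ) = a - b := ⟨(a - b).toNat, Int.toNat_of_nonneg (by linarith)⟩
      have ha' := hA a ha
      have hb' := hA b hb
      have h1 := hsize m (by omega) (by omega)
      rw [hm] at h1
      exact h1) (by
      refine le_trans (Nat.cast_le.2 (card_le_card ?_)) hbad
      intro m hm
      rw [mem_filter] at hm ⊢
      obtain ⟨h1, q, hq, h2⟩ := hm
      exact ⟨h1, q, hq, Int.natCast_dvd.2 h2⟩)
  refine hmain.trans (Nat.cast_le.2 (card_le_card ?_))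
  rintro ⟨a, b⟩ hz
  rw [mem_filter, mem_product] at hz ⊢
  obtain ⟨⟨ha, hb⟩, hlt, hAP, hfree⟩ := hz
  simp only at ha hb hlt hAP hfree ⊢
  refine ⟨⟨ha, hb⟩, hlt, hAP, ?_⟩
  intro i hi
  obtain ⟨g1, g2, g3⟩ := hG i hi
  refine AP_free N _ R c S (by omega) hc e2 hR ?_ ?_
  · have ha' := hA a ha
    have hb' := hA b hb
    have hx : |((s + (a - b) : ℤ) : ℝ)| ≤ (N : ℝ) ^ (1 + (E + 1)) := by
      have h1 : |((s + (a - b) : ℤ) : ℝ)| ≤ |(s : ℝ)| + N := by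
        push_cast
        have h2 : |(a : ℝ) - b| ≤ N := by
          have h3 : (1 : ℝ) ≤ b := by exact_mod_cast hb'.1
          have h4 : (a : ℝ) ≤ N := by exact_mod_cast ha'.2
          have h5 : (b : ℝ) < a := by exact_mod_cast hlt
          rw [abs_le]
          constructor <;> linarith
        exact (abs_add_le _ _).trans (by linarith)
      have h2 : (N : ℝ) ^ E ≤ (N : ℝ) ^ (E + 1) := hpow _ _ (by linarith)
      have h3 : (N : ℝ) ≤ (N : ℝ) ^ (E + 1) := by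
        calc (N : ℝ) = (N : ℝ) ^ (1 : ℝ) := (Real.rpow_one _).symm
          _ ≤ _ := hpow _ _ (by linarith)
      have h4 : (N : ℝ) ^ (1 + (E + 1)) = N * (N : ℝ) ^ (E + 1) := by
        rw [Real.rpow_add hN0, Real.rpow_one]
      rw [h4]
      have h5 : 0 ≤ (N : ℝ) ^ (E + 1) := by positivity
      have h6 : 2 * (N : ℝ) ^ (E + 1) ≤ N * (N : ℝ) ^ (E + 1) := mul_le_mul_of_nonneg_right (by linarith) h5
      linarith
    have h1 := eval_bound2 (G i) d (s + (a - b)) ((N : ℝ) ^ (1 + (E + 1))) ((N : ℝ) ^ Hh)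
      (Real.one_le_rpow hN1 (by linarith)) (by positivity) g1 hx g2
    refine h1.trans ?_
    rw [Real.rpow_one] at e1
    calc ((d : ℝ) + 1) * ((N : ℝ) ^ Hh * ((N : ℝ) ^ (1 + (E + 1))) ^ d) ≤
          N * ((N : ℝ) ^ Hh * ((N : ℝ) ^ (1 + (E + 1))) ^ d) := mul_le_mul_of_nonneg_right e1 (by positivity)
      _ = (N : ℝ) ^ S := by
          rw [← Real.rpow_natCast, ← Real.rpow_mul hN0.le, hS, Real.rpow_add hN0, Real.rpow_add hN0, Real.rpow_one]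
          ring
  · intro p hp hpc hpd
    have hpε : (p : ℝ) < (N : ℝ) ^ ε₁ :=
      hpc.trans_lt (Real.rpow_lt_rpow_of_exponent_lt (by linarith) hcε)
    apply hfree p hp hpε
    rw [hZ]
    exact Or.inr ⟨i, hi, Int.natCast_dvd.2 hpd⟩

end Pool.Agent.H540.PS
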