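import Pool.Agent.H540.TE.Uni
import Pool.Agent.H540.PS.Tool

/-! Linear forms. -/

set_option autoImplicit false

namespace Pool.Agent.H540.PS

open Finset Filter Polynomial

/-- the polynomials of the linear forms -/
noncomputable def Glin {k : ℕ} (α β : Fin k → ℤ) (i : ℕ) : ℤ[X] :=
  if h : i < k then C (α ⟨i, h⟩) * X + C (β ⟨i, h⟩) else 1

theorem Glin_eval {k : ℕ} (α β : Fin k → ℤ) (i : ℕ) (h : i < k) (x : ℤ) :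
    (Glin α β i).eval x = α ⟨i, h⟩ * x + β ⟨i, h⟩ := by
  unfold Glin
  rw [dif_pos h]
  simp only [eval_add, eval_mul, eval_X, eval_C]

theorem Glin_deg {k : ℕ} (α β : Fin k → ℤ) (i : ℕ) : (Glin α β i).natDegree ≤ 1 := by
  unfold Glin
  split_ifs
  · compute_degree
  · simp

theorem Glin_coeff {k : ℕ} (α β : Fin k → ℤ) (i : ℕ) (h : i < k) (M : ℝ) (h1 : |(α ⟨i, h⟩ : ℝ)| ≤ M)
    (h2 : |(β ⟨i, h⟩ : ℝ)| ≤ M) (j : ℕ) : |((Glin α β i).coeff j : ℝ)| ≤ M := by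
  have hM : 0 ≤ M := (abs_nonneg _).trans h1
  unfold Glin
  rw [dif_pos h, coeff_add, coeff_C_mul, coeff_X, coeff_C]
  by_cases hj : 1 = j
  · subst hj
    simpa using h1
  · rw [if_neg hj, mul_zero, zero_add]
    by_cases h0 : j = 0
    · rw [if_pos h0]
      exact h2
    · rw [if_neg h0]
      simpa using hM

open Classical in
/-- **Linear forms.** -/
theorem linT (k r : ℕ) (T Hh κ δ : ℝ) (hT : 0 ≤ T) (hH : 0 ≤ Hh) (hκ : 0 < κ) (hδ : 0 < δ)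
    (hr : 9 / 8 + (T + 1 / 1000) / (24 / 25 * (24 / 25)) ≤ r + 1) :
    ∃ (c : ℝ) (R N0 : ℕ), 0 < c ∧ c ≤ δ ∧ ∀ N : ℕ, N0 ≤ N →
      ∀ (α₀ β₀ : ℤ) (α β : Fin k → ℤ) (A : Finset ℤ), α₀ ≠ 0 → |(β₀ : ℝ)| + |(α₀ : ℝ)| * N ≤ (N : ℝ) ^ T →
      (∀ p : ℕ, p.Prime → (p : ℤ) ∣ β₀ → (N : ℝ) ^ κ ≤ p ∧ ¬ (p : ℤ) ∣ α₀) →
      (∀ i, |(α i : ℝ)| ≤ (N : ℝ) ^ Hh ∧ |(β i : ℝ)| ≤ (N : ℝ) ^ Hh) →
      (∀ i, ∀ p : ℕ, p.Prime → (p : ℤ) ∣ β i → (N : ℝ) ^ κ ≤ p) →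
      (∀ a ∈ A, 1 ≤ a ∧ a ≤ N) → (N : ℝ) ^ (1 - c) ≤ A.card →
      (N : ℝ) ^ (2 - δ) ≤ (((A ×ˢ A).filter (fun z : ℤ × ℤ => z.2 < z.1 ∧
        AP r ((N : ℝ) ^ (6 / 25 : ℝ)) (α₀ * (z.1 - z.2) + β₀).natAbs ∧
        ∀ i, AP R ((N : ℝ) ^ c) (α i * (z.1 - z.2) + β i).natAbs)).card : ℝ) := by
  obtain ⟨c, R, N0, hc, hcδ, H⟩ := polyU (X : ℤ[X]) irreducible_X (by rw [natDegree_X]; norm_num) 1 k r T Hh κ δ hT hH
    hκ hδ (by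
      rw [natDegree_X, Nat.cast_one, one_mul]
      exact hr)
  refine ⟨c, R, N0, hc, hcδ, ?_⟩
  intro N hN α₀ β₀ α β A hα₀ hsz hβ₀ hαβ hβ hA hAc
  have hmain := H N hN β₀ α₀ (Glin α β) A hα₀ hsz (by
      intro p hp hd
      rw [eval_X] at hd
      exact hβ₀ p hp hd) (by
      intro i hi
      refine ⟨Glin_deg α β i, Glin_coeff α β i hi _ (hαβ ⟨i, hi⟩).1 (hαβ ⟨i, hi⟩).2, ?_⟩
      intro p hp hd
      rw [Glin_eval α β i hi, mul_zero, zero_add] at hd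
      exact hβ ⟨i, hi⟩ p hp hd) hA hAc
  refine hmain.trans (Nat.cast_le.2 (card_le_card ?_))
  intro z hz
  rw [mem_filter] at hz ⊢
  obtain ⟨hzA, hlt, hP, hG⟩ := hz
  rw [eval_X] at hP
  refine ⟨hzA, hlt, hP, ?_⟩
  intro i
  have h1 := hG i i.2
  rw [Glin_eval α β i i.2] at h1
  exact h1

end Pool.Agent.H540.PS
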