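import Pool.Agent.H540.TE.Gen

/-! The form of the theorem for the pages. -/

set_option autoImplicit false

namespace Pool.Agent.H540.PS

open Finset Filter Polynomial

open Classical in
theorem polyG (F : ℤ[X]) (hF : Irreducible F) (hd : 0 < F.natDegree) (h0 : F.eval 0 ≠ 0) (r h J : ℕ)
    (G : ℕ → ℤ[X]) (hG : ∀ i < J, ((G i).eval 0).natAbs = 1)
    (hr : 9 / 8 + ((F.natDegree : ℝ) + 1 / 1000) / (24 / 25 * (24 / 25)) ≤ r + 1) (δ : ℝ) (hδ : 0 < δ) :
    ∃ (c : ℝ) (R : ℕ), 0 < c ∧ c ≤ δ ∧ ∀ᶠ N : ℕ in atTop, ∀ (Y : ℕ → Finset ℕ) (A : Finset ℕ),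
      (∀ p : ℕ, p.Prime → (p : ℝ) ≤ (N : ℝ) ^ c → (Y p).card ≤ h ∧ 0 ∉ Y p) →
      A ⊆ Icc 1 N → (N : ℝ) ^ (1 - c) ≤ A.card →
      (N : ℝ) ^ (2 - δ) ≤ (((A ×ˢ A).filter (fun z : ℕ × ℕ => z.2 < z.1 ∧
        (∀ p : ℕ, p.Prime → (p : ℝ) ≤ (N : ℝ) ^ c → (z.1 - z.2) % p ∉ Y p) ∧
        (∃ n : ℕ, (F.eval ((z.1 : ℤ) - z.2)).natAbs = (F.eval 0).natAbs * n ∧ n.primeFactorsList.length ≤ r ∧
          ∀ p : ℕ, p.Prime → p ∣ n → (N : ℝ) ^ (6 / 25 : ℝ) ≤ p) ∧
        ∀ i < J, AP R ((N : ℝ) ^ c) ((G i).eval ((z.1 : ℤ) - z.2)).natAbs)).card : ℝ) := by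
  obtain ⟨d, hdG⟩ : ∃ d : ℕ, ∀ i < J, (G i).natDegree ≤ d :=
    ⟨(range J).sup (fun i => (G i).natDegree), fun i hi => le_sup (f := fun i => (G i).natDegree) (mem_range.2 hi)⟩
  obtain ⟨c, hc, hcδ, H⟩ := polyT F hF hd h0 r (h + J * d) hr δ hδ
  choose CC hCC using fun i : ℕ => Pool.Agent.H540.DS.eval_le (G i)
  obtain ⟨CS, hCS⟩ : ∃ CS : ℕ, ∀ i < J, CC i ≤ CS :=
    ⟨(range J).sup CC, fun i hi => le_sup (f := CC) (mem_range.2 hi)⟩
  obtain ⟨R, hR⟩ : ∃ R : ℕ, ((d : ℝ) + 1) / c < R := exists_nat_gt _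
  refine ⟨c, R, hc, hcδ, ?_⟩
  filter_upwards [H, eventually_ge_atTop 3, (tpow hc).eventually_ge_atTop 2, eventually_ge_atTop CS] with
    N hN k1 k2 k3 Y A hY hA hAc
  have hN3 : (3 : ℝ) ≤ N := by exact_mod_cast k1
  have hNp : (0 : ℝ) < N := by linarith
  have hN1 : (1 : ℝ) ≤ N := by linarith
  have h0p : ∀ p : ℕ, p.Prime → ∀ i < J, ¬ (p : ℤ) ∣ (G i).eval 0 := by
    intro p hp i hi h1
    have h2 := Int.natCast_dvd.1 h1
    rw [hG i hi] at h2
    exact hp.one_lt.ne' (Nat.dvd_one.1 h2)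
  have hinj : Function.Injective (fun a : ℕ => (a : ℤ)) := Nat.cast_injective
  have hmain := hN (fun p m => (m % (p : ℤ)).toNat ∈ Y p ∨ ∃ i < J, (p : ℤ) ∣ (G i).eval m)
    (A.image (fun a : ℕ => (a : ℤ))) (by
      intro p hp hpc
      have hpz : (0 : ℤ) < p := by exact_mod_cast hp.pos
      obtain ⟨y1, y2⟩ := hY p hp hpc
      refine ⟨?_, ?_, ?_⟩
      · intro m m' hm
        have e1 : m % (p : ℤ) = m' % (p : ℤ) := Int.ModEq.symm (Int.modEq_iff_dvd.2 hm)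
        rw [e1]
        have h1 : (∃ i < J, (p : ℤ) ∣ (G i).eval m) ↔ (∃ i < J, (p : ℤ) ∣ (G i).eval m') := by
          constructor
          · rintro ⟨i, hi, h2⟩
            exact ⟨i, hi, (per_dvd0 (G i) p m m' hm).1 h2⟩
          · rintro ⟨i, hi, h2⟩
            exact ⟨i, hi, (per_dvd0 (G i) p m m' hm).2 h2⟩
        rw [h1]
      · rintro (h1 | ⟨i, hi, h1⟩)
        · rw [Int.zero_emod, Int.toNat_zero] at h1
          exact y2 h1
        · exact h0p p hp i hi h1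
      · refine (card_or _ _ p).trans (Nat.add_le_add ?_ ?_)
        · refine le_trans (card_le_card ?_) y1
          intro s hs
          rw [mem_RR] at hs
          have h2 : ((s : ℤ) % (p : ℤ)).toNat = s := by
            rw [Int.emod_eq_of_lt (by omega) (by omega), Int.toNat_natCast]
          rw [h2] at hs
          exact hs.2
        · exact card_ex J (fun i m => (p : ℤ) ∣ (G i).eval m) p d (fun i hi =>
            roots_le (G i) d p hp (hdG i hi) (h0p p hp i hi))) (by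
      intro a ha
      rw [mem_image] at ha
      obtain ⟨a', ha', rfl⟩ := ha
      have := mem_Icc.1 (hA ha')
      omega) (by
      rw [card_image_of_injective _ hinj]
      exact hAc)
  refine hmain.trans (Nat.cast_le.2 ?_)
  apply card_le_card_of_injOn (fun z : ℤ × ℤ => (z.1.toNat, z.2.toNat))
  · rintro ⟨x, y⟩ hz
    rw [mem_coe, mem_filter, mem_product, mem_image, mem_image] at hz
    obtain ⟨⟨⟨a, ha, hxa⟩, ⟨b, hb, hyb⟩⟩, hlt, hYp, hn⟩ := hz
    simp only at hxa hyb hlt hYp hn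
    subst hxa
    subst hyb
    have hlt' : b < a := by exact_mod_cast hlt
    rw [mem_coe, mem_filter, mem_product]
    simp only [Int.toNat_natCast]
    refine ⟨⟨ha, hb⟩, hlt', ?_, hn, ?_⟩
    · intro p hp hpc hmem
      apply hYp p hp hpc
      left
      have e : ((a : ℤ) - b) % (p : ℤ) = (((a - b) % p : ℕ) : ℤ) := by
        rw [← Nat.cast_sub hlt'.le]
        push_cast
        rfl
      rw [e, Int.toNat_natCast]
      exact hmem
    · intro i hi
      have ha2 := mem_Icc.1 (hA ha)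
      have h3 := hCC i N (a - b) (by omega) (by omega)
      rw [Nat.cast_sub hlt'.le] at h3
      refine AP_free N _ R c (d + 1) (by omega) hc k2 hR ?_ ?_
      · have h4 : ((((G i).eval ((a : ℤ) - b)).natAbs : ℕ) : ℝ) ≤ ((CC i * N ^ (G i).natDegree : ℕ) : ℝ) :=
          Nat.cast_le.2 h3
        refine h4.trans ?_
        push_cast
        have h5 : (CC i : ℝ) ≤ N := by exact_mod_cast (hCS i hi).trans k3
        have h6 : (N : ℝ) ^ (G i).natDegree ≤ (N : ℝ) ^ d := pow_le_pow_right₀ hN1 (hdG i hi)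
        calc (CC i : ℝ) * (N : ℝ) ^ (G i).natDegree ≤ N * (N : ℝ) ^ d :=
              mul_le_mul h5 h6 (by positivity) (by linarith)
          _ = (N : ℝ) ^ ((d : ℝ) + 1) := by
              rw [Real.rpow_add hNp, Real.rpow_one, Real.rpow_natCast, mul_comm]
      · intro p hp hpc hpd
        apply hYp p hp hpc
        right
        exact ⟨i, hi, Int.natCast_dvd.2 hpd⟩
  · rintro ⟨x, y⟩ hz ⟨x', y'⟩ hz' heq
    rw [mem_coe, mem_filter, mem_product, mem_image, mem_image] at hz hz'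
    obtain ⟨⟨⟨a, ha, hxa⟩, ⟨b, hb, hyb⟩⟩, _⟩ := hz
    obtain ⟨⟨⟨a', ha', hxa'⟩, ⟨b', hb', hyb'⟩⟩, _⟩ := hz'
    simp only [Prod.mk.injEq] at heq hxa hyb hxa' hyb' ⊢
    omega

end Pool.Agent.H540.PS
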