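import Pool.Agent.H540.TE.Core
import Pool.Agent.H540.PS.Poly
import Pool.Agent.H540.DS.Diff

/-! **Almost prime values of polynomials at the differences of sets of size `N ^ (1 - c)`.** -/

set_option autoImplicit false

namespace Pool.Agent.H540.PS

open Finset Filter Polynomial
open Pool.Agent.Y882 (VV PZ tt_lt)
open Pool.Agent.Y882.KW (WW WB)
open Pool.Agent.W23.DC (pr Mer)

open Classical in
/-- pairs with a square factor -/
theorem bad_pairs' (F : ℤ[X]) (B : Finset ℤ) (N : ℕ) (nn : ℤ → ℕ) (P : Finset ℕ) (hB : ∀ a ∈ B, 1 ≤ a ∧ a ≤ N)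
    (hdiv : ∀ a ∈ B, ∀ b ∈ B, nn (a - b) ∣ (F.eval (a - b)).natAbs) :
    ((B ×ˢ B).filter (fun z : ℤ × ℤ => z.2 < z.1 ∧ ∃ q ∈ P, q ^ 2 ∣ nn (z.1 - z.2))).card ≤
      ((Icc 1 N).filter (fun m : ℕ => ∃ q ∈ P, ((q ^ 2 : ℕ) : ℤ) ∣ F.eval (m : ℤ))).card * B.card := by
  rw [← card_product]
  apply card_le_card_of_injOn (fun z : ℤ × ℤ => ((z.1 - z.2).toNat, z.2))
  · rintro ⟨x, y⟩ hz
    rw [mem_coe, mem_filter, mem_product] at hz
    obtain ⟨⟨hx, hy⟩, hlt, q, hq, hqd⟩ := hz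
    simp only at hx hy hlt hqd
    rw [mem_coe, mem_product, mem_filter, mem_Icc]
    have h4 := hB x hx
    have h4' := hB y hy
    have h5 : (((x - y).toNat : ℕ) : ℤ) = x - y := Int.toNat_of_nonneg (by omega)
    simp only
    refine ⟨⟨⟨by omega, by omega⟩, q, hq, ?_⟩, hy⟩
    rw [h5]
    exact Int.natCast_dvd.2 (hqd.trans (hdiv x hx y hy))
  · rintro ⟨x, y⟩ hz ⟨x', y'⟩ hz' heq
    rw [mem_coe, mem_filter, mem_product] at hz hz'
    simp only [Prod.mk.injEq] at heq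
    have h1 := hz.2.1
    have h2 := hz'.2.1
    simp only at h1 h2
    rw [Prod.mk.injEq]
    omega

theorem card_or (Y Y' : ℤ → Prop) (p : ℕ) : (RR (fun m => Y m ∨ Y' m) p).card ≤ (RR Y p).card + (RR Y' p).card := by
  refine le_trans (card_le_card ?_) (card_union_le _ _)
  intro r hr
  rw [mem_union, mem_RR, mem_RR]
  rw [mem_RR] at hr
  rcases hr.2 with h | h
  · exact Or.inl ⟨hr.1, h⟩
  · exact Or.inr ⟨hr.1, h⟩

open Classical in
/-- **The main theorem for polynomials.** -/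
theorem polyT (F : ℤ[X]) (hF : Irreducible F) (hd : 0 < F.natDegree) (h0 : F.eval 0 ≠ 0) (r h : ℕ)
    (hr : 9 / 8 + ((F.natDegree : ℝ) + 1 / 1000) / (24 / 25 * (24 / 25)) ≤ r + 1) (δ : ℝ) (hδ : 0 < δ) :
    ∃ (c : ℝ), 0 < c ∧ c ≤ δ ∧ ∀ᶠ N : ℕ in atTop, ∀ (Y : ℕ → ℤ → Prop) (A : Finset ℤ),
      (∀ p : ℕ, p.Prime → (p : ℝ) ≤ (N : ℝ) ^ c →
        (∀ m m' : ℤ, (p : ℤ) ∣ m - m' → (Y p m ↔ Y p m')) ∧ ¬ Y p 0 ∧ (RR (Y p) p).card ≤ h) →
      (∀ a ∈ A, 1 ≤ a ∧ a ≤ N) → (N : ℝ) ^ (1 - c) ≤ A.card →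
      (N : ℝ) ^ (2 - δ) ≤ (((A ×ˢ A).filter (fun z : ℤ × ℤ => z.2 < z.1 ∧
        (∀ p : ℕ, p.Prime → (p : ℝ) ≤ (N : ℝ) ^ c → ¬ Y p (z.1 - z.2)) ∧
        ∃ n : ℕ, (F.eval (z.1 - z.2)).natAbs = (F.eval 0).natAbs * n ∧ n.primeFactorsList.length ≤ r ∧
          ∀ p : ℕ, p.Prime → p ∣ n → (N : ℝ) ^ (6 / 25 : ℝ) ≤ p)).card : ℝ) := by
  obtain ⟨kk, hkk⟩ : ∃ kk : ℕ, kk = (F.eval 0).natAbs := ⟨_, rfl⟩
  have hkk0 : 0 < kk := by rw [hkk]; exact Int.natAbs_pos.2 h0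
  have hkkz : (kk : ℤ) ≠ 0 := by exact_mod_cast hkk0.ne'
  obtain ⟨τ, hτ⟩ : ∃ τ : ℝ, τ = 24 / 25 := ⟨_, rfl⟩
  obtain ⟨ζ, hζ⟩ : ∃ ζ : ℝ, ζ = τ / 4 := ⟨_, rfl⟩
  obtain ⟨υ, hυ⟩ : ∃ υ : ℝ, υ = 24 / 25 * τ := ⟨_, rfl⟩
  obtain ⟨lam, hlam⟩ : ∃ lam : ℝ, lam = 8 / 9 := ⟨_, rfl⟩
  have hJ0 := Pool.Agent.Y882.KW.cond_A τ lam (by rw [hτ]; norm_num) (by rw [hlam]; norm_num)
    (by rw [hlam]; norm_num)
  rw [← hζ, ← hυ] at hJ0
  have hζ' : ζ = 6 / 25 := by rw [hζ, hτ]; norm_num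
  have hυ' : υ = 24 / 25 * (24 / 25) := by rw [hυ, hτ]
  have hυ0 : 0 < υ := by rw [hυ']; norm_num
  have hυ1 : υ ≤ 1 := by rw [hυ']; norm_num
  obtain ⟨δ1, hδ1⟩ : ∃ δ1 : ℝ, δ1 = min δ (1 / 50) / 2 := ⟨_, rfl⟩
  have hδ10 : 0 < δ1 := by
    rw [hδ1]
    have := lt_min hδ (show (0 : ℝ) < 1 / 50 by norm_num)
    linarith
  have hδ1a : 2 * δ1 ≤ δ := by
    rw [hδ1]
    have := min_le_left δ (1 / 50)
    linarith
  have hδ1b : δ1 ≤ 1 / 100 := by
    rw [hδ1]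
    have := min_le_right δ (1 / 50)
    linarith
  obtain ⟨c1, ε₁, η, N0, hc1, hc1δ, hc1ε, hε0, hεζ, _, hη, HC⟩ := coreT (F.natDegree + h) τ ζ υ lam (lam / υ) δ1 1
    one_pos (by rw [hζ']; norm_num) (by rw [hζ', hτ]; norm_num) (by rw [hζ', hτ]; norm_num) (by rw [hτ])
    (by rw [hζ', hυ']; norm_num) (by rw [hυ', hτ]; norm_num) (by rw [hlam]; norm_num)
    (by rw [hlam, hυ']; norm_num) (by rw [div_mul_cancel₀ _ hυ0.ne']) hJ0 hδ10 hδ1b
  obtain ⟨Y2, HM⟩ := Pool.Agent.K3h21.IR.mer_irr F hF hd ε₁ υ η hε0 hυ1 hη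
  obtain ⟨CF, HCF⟩ := Pool.Agent.H540.DS.eval_le F
  obtain ⟨KK, q0, HB⟩ := Pool.Agent.H540.DS.bad_count F hF hd
  obtain ⟨c, hc⟩ : ∃ c, c = c1 / 2 := ⟨_, rfl⟩
  have hc0 : 0 < c := by rw [hc]; linarith
  have v2 : ∀ (x : ℝ) (κ : ℝ), 0 < κ → ∀ᶠ N : ℕ in atTop, x ≤ (N : ℝ) ^ κ := fun x κ hκ =>
    (tpow hκ).eventually_ge_atTop _
  refine ⟨c, hc0, by linarith, ?_⟩
  filter_upwards [eventually_ge_atTop 3, eventually_ge_atTop N0, eventually_ge_atTop Y2, v2 CF (1 / 1000) (by norm_num),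
    v2 q0 (6 / 25) (by norm_num), v2 ((KK : ℝ) * 4) (1 / 100) (by norm_num), v2 3 (1 / 100) (by norm_num),
    v2 (kk * kk) (c1 - c) (by linarith), v2 (kk + 1) ε₁ hε0, v2 2 δ1 hδ10] with
    N k1 k2 k3 k4 k5 k6 k7 k8 k9 k10 Y A hY hA hAc
  have hN3 : (3 : ℝ) ≤ N := by exact_mod_cast k1
  have hNp : (0 : ℝ) < N := by linarith
  have hN1 : (1 : ℝ) ≤ N := by linarith
  have hpow : ∀ a b : ℝ, a ≤ b → (N : ℝ) ^ a ≤ (N : ℝ) ^ b := fun a b h =>
    Real.rpow_le_rpow_of_exponent_le hN1 h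
  have hN1' : (N : ℝ) = (N : ℝ) ^ (1 : ℝ) := (Real.rpow_one _).symm
  -- the residue class
  obtain ⟨r', hr'⟩ := exists_cls A (kk * kk) (by positivity)
  obtain ⟨B, hB⟩ : ∃ B, B = A.filter (fun a => a % ((kk * kk : ℕ) : ℤ) = r') := ⟨_, rfl⟩
  rw [← hB] at hr'
  have hBA : B ⊆ A := by rw [hB]; exact filter_subset _ _
  have hBc : (N : ℝ) ^ (1 - c1) ≤ B.card := by
    have h1 : (A.card : ℝ) ≤ (kk * kk) * B.card := by exact_mod_cast hr'
    have h3 : (N : ℝ) ^ (1 - c) ≤ (N : ℝ) ^ (c1 - c) * B.card :=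
      (hAc.trans h1).trans (mul_le_mul_of_nonneg_right k8 (Nat.cast_nonneg _))
    have h4 : (N : ℝ) ^ (c1 - c) * (N : ℝ) ^ (1 - c1) ≤ (N : ℝ) ^ (c1 - c) * B.card := by
      refine le_trans (le_of_eq ?_) h3
      rw [← Real.rpow_add hNp]
      congr 1
      ring
    exact le_of_mul_le_mul_left h4 (by positivity)
  have hBN : ∀ a ∈ B, 1 ≤ a ∧ a ≤ N := fun a ha => hA a (hBA ha)
  -- the values
  have hval : ∀ a ∈ B, ∀ b ∈ B, (F.eval (a - b)).natAbs = kk * ((F.eval (a - b)).natAbs / kk) ∧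
      ∀ p : ℕ, p.Prime → (p ∣ (F.eval (a - b)).natAbs / kk ↔ (¬ p ∣ kk ∧ (p : ℤ) ∣ F.eval (a - b))) := by
    intro a ha b hb
    have hcong : ((kk : ℤ) * kk) ∣ a - b := by
      rw [hB, mem_filter] at ha hb
      have h1 : b ≡ a [ZMOD ((kk * kk : ℕ) : ℤ)] := by
        show b % ((kk * kk : ℕ) : ℤ) = a % ((kk * kk : ℕ) : ℤ)
        rw [ha.2, hb.2]
      have h2 := h1.dvd
      push_cast at h2
      exact h2
    have hFc : ((kk : ℤ) * kk) ∣ F.eval (a - b) - F.eval 0 := by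
      have h1 := sub_dvd_eval_sub (a - b) 0 F
      rw [sub_zero] at h1
      exact hcong.trans h1
    obtain ⟨w, hw⟩ := hFc
    obtain ⟨e, he, hek⟩ : ∃ e : ℤ, (e = 1 ∨ e = -1) ∧ F.eval 0 = e * kk := by
      rcases Int.natAbs_eq (F.eval 0) with h1 | h1
      · exact ⟨1, Or.inl rfl, by rw [hkk, one_mul]; exact h1⟩
      · exact ⟨-1, Or.inr rfl, by rw [hkk, neg_one_mul]; exact h1⟩
    have hFe : F.eval (a - b) = kk * (e + kk * w) := by
      have : F.eval (a - b) = kk * kk * w + F.eval 0 := by linarith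
      rw [this, hek]
      ring
    have hna : (F.eval (a - b)).natAbs = kk * (e + kk * w).natAbs := by
      rw [hFe, Int.natAbs_mul, Int.natAbs_natCast]
    have hdiv : (F.eval (a - b)).natAbs / kk = (e + kk * w).natAbs := by
      rw [hna, Nat.mul_div_cancel_left _ hkk0]
    refine ⟨by rw [hdiv]; exact hna, ?_⟩
    intro p hp
    rw [hdiv, hFe]
    constructor
    · intro h1
      have h2 : (p : ℤ) ∣ e + kk * w := Int.natCast_dvd.2 h1
      refine ⟨?_, Dvd.dvd.mul_left h2 _⟩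
      intro h3
      have h4 : (p : ℤ) ∣ kk * w := Dvd.dvd.mul_right (by exact_mod_cast h3) w
      have h5 : (p : ℤ) ∣ e := (Int.dvd_add_left h4).1 h2
      have h6 : (p : ℤ) ∣ 1 := by
        rcases he with rfl | rfl
        · exact h5
        · exact (dvd_neg.1 h5)
      have h7 : p ∣ 1 := by exact_mod_cast h6
      exact hp.one_lt.ne' (Nat.dvd_one.1 h7)
    · rintro ⟨h1, h2⟩
      rcases (Nat.prime_iff_prime_int.1 hp).dvd_mul.1 h2 with h3 | h3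
      · exact absurd (by exact_mod_cast h3) h1
      · exact Int.natCast_dvd.1 h3
  -- the sets of residues
  obtain ⟨X, hX⟩ : ∃ X : ℕ → ℤ → Prop, X = fun p m => ¬ p ∣ kk ∧ (p : ℤ) ∣ F.eval m := ⟨_, rfl⟩
  have hXper : ∀ p : ℕ, ∀ m m' : ℤ, (p : ℤ) ∣ m - m' → (X p m ↔ X p m') := by
    intro p m m' hm
    rw [hX]
    simp only
    have h2 : (p : ℤ) ∣ F.eval m - F.eval m' := hm.trans (sub_dvd_eval_sub m m' F)
    rw [Int.dvd_iff_dvd_of_dvd_sub h2]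
  have h0k : ∀ p : ℕ, p.Prime → ¬ p ∣ kk → ¬ (p : ℤ) ∣ F.eval 0 := by
    intro p _ h1 h2
    apply h1
    rw [hkk]
    exact Int.natCast_dvd.1 h2
  have hXcard : ∀ p : ℕ, p.Prime → (RR (X p) p).card ≤ F.natDegree := by
    intro p hp
    by_cases h1 : p ∣ kk
    · have h2 : RR (X p) p = ∅ := by
        rw [eq_empty_iff_forall_notMem]
        intro s hs
        rw [mem_RR, hX] at hs
        exact hs.2.1 h1
      rw [h2, card_empty]
      exact Nat.zero_le _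
    · refine le_trans (card_le_card ?_) (roots_le F F.natDegree p hp le_rfl (h0k p hp h1))
      intro s hs
      rw [mem_RR, hX] at hs
      rw [mem_RR]
      exact ⟨hs.1, hs.2.2⟩
  obtain ⟨Z, hZ⟩ : ∃ Z : ℕ → ℤ → Prop, Z = fun p m => X p m ∨ ((p : ℝ) ≤ (N : ℝ) ^ c ∧ Y p m) := ⟨_, rfl⟩
  have hMer : Mer (pr N ε₁ υ) (Pool.Agent.W23.DC.tt N) (fun p => ((RR (X p) p).card : ℝ) / p) ε₁ υ η := by
    have h1 := HM N k3
    intro a b ha hab hb
    have h2 := h1 a b ha hab hb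
    have h3 : ∑ p ∈ (pr N ε₁ υ).filter (fun p => a ≤ Pool.Agent.W23.DC.tt N p ∧ Pool.Agent.W23.DC.tt N p < b),
        ((RR (X p) p).card : ℝ) / p = ∑ p ∈ (pr N ε₁ υ).filter (fun p => a ≤ Pool.Agent.W23.DC.tt N p ∧
        Pool.Agent.W23.DC.tt N p < b), (Pool.Agent.H300R2.BH.rho F p : ℝ) / p := by
      apply sum_congr rfl
      intro p hp
      rw [mem_filter, mem_pr'] at hp
      obtain ⟨⟨g1, g2, g3, g4⟩, _⟩ := hp
      have hpN : (N : ℝ) ^ ε₁ ≤ p := by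
        by_contra hcon
        push Not at hcon
        have := (tt_lt N p ε₁ (by omega) g2.pos).2 hcon
        linarith
      have hpk : ¬ p ∣ kk := by
        intro hdvd
        have h5 := Nat.le_of_dvd hkk0 hdvd
        have h6 : (p : ℝ) ≤ kk := by exact_mod_cast h5
        linarith
      have h5 : (RR (X p) p).card = Pool.Agent.H300R2.BH.rho F p := by
        unfold Pool.Agent.H300R2.BH.rho
        congr 1
        ext s
        rw [mem_RR, mem_filter, mem_range, hX]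
        exact ⟨fun h => ⟨h.1, h.2.2⟩, fun h => ⟨h.1, hpk, h.2⟩⟩
      rw [h5]
    rw [h3]
    exact h2
  have hmain := HC N k2 X Z B (fun m => (F.eval m).natAbs / kk)
    (fun p hp _ => ⟨hXper p, (hXcard p hp).trans (Nat.le_add_right _ _)⟩) (by
      intro p hp hpε
      by_cases hpc : (p : ℝ) ≤ (N : ℝ) ^ c
      · obtain ⟨y1, y2, y3⟩ := hY p hp hpc
        refine ⟨⟨?_, ?_⟩, ?_, ?_⟩
        · intro m m' hm
          rw [hZ]
          simp only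
          rw [hXper p m m' hm, y1 m m' hm]
        · rw [hZ]
          refine (card_or (X p) (fun m => (p : ℝ) ≤ (N : ℝ) ^ c ∧ Y p m) p).trans ?_
          refine Nat.add_le_add (hXcard p hp) (le_trans (card_le_card ?_) y3)
          intro s hs
          rw [mem_RR] at hs ⊢
          exact ⟨hs.1, hs.2.2⟩
        · rw [hZ]
          rintro (h1 | h1)
          · rw [hX] at h1
            exact h0k p hp h1.1 h1.2
          · exact y2 h1.2
        · intro m hm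
          rw [hZ]
          exact Or.inl hm
      · refine ⟨⟨?_, ?_⟩, ?_, ?_⟩
        · intro m m' hm
          rw [hZ]
          simp only
          rw [hXper p m m' hm]
          constructor
          · rintro (h1 | h1)
            · exact Or.inl h1
            · exact absurd h1.1 hpc
          · rintro (h1 | h1)
            · exact Or.inl h1
            · exact absurd h1.1 hpc
        · refine le_trans (card_le_card ?_) ((hXcard p hp).trans (Nat.le_add_right _ _))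
          intro s hs
          rw [mem_RR, hZ] at hs
          rw [mem_RR]
          rcases hs.2 with h1 | h1
          · exact ⟨hs.1, h1⟩
          · exact absurd h1.1 hpc
        · rw [hZ]
          rintro (h1 | h1)
          · rw [hX] at h1
            exact h0k p hp h1.1 h1.2
          · exact hpc h1.1
        · intro m hm
          rw [hZ]
          exact Or.inl hm) hMer (by
      intro a ha b hb _ p hp _
      rw [hX]
      exact (hval a ha b hb).2 p hp) hBN hBc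
  -- the pairs with a square factor
  obtain ⟨Zg, hZg⟩ : ∃ Zg : Finset (ℤ × ℤ), Zg = (B ×ˢ B).filter (fun z : ℤ × ℤ => z.2 < z.1 ∧
    (0 < WW N ζ υ lam (lam / υ) ((F.eval (z.1 - z.2)).natAbs / kk) ∧
    ∀ p : ℕ, p.Prime → (p : ℝ) < (N : ℝ) ^ ε₁ → ¬ Z p (z.1 - z.2))) := ⟨_, rfl⟩
  obtain ⟨Zb, hZb⟩ : ∃ Zb : Finset (ℤ × ℤ), Zb = (B ×ˢ B).filter (fun z : ℤ × ℤ => z.2 < z.1 ∧
      ∃ q ∈ pr N ζ υ, q ^ 2 ∣ (F.eval (z.1 - z.2)).natAbs / kk) := ⟨_, rfl⟩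
  rw [← hZg] at hmain
  have hbadc := bad_pairs' F B N (fun m => (F.eval m).natAbs / kk) (pr N ζ υ) hBN (by
    intro a ha b hb
    have h1 := (hval a ha b hb).1
    exact Dvd.intro_left _ h1.symm)
  rw [← hZb] at hbadc
  have hbad2 := HB N ζ υ (by omega) (by rw [hζ']; norm_num) hυ1 (by
    rw [hζ']; exact k5)
  have hB2N : (B.card : ℝ) ≤ N := by
    have h1 : B.card ≤ (Icc (1 : ℤ) N).card := card_le_card (fun a ha => by
      rw [mem_Icc]
      exact hBN a ha)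
    rw [Int.card_Icc] at h1
    have h2 : ((N : ℤ) + 1 - 1).toNat = N := by omega
    rw [h2] at h1
    exact_mod_cast h1
  have hZbc : (Zb.card : ℝ) ≤ (N : ℝ) ^ (1.94 : ℝ) := by
    have h1 : (Zb.card : ℝ) ≤ KK * (2 * N / (N : ℝ) ^ ζ + (N : ℝ) ^ υ + 1) * B.card := by
      have h0 : (Zb.card : ℝ) ≤ ((((Icc 1 N).filter (fun m : ℕ => ∃ q ∈ pr N ζ υ,
          ((q ^ 2 : ℕ) : ℤ) ∣ F.eval (m : ℤ))).card : ℕ) : ℝ) * (B.card : ℝ) := by
        rw [← Nat.cast_mul]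
        exact Nat.cast_le.2 hbadc
      exact h0.trans (mul_le_mul_of_nonneg_right hbad2 (Nat.cast_nonneg _))
    have h2 : 2 * N / (N : ℝ) ^ ζ ≤ 2 * (N : ℝ) ^ υ := by
      rw [div_le_iff₀ (by positivity), mul_assoc, ← Real.rpow_add hNp]
      apply mul_le_mul_of_nonneg_left _ (by norm_num)
      calc (N : ℝ) = (N : ℝ) ^ (1 : ℝ) := hN1'
        _ ≤ _ := hpow _ _ (by rw [hζ', hυ']; norm_num)
    have h3 : (1 : ℝ) ≤ (N : ℝ) ^ υ := Real.one_le_rpow hN1 hυ0.le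
    calc (Zb.card : ℝ) ≤ KK * (2 * N / (N : ℝ) ^ ζ + (N : ℝ) ^ υ + 1) * B.card := h1
      _ ≤ KK * (4 * (N : ℝ) ^ υ) * N := by
          apply mul_le_mul _ hB2N (Nat.cast_nonneg _) (by positivity)
          apply mul_le_mul_of_nonneg_left _ (Nat.cast_nonneg _)
          linarith
      _ = (KK * 4) * ((N : ℝ) ^ υ * N) := by ring
      _ ≤ (N : ℝ) ^ (1 / 100 : ℝ) * ((N : ℝ) ^ υ * N) :=
          mul_le_mul_of_nonneg_right k6 (by positivity)
      _ = (N : ℝ) ^ (1 / 100 + (υ + 1)) := by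
          nth_rw 3 [hN1']
          rw [← Real.rpow_add hNp, ← Real.rpow_add hNp]
      _ ≤ _ := hpow _ _ (by rw [hυ']; norm_num)
  have hdiff : (N : ℝ) ^ (2 - δ) ≤ ((Zg \ Zb).card : ℝ) := by
    have h1 : (Zg.card : ℝ) ≤ ((Zg \ Zb).card : ℝ) + Zb.card := by
      have := card_le_card_sdiff_add_card (s := Zg) (t := Zb)
      exact_mod_cast this
    have h2 : (N : ℝ) ^ (1.94 : ℝ) ≤ (N : ℝ) ^ (2 - 2 * δ1) := hpow _ _ (by linarith)
    have h3 : 2 * (N : ℝ) ^ (2 - 2 * δ1) ≤ (N : ℝ) ^ (2 - δ1) := by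
      calc 2 * (N : ℝ) ^ (2 - 2 * δ1) ≤ (N : ℝ) ^ δ1 * (N : ℝ) ^ (2 - 2 * δ1) :=
            mul_le_mul_of_nonneg_right k10 (by positivity)
        _ = (N : ℝ) ^ (2 - δ1) := by
            rw [← Real.rpow_add hNp]
            congr 1
            ring
    have h4 : (N : ℝ) ^ (2 - δ) ≤ (N : ℝ) ^ (2 - 2 * δ1) := hpow _ _ (by linarith)
    linarith
  refine hdiff.trans (Nat.cast_le.2 (card_le_card ?_))
  rintro ⟨a, b⟩ hz
  rw [Finset.mem_sdiff, hZg, hZb, mem_filter, mem_filter, mem_product] at hz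
  obtain ⟨⟨⟨ha, hb⟩, hlt, hW, hZp⟩, hnb⟩ := hz
  simp only at ha hb hlt hW hZp hnb
  rw [mem_filter, mem_product]
  refine ⟨⟨hBA ha, hBA hb⟩, hlt, ?_, ?_⟩
  · intro p hp hpc hYp
    have hpε : (p : ℝ) < (N : ℝ) ^ ε₁ := hpc.trans_lt (Real.rpow_lt_rpow_of_exponent_lt (by linarith) (by linarith))
    apply hZp p hp hpε
    rw [hZ]
    exact Or.inr ⟨hpc, hYp⟩
  · obtain ⟨v1, _⟩ := hval a ha b hb
    obtain ⟨n, hn⟩ : ∃ n : ℕ, n = (F.eval (a - b)).natAbs / kk := ⟨_, rfl⟩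
    rw [← hn] at hW hnb v1
    obtain ⟨m, hm⟩ : ∃ m : ℕ, (m : ℤ) = a - b := ⟨(a - b).toNat, Int.toNat_of_nonneg (by linarith)⟩
    have hmN : m ≤ N := by
      have h1 := (hBN a ha).2
      have h2 := (hBN b hb).1
      omega
    have hval2 := HCF N m (by omega) hmN
    rw [hm] at hval2
    have hnS : (n : ℝ) ≤ (N : ℝ) ^ ((F.natDegree : ℝ) + 1 / 1000) := by
      have h5 : n ≤ (F.eval (a - b)).natAbs := by rw [hn]; exact Nat.div_le_self _ _
      have h6 : (n : ℝ) ≤ CF * (N : ℝ) ^ F.natDegree := by exact_mod_cast h5.trans hval2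
      calc (n : ℝ) ≤ CF * (N : ℝ) ^ F.natDegree := h6
        _ ≤ (N : ℝ) ^ (1 / 1000 : ℝ) * (N : ℝ) ^ F.natDegree :=
            mul_le_mul_of_nonneg_right k4 (by positivity)
        _ = _ := by
            rw [← Real.rpow_natCast, ← Real.rpow_add hNp]
            congr 1
            ring
    have hal := Pool.Agent.H540.DS.fin_almost N k1 k7 F.natDegree r n ζ υ lam hζ' hυ' hlam hr hW hnS (by
      intro q hq hqn
      exact hnb ⟨⟨ha, hb⟩, hlt, q, hq, hqn⟩)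
    refine ⟨n, ?_, hal.1, hal.2⟩
    rw [← hkk]
    exact v1

end Pool.Agent.H540.PS
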