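import Pool.Agent.H540.TE.Err3

/-! The size of the error. -/

set_option autoImplicit false

namespace Pool.Agent.H540.PS

open Finset Filter

theorem es_le (C s0 j : ℕ) (τ τ1 ε₁ G : ℝ) (hτ0 : 0 ≤ τ) (hτ : τ ≤ 24 / 25) (hτ1 : 0 < τ1) (hτ1' : τ1 ≤ 1 / 450)
    (hε : 0 < ε₁) (hε1 : ε₁ ≤ 1 / 20) (hG : 0 ≤ G) :
    ∃ N0 : ℕ, ∀ N : ℕ, N0 ≤ N → ∀ A : Finset ℤ,
      (2 + Real.log (2 * N)) * (G * ((3 * Real.log N) ^ j *
        Es A N ((N : ℝ) ^ τ1) ((N : ℝ) ^ τ) ((N : ℝ) ^ ε₁) C s0)) ≤ (N : ℝ) ^ (1 - ε₁ / 4) * A.card := by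
  obtain ⟨Cs, hCs⟩ : ∃ Cs : ℝ, Cs = (C : ℝ) ^ s0 * (C : ℝ) ^ (C ^ 2) := ⟨_, rfl⟩
  have hCs0 : 0 ≤ Cs := by rw [hCs]; positivity
  have ev1 := Pool.Agent.H540.DS.loN ((j + 2 : ℕ) : ℝ) (ε₁ / 4) (1600 * G * 3 ^ j * Cs) (by linarith)
  obtain ⟨N1, hN1⟩ := eventually_atTop.1 (ev1.and (Pool.Agent.H540.DS.tlog.eventually_ge_atTop 1))
  refine ⟨max N1 3, ?_⟩
  intro N hN A
  obtain ⟨f1, f2⟩ := hN1 N ((le_max_left _ _).trans hN)
  have hN3 : 3 ≤ N := (le_max_right _ _).trans hN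
  have hNr : (3 : ℝ) ≤ N := by exact_mod_cast hN3
  have hN0 : (0 : ℝ) < N := by linarith
  have hN1' : (1 : ℝ) ≤ N := by linarith
  obtain ⟨L, hL⟩ : ∃ L : ℝ, L = Real.log N := ⟨_, rfl⟩
  rw [Real.rpow_natCast, ← hL] at f1
  rw [← hL] at f2 ⊢
  have hL0 : 0 < L := by linarith
  obtain ⟨a, ha⟩ : ∃ a : ℝ, a = (A.card : ℝ) := ⟨_, rfl⟩
  have ha0 : 0 ≤ a := by rw [ha]; exact Nat.cast_nonneg _
  have hpow : ∀ x y : ℝ, x ≤ y → (N : ℝ) ^ x ≤ (N : ℝ) ^ y := fun x y h =>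
    Real.rpow_le_rpow_of_exponent_le hN1' h
  have hNe : (N : ℝ) ^ (1 : ℝ) = N := Real.rpow_one _
  -- the size of the range
  have hYD : (N : ℝ) ^ τ * ((N : ℝ) ^ τ1) ^ 3 = (N : ℝ) ^ (τ + 3 * τ1) := by
    rw [← Real.rpow_natCast, ← Real.rpow_mul hN0.le, ← Real.rpow_add hN0]
    congr 1
    push_cast
    ring
  have hfl : (⌊(N : ℝ) ^ τ * ((N : ℝ) ^ τ1) ^ 3⌋₊ : ℝ) ≤ (N : ℝ) ^ (τ + 3 * τ1) := by
    rw [← hYD]
    exact Nat.floor_le (by positivity)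
  have hfN : (⌊(N : ℝ) ^ τ * ((N : ℝ) ^ τ1) ^ 3⌋₊ : ℝ) ≤ N := by
    refine hfl.trans ?_
    calc (N : ℝ) ^ (τ + 3 * τ1) ≤ (N : ℝ) ^ (1 : ℝ) := hpow _ _ (by linarith)
      _ = N := hNe
  have hclog := Pool.Agent.H540.DS.clog_le _ (N : ℝ) hN1' hfN
  rw [← hL] at hclog
  obtain ⟨D', hD'⟩ : ∃ D' : ℕ, D' = ⌊(N : ℝ) ^ τ * ((N : ℝ) ^ τ1) ^ 3⌋₊ := ⟨_, rfl⟩
  -- the bound for `Es`
  have hEs : Es A N ((N : ℝ) ^ τ1) ((N : ℝ) ^ τ) ((N : ℝ) ^ ε₁) C s0 ≤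
      Cs * (400 * L * (N * a * (N : ℝ) ^ (-(ε₁ / 2)))) := by
    unfold Es
    rw [← hCs, ← ha, ← hD']
    rw [← hD'] at hfl hclog
    apply mul_le_mul_of_nonneg_left _ hCs0
    have e1 : 12 * N * a / Real.sqrt ((N : ℝ) ^ ε₁) = 12 * (N * a * (N : ℝ) ^ (-(ε₁ / 2))) := by
      have e2 : Real.sqrt ((N : ℝ) ^ ε₁) = (N : ℝ) ^ (ε₁ / 2) := by
        rw [Real.sqrt_eq_rpow, ← Real.rpow_mul hN0.le]
        congr 1
        ring
      rw [e2, Real.rpow_neg hN0.le]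
      ring
    have e3 : 1 / Real.sqrt N + (D' : ℝ) / N ≤ 2 * (N : ℝ) ^ (-(1 / 30) : ℝ) := by
      have e4 : 1 / Real.sqrt N ≤ (N : ℝ) ^ (-(1 / 30) : ℝ) := by
        rw [Real.sqrt_eq_rpow, one_div, ← Real.rpow_neg hN0.le]
        exact hpow _ _ (by norm_num)
      have e5 : (D' : ℝ) / N ≤ (N : ℝ) ^ (-(1 / 30) : ℝ) := by
        rw [div_le_iff₀ hN0]
        refine hfl.trans ?_
        nth_rewrite 3 [← hNe]
        rw [← Real.rpow_add hN0]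
        exact hpow _ _ (by linarith)
      linarith
    have e6 : ((N : ℝ) ^ τ1) ^ 2 * (N : ℝ) ^ (-(1 / 30) : ℝ) ≤ (N : ℝ) ^ (-(ε₁ / 2)) := by
      rw [← Real.rpow_natCast, ← Real.rpow_mul hN0.le, ← Real.rpow_add hN0]
      apply hpow
      push_cast
      linarith
    have hNa : 0 ≤ N * a := by positivity
    have e7 : ((N : ℝ) ^ τ1) ^ 2 * ((Nat.clog 2 D' + 1) * (48 * N * a * (1 / Real.sqrt N + (D' : ℝ) / N))) ≤
        (2 + 2 * L) * (96 * (N * a * (N : ℝ) ^ (-(ε₁ / 2)))) := by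
      calc ((N : ℝ) ^ τ1) ^ 2 * ((Nat.clog 2 D' + 1) * (48 * N * a * (1 / Real.sqrt N + (D' : ℝ) / N))) ≤
            ((N : ℝ) ^ τ1) ^ 2 * ((2 + 2 * L) * (48 * N * a * (2 * (N : ℝ) ^ (-(1 / 30) : ℝ)))) := by
            apply mul_le_mul_of_nonneg_left _ (by positivity)
            apply mul_le_mul hclog _ (by positivity) (by positivity)
            exact mul_le_mul_of_nonneg_left e3 (by positivity)
        _ = (2 + 2 * L) * (96 * (N * a * (((N : ℝ) ^ τ1) ^ 2 * (N : ℝ) ^ (-(1 / 30) : ℝ)))) := by ring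
        _ ≤ _ := by
            apply mul_le_mul_of_nonneg_left _ (by positivity)
            apply mul_le_mul_of_nonneg_left _ (by norm_num)
            exact mul_le_mul_of_nonneg_left e6 hNa
    rw [e1]
    have hx : 0 ≤ N * a * (N : ℝ) ^ (-(ε₁ / 2)) := by positivity
    nlinarith
  have hlog2 : 2 + Real.log (2 * N) ≤ 4 * L := by
    rw [Real.log_mul (by norm_num) hN0.ne', ← hL]
    linarith [Real.log_two_lt_d9]
  have hl20 : 0 ≤ 2 + Real.log (2 * N) := by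
    rw [Real.log_mul (by norm_num) hN0.ne', ← hL]
    linarith [Real.log_two_gt_d9]
  calc (2 + Real.log (2 * N)) * (G * ((3 * L) ^ j * Es A N ((N : ℝ) ^ τ1) ((N : ℝ) ^ τ) ((N : ℝ) ^ ε₁) C s0)) ≤
        (4 * L) * (G * ((3 * L) ^ j * (Cs * (400 * L * (N * a * (N : ℝ) ^ (-(ε₁ / 2))))))) := by
        apply mul_le_mul hlog2 _ (mul_nonneg hG (mul_nonneg (by positivity) (Es_nonneg _ _ _ _ _ _ _))) (by positivity)
        apply mul_le_mul_of_nonneg_left _ hG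
        exact mul_le_mul_of_nonneg_left hEs (by positivity)
    _ = (1600 * G * 3 ^ j * Cs * L ^ (j + 2)) * (N * a * (N : ℝ) ^ (-(ε₁ / 2))) := by
        rw [mul_pow]
        ring
    _ ≤ (N : ℝ) ^ (ε₁ / 4) * (N * a * (N : ℝ) ^ (-(ε₁ / 2))) := mul_le_mul_of_nonneg_right f1 (by positivity)
    _ = ((N : ℝ) ^ (ε₁ / 4) * (N : ℝ) ^ (1 : ℝ) * (N : ℝ) ^ (-(ε₁ / 2))) * a := by
        rw [hNe]
        ring
    _ = (N : ℝ) ^ (1 - ε₁ / 4) * a := by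
        rw [← Real.rpow_add hN0, ← Real.rpow_add hN0]
        congr 2
        ring
    _ = _ := by rw [ha]

end Pool.Agent.H540.PS
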