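import Pool.Agent.H540.TE.Pg

/-! The theorem for the values at arithmetic progressions, uniformly. -/

set_option autoImplicit false

namespace Pool.Agent.H540.PS

open Finset Filter Polynomial
open Pool.Agent.Y882 (VV PZ tt_lt)
open Pool.Agent.W23.DC (pr Mer)

/-- the polynomial `F (u X + s)` -/
noncomputable def Fsu (F : ℤ[X]) (s u : ℤ) : ℤ[X] := F.comp (C u * X + C s)

theorem Fsu_eval (F : ℤ[X]) (s u m : ℤ) : (Fsu F s u).eval m = F.eval (u * m + s) := by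
  unfold Fsu
  rw [eval_comp, eval_add, eval_mul, eval_C, eval_C, eval_X]

/-- counting by classes -/
theorem per_count (P : ℕ → Prop) [DecidablePred P] (Q N : ℕ) (hQ : 0 < Q) (h : ∀ m, P m ↔ P (m % Q)) :
    ((Icc 1 N).filter P).card ≤ ((range Q).filter P).card * (N / Q + 1) := by
  rw [← card_range (N / Q + 1), ← card_product]
  apply card_le_card_of_injOn (fun m => (m % Q, m / Q))
  · intro m hm
    rw [mem_coe, mem_filter, mem_Icc] at hm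
    rw [mem_coe, mem_product, mem_filter, mem_range, mem_range]
    exact ⟨⟨Nat.mod_lt _ hQ, (h m).1 hm.2⟩, Nat.lt_succ_of_le (Nat.div_le_div_right hm.1.2)⟩
  · intro m _ m' _ he
    simp only [Prod.mk.injEq] at he
    rw [← Nat.div_add_mod m Q, ← Nat.div_add_mod m' Q, he.1, he.2]

open Classical in
theorem cls_le (F : ℤ[X]) (s u : ℤ) (Q : ℕ) (hQ : 0 < Q) (hu : IsCoprime u (Q : ℤ)) :
    ((range Q).filter (fun r : ℕ => (Q : ℤ) ∣ F.eval (u * r + s))).card ≤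
      ((range Q).filter (fun r : ℕ => (Q : ℤ) ∣ F.eval (r : ℤ))).card := by
  have hQz : (0 : ℤ) < Q := by exact_mod_cast hQ
  apply card_le_card_of_injOn (fun r : ℕ => ((u * r + s) % Q).toNat)
  · intro r hr
    rw [mem_coe, mem_filter, mem_range] at hr
    rw [mem_coe, mem_filter, mem_range]
    have h1 := Int.emod_lt_of_pos (u * r + s) hQz
    have h2 := Int.emod_nonneg (u * r + s) hQz.ne'
    show ((u * r + s) % (Q : ℤ)).toNat < Q ∧ (Q : ℤ) ∣ F.eval ((((u * r + s) % (Q : ℤ)).toNat : ℕ) : ℤ)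
    refine ⟨by omega, ?_⟩
    rw [Int.toNat_of_nonneg h2]
    exact (per_dvd0 F Q _ _ (Int.dvd_self_sub_emod)).1 hr.2
  · intro r hr r' hr' he
    rw [mem_coe, mem_filter, mem_range] at hr hr'
    simp only at he
    have h1 := Int.emod_nonneg (u * r + s) hQz.ne'
    have h2 := Int.emod_nonneg (u * r' + s) hQz.ne'
    have h3 : (u * r + s) % (Q : ℤ) = (u * r' + s) % Q := by omega
    have h4 : (Q : ℤ) ∣ (u * r' + s) - (u * r + s) := Int.ModEq.dvd h3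
    have h5 : (Q : ℤ) ∣ u * ((r' : ℤ) - r) := by
      have e : (u * (r' : ℤ) + s) - (u * r + s) = u * (r' - r) := by ring
      rwa [e] at h4
    have h6 : (Q : ℤ) ∣ (r' : ℤ) - r := (hu.symm).dvd_of_dvd_mul_left h5
    have h7 := Int.eq_zero_of_abs_lt_dvd h6 (by rw [abs_lt]; constructor <;> omega)
    omega

open Classical in
theorem rng_icc (F : ℤ[X]) (Q : ℕ) (hQ : 0 < Q) : ((range Q).filter (fun r : ℕ => (Q : ℤ) ∣ F.eval (r : ℤ))).card ≤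
    ((Icc 1 Q).filter (fun r : ℕ => (Q : ℤ) ∣ F.eval (r : ℤ))).card := by
  apply card_le_card_of_injOn (fun r : ℕ => if r = 0 then Q else r)
  · intro r hr
    rw [mem_coe, mem_filter, mem_range] at hr
    rw [mem_coe, mem_filter, mem_Icc]
    by_cases h : r = 0
    · subst h
      simp only [if_true]
      exact ⟨⟨hQ, le_rfl⟩, (per_dvd0 F Q _ _ (by simp)).1 hr.2⟩
    · simp only [h, if_false]
      exact ⟨⟨Nat.pos_of_ne_zero h, hr.1.le⟩, hr.2⟩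
  · intro r hr r' hr' he
    rw [mem_coe, mem_filter, mem_range] at hr hr'
    simp only at he
    split_ifs at he <;> omega

open Classical in
/-- the values divisible by the square of a prime -/
theorem sq_uni (F : ℤ[X]) (hF : Irreducible F) (hd : 0 < F.natDegree) :
    ∃ KK q0 : ℕ, ∀ q : ℕ, q.Prime → q0 ≤ q → ∀ (s u : ℤ), ¬ ((q : ℤ) ∣ u ∧ (q : ℤ) ∣ F.eval s) → ∀ N : ℕ,
      ((((Icc 1 N).filter (fun m : ℕ => ((q ^ 2 : ℕ) : ℤ) ∣ F.eval (u * m + s))).card : ℕ) : ℝ) ≤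
        KK * (N * (1 / (q : ℝ) ^ 2) + 1) := by
  obtain ⟨KK, q0, H⟩ := Pool.Agent.K3h21.IR.sq_irr F hF hd
  refine ⟨2 * KK, q0, ?_⟩
  intro q hq hq0 s u hus N
  have hq1 : 0 < q := hq.pos
  have hqr0 : (0 : ℝ) < q := by exact_mod_cast hq1
  have hqr : (0 : ℝ) < (q : ℝ) ^ 2 := by positivity
  have hq2 : 0 < q ^ 2 := by positivity
  by_cases hqu : (q : ℤ) ∣ u
  · have hs : ¬ (q : ℤ) ∣ F.eval s := fun h => hus ⟨hqu, h⟩
    have : ((Icc 1 N).filter (fun m : ℕ => ((q ^ 2 : ℕ) : ℤ) ∣ F.eval (u * m + s))) = ∅ := by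
      rw [filter_eq_empty_iff]
      intro m _ h
      apply hs
      have h1 : (q : ℤ) ∣ F.eval (u * m + s) := by
        refine dvd_trans ?_ h
        push_cast
        exact dvd_pow_self _ (by norm_num)
      refine (per_dvd0 F q (u * m + s) s ?_).1 h1
      have e : u * (m : ℤ) + s - s = u * m := by ring
      rw [e]
      exact Dvd.dvd.mul_right hqu _
    rw [this, card_empty]
    push_cast
    positivity
  · have hcop : IsCoprime u ((q ^ 2 : ℕ) : ℤ) := by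
      push_cast
      exact (((Nat.prime_iff_prime_int.1 hq).coprime_iff_not_dvd.2 hqu).symm).pow_right
    have h1 := per_count (fun m : ℕ => ((q ^ 2 : ℕ) : ℤ) ∣ F.eval (u * m + s)) (q ^ 2) N hq2 (by
      intro m
      refine per_dvd0 F (q ^ 2) _ _ ?_
      have e : u * (m : ℤ) + s - (u * ((m % q ^ 2 : ℕ) : ℤ) + s) = u * (m - ((m % q ^ 2 : ℕ) : ℤ)) := by ring
      rw [e]
      refine Dvd.dvd.mul_left ?_ _
      rw [Int.natCast_mod]
      exact Int.dvd_self_sub_emod)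
    have h2 := (cls_le F s u (q ^ 2) hq2 hcop).trans (rng_icc F (q ^ 2) hq2)
    have h3 := H q hq hq0 0 (q ^ 2)
    simp only [zero_add] at h3
    have h4 : ((q ^ 2 : ℕ) : ℝ) * (1 / (q : ℝ) ^ 2) + 1 = 2 := by
      push_cast
      field_simp
      norm_num
    rw [h4] at h3
    have h5 : ((N / q ^ 2 : ℕ) : ℝ) ≤ N * (1 / (q : ℝ) ^ 2) := by
      have h6 : ((N / q ^ 2 : ℕ) : ℝ) ≤ (N : ℝ) / ((q ^ 2 : ℕ) : ℝ) := Nat.cast_div_le
      push_cast at h6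
      rw [mul_one_div]
      exact h6
    have h7 : ((((Icc 1 N).filter (fun m : ℕ => ((q ^ 2 : ℕ) : ℤ) ∣ F.eval (u * m + s))).card : ℕ) : ℝ) ≤
        ((((range (q ^ 2)).filter (fun r : ℕ => ((q ^ 2 : ℕ) : ℤ) ∣ F.eval (u * r + s))).card : ℕ) : ℝ) *
          (((N / q ^ 2 : ℕ) : ℝ) + 1) := by
      exact_mod_cast h1
    have h8 : ((((range (q ^ 2)).filter (fun r : ℕ => ((q ^ 2 : ℕ) : ℤ) ∣ F.eval (u * r + s))).card : ℕ) : ℝ) ≤
        KK * 2 := le_trans (Nat.cast_le.2 h2) h3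
    calc _ ≤ _ := h7
      _ ≤ (KK * 2) * (N * (1 / (q : ℝ) ^ 2) + 1) := by
          apply mul_le_mul h8 (by linarith) (by positivity) (by positivity)
      _ = _ := by push_cast; ring

open Classical in
/-- few values with a large square factor -/
theorem bad_uni (F : ℤ[X]) (hF : Irreducible F) (hd : 0 < F.natDegree) :
    ∃ KK q0 : ℕ, ∀ (N : ℕ) (ζ υ : ℝ) (s u : ℤ), 2 ≤ N → 0 ≤ ζ → υ ≤ 1 → (q0 : ℝ) ≤ (N : ℝ) ^ ζ →
      (∀ q : ℕ, q.Prime → ¬ ((q : ℤ) ∣ u ∧ (q : ℤ) ∣ F.eval s)) →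
      (((Icc 1 N).filter (fun m : ℕ => ∃ q ∈ pr N ζ υ, ((q ^ 2 : ℕ) : ℤ) ∣ F.eval (u * m + s))).card : ℝ) ≤
        KK * (2 * N / (N : ℝ) ^ ζ + (N : ℝ) ^ υ + 1) := by
  obtain ⟨KK, q0, H⟩ := sq_uni F hF hd
  refine ⟨KK, q0, ?_⟩
  intro N ζ υ s u hN2 hζ hυ hq0 hus
  have hNr : (1 : ℝ) ≤ N := by exact_mod_cast (by omega : 1 ≤ N)
  have hN0 : (0 : ℝ) < N := by linarith
  have hpr : ∀ q ∈ pr N ζ υ, q.Prime ∧ (N : ℝ) ^ ζ ≤ q ∧ (q : ℝ) < (N : ℝ) ^ υ ∧ 1 ≤ q ∧ q ≤ N := by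
    intro q hq
    unfold pr at hq
    rw [mem_filter, mem_Icc] at hq
    obtain ⟨⟨a1, a2⟩, a3, a4, a5⟩ := hq
    refine ⟨a3, ?_, (tt_lt N q υ hN2 a3.pos).1 a5, a1, a2⟩
    by_contra hcon
    push Not at hcon
    have := (tt_lt N q ζ hN2 a3.pos).2 hcon
    linarith
  have h1 : ((Icc 1 N).filter (fun m : ℕ => ∃ q ∈ pr N ζ υ, ((q ^ 2 : ℕ) : ℤ) ∣ F.eval (u * m + s))) ⊆
      (pr N ζ υ).biUnion (fun q => (Icc 1 N).filter (fun j : ℕ =>
        ((q ^ 2 : ℕ) : ℤ) ∣ F.eval (u * j + s))) := by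
    intro m hm
    rw [mem_filter] at hm
    obtain ⟨hm1, q, hq, hqm⟩ := hm
    rw [mem_biUnion]
    refine ⟨q, hq, ?_⟩
    rw [mem_filter]
    exact ⟨hm1, hqm⟩
  have h2 : (((Icc 1 N).filter (fun m : ℕ => ∃ q ∈ pr N ζ υ, ((q ^ 2 : ℕ) : ℤ) ∣ F.eval (u * m + s))).card : ℝ) ≤
      ∑ q ∈ pr N ζ υ, (((Icc 1 N).filter (fun j : ℕ =>
        ((q ^ 2 : ℕ) : ℤ) ∣ F.eval (u * j + s))).card : ℝ) := by
    exact_mod_cast (card_le_card h1).trans card_biUnion_le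
  refine h2.trans ?_
  have h3 : ∑ q ∈ pr N ζ υ, (((Icc 1 N).filter (fun j : ℕ =>
        ((q ^ 2 : ℕ) : ℤ) ∣ F.eval (u * j + s))).card : ℝ) ≤
      ∑ q ∈ pr N ζ υ, KK * (N * (1 / (q : ℝ) ^ 2) + 1) := by
    apply sum_le_sum
    intro q hq
    obtain ⟨a1, a2, _⟩ := hpr q hq
    exact H q a1 (by exact_mod_cast hq0.trans a2) s u (hus q a1) N
  refine h3.trans ?_
  rw [← mul_sum, sum_add_distrib, ← mul_sum, sum_const, nsmul_eq_mul, mul_one]
  apply mul_le_mul_of_nonneg_left _ (Nat.cast_nonneg _)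
  have h4 : ∑ q ∈ pr N ζ υ, 1 / (q : ℝ) ^ 2 ≤ 2 / (N : ℝ) ^ ζ := by
    have hNζ : (1 : ℝ) ≤ (N : ℝ) ^ ζ := Real.one_le_rpow hNr hζ
    set k := ⌈(N : ℝ) ^ ζ⌉₊ - 1 with hk
    have hk1 : 1 ≤ ⌈(N : ℝ) ^ ζ⌉₊ := Nat.one_le_ceil_iff.2 (by linarith)
    have h5 : pr N ζ υ ⊆ Ioo k (N + 1) := by
      intro q hq
      obtain ⟨_, a2, _, _, a5⟩ := hpr q hq
      rw [mem_Ioo]
      have : ⌈(N : ℝ) ^ ζ⌉₊ ≤ q := Nat.ceil_le.2 a2
      omega
    calc ∑ q ∈ pr N ζ υ, 1 / (q : ℝ) ^ 2 ≤ ∑ q ∈ Ioo k (N + 1), 1 / (q : ℝ) ^ 2 :=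
          sum_le_sum_of_subset_of_nonneg h5 (fun _ _ _ => by positivity)
      _ = ∑ q ∈ Ioo k (N + 1), ((q : ℝ) ^ 2)⁻¹ := by simp only [one_div]
      _ ≤ 2 / (k + 1) := sum_Ioo_inv_sq_le k (N + 1)
      _ ≤ 2 / (N : ℝ) ^ ζ := by
          apply div_le_div_of_nonneg_left (by norm_num) (by linarith)
          have h6 : ((k : ℝ) + 1) = (⌈(N : ℝ) ^ ζ⌉₊ : ℝ) := by
            rw [hk]
            push_cast [Nat.cast_sub hk1]
            ring
          rw [h6]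
          exact Nat.le_ceil _
  have h5 : ((pr N ζ υ).card : ℝ) ≤ (N : ℝ) ^ υ + 1 := by
    have h6 : pr N ζ υ ⊆ Icc 1 ⌊(N : ℝ) ^ υ⌋₊ := by
      intro q hq
      obtain ⟨_, _, a3, a4, _⟩ := hpr q hq
      rw [mem_Icc]
      exact ⟨a4, Nat.le_floor a3.le⟩
    have h7 := card_le_card h6
    rw [Nat.card_Icc, Nat.add_sub_cancel] at h7
    have h8 : ((pr N ζ υ).card : ℝ) ≤ (⌊(N : ℝ) ^ υ⌋₊ : ℝ) := by exact_mod_cast h7
    have h9 := Nat.floor_le (show 0 ≤ (N : ℝ) ^ υ by positivity)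
    linarith
  have h6 : (N : ℝ) * ∑ q ∈ pr N ζ υ, 1 / (q : ℝ) ^ 2 ≤ 2 * N / (N : ℝ) ^ ζ := by
    calc (N : ℝ) * ∑ q ∈ pr N ζ υ, 1 / (q : ℝ) ^ 2 ≤ N * (2 / (N : ℝ) ^ ζ) :=
          mul_le_mul_of_nonneg_left h4 hN0.le
      _ = _ := by ring
  linarith

/-- the number of the large prime divisors -/
theorem big_div (N : ℕ) (hN : 1 < N) (ε E : ℝ) (hε : 0 < ε) (u : ℤ) (hu0 : u ≠ 0) (hu : |(u : ℝ)| ≤ (N : ℝ) ^ E)
    (S : Finset ℕ) (hS : ∀ p ∈ S, p.Prime ∧ (N : ℝ) ^ ε ≤ p ∧ (p : ℤ) ∣ u) : (S.card : ℝ) ≤ E / ε := by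
  have hNr : (1 : ℝ) < N := by exact_mod_cast hN
  have hN0 : (0 : ℝ) < N := by linarith
  have h1 : ∏ p ∈ S, p ∣ u.natAbs := by
    apply Finset.prod_primes_dvd
    · intro p hp
      exact (hS p hp).1.prime
    · intro p hp
      exact Int.natCast_dvd.1 (hS p hp).2.2
  have h2 : ((N : ℝ) ^ ε) ^ S.card ≤ ((∏ p ∈ S, p : ℕ) : ℝ) := by
    push_cast
    rw [← prod_const]
    exact prod_le_prod (fun _ _ => by positivity) (fun p hp => (hS p hp).2.1)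
  have h3 : ((∏ p ∈ S, p : ℕ) : ℝ) ≤ (N : ℝ) ^ E := by
    have h4 := Nat.le_of_dvd (Int.natAbs_pos.2 hu0) h1
    have h5 : ((∏ p ∈ S, p : ℕ) : ℝ) ≤ (u.natAbs : ℝ) := by exact_mod_cast h4
    rw [Nat.cast_natAbs, Int.cast_abs] at h5
    linarith
  rw [le_div_iff₀ hε]
  by_contra hcon
  push Not at hcon
  have h4 : (N : ℝ) ^ E < ((N : ℝ) ^ ε) ^ S.card := by
    rw [← Real.rpow_natCast, ← Real.rpow_mul hN0.le]
    apply Real.rpow_lt_rpow_of_exponent_lt hNr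
    linarith
  linarith

/-- the number of the roots of the shifted polynomial -/
theorem rr_uni (F : ℤ[X]) (s u : ℤ) (p : ℕ) (hp : p.Prime) (hu : ¬ (p : ℤ) ∣ u) :
    (RR (fun m => (p : ℤ) ∣ (Fsu F s u).eval m) p).card = Pool.Agent.H300R2.BH.rho F p := by
  classical
  have hcop : IsCoprime u (p : ℤ) := ((Nat.prime_iff_prime_int.1 hp).coprime_iff_not_dvd.2 hu).symm
  have hpz : (0 : ℤ) < p := by exact_mod_cast hp.pos
  apply le_antisymm
  · refine le_trans (le_of_eq ?_) (cls_le F s u p hp.pos hcop)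
    congr 1
    ext r
    rw [mem_RR, mem_filter, mem_range, Fsu_eval]
  · obtain ⟨v, w, hvw⟩ := hcop
    have hv : IsCoprime v (p : ℤ) := ⟨u, w, by rw [← hvw]; ring⟩
    have h1 := cls_le (F.comp (C u * X + C s)) (-(v * s)) v p hp.pos hv
    have e1 : ((range p).filter (fun r : ℕ => (p : ℤ) ∣ (F.comp (C u * X + C s)).eval (v * r + -(v * s)))) =
        (range p).filter (fun r : ℕ => (p : ℤ) ∣ F.eval (r : ℤ)) := by
      apply filter_congr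
      intro r _
      rw [eval_comp, eval_add, eval_mul, eval_C, eval_C, eval_X]
      apply per_dvd0
      refine ⟨-(w * (r - s)), ?_⟩
      have : u * (v * (r : ℤ) + -(v * s)) + s - r = (v * u) * (r - s) - (r - s) := by ring
      rw [this]
      have h2 : v * u = 1 - w * p := by linarith
      rw [h2]
      ring
    rw [e1] at h1
    unfold Pool.Agent.H300R2.BH.rho
    refine h1.trans (le_of_eq ?_)
    congr 1
    ext r
    rw [mem_RR, mem_filter, mem_range]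
    rfl

theorem rr_uni0 (F : ℤ[X]) (s u : ℤ) (p : ℕ) (hu : (p : ℤ) ∣ u) (hs : ¬ (p : ℤ) ∣ F.eval s) :
    (RR (fun m => (p : ℤ) ∣ (Fsu F s u).eval m) p).card = 0 := by
  rw [card_eq_zero, eq_empty_iff_forall_notMem]
  intro r hr
  rw [mem_RR, Fsu_eval] at hr
  apply hs
  refine (per_dvd0 F p (u * r + s) s ?_).1 hr.2
  have e : u * (r : ℤ) + s - s = u * r := by ring
  rw [e]
  exact Dvd.dvd.mul_right hu _

theorem rho_le (F : ℤ[X]) (hd : 0 < F.natDegree) (p : ℕ) (hp : p.Prime) :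
    Pool.Agent.H300R2.BH.rho F p ≤ Pool.Agent.Y882.PX.KF F := by
  classical
  have h1 := Pool.Agent.Y882.PX.ro_le F hd 0 p hp
  rw [Pool.Agent.Y882.PX.ro_eq] at h1
  unfold Pool.Agent.H300R2.BH.rho
  refine le_trans (le_of_eq ?_) h1
  congr 1
  apply filter_congr
  intro r _
  rw [add_zero]

/-- Mertens' formula, uniformly -/
theorem mer_uni (F : ℤ[X]) (hF : Irreducible F) (hd : 0 < F.natDegree) (ε υ η E : ℝ) (hε : 0 < ε) (hυ : υ ≤ 1)
    (hη : 0 < η) (hE : 0 ≤ E) : ∃ N0 : ℕ, ∀ N : ℕ, N0 ≤ N → ∀ s u : ℤ, u ≠ 0 → |(u : ℝ)| ≤ (N : ℝ) ^ E →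
      (∀ q : ℕ, q.Prime → ¬ ((q : ℤ) ∣ u ∧ (q : ℤ) ∣ F.eval s)) →
      Mer (pr N ε υ) (Pool.Agent.W23.DC.tt N)
        (fun p => ((RR (fun m => (p : ℤ) ∣ (Fsu F s u).eval m) p).card : ℝ) / p) ε υ η := by
  classical
  obtain ⟨Y2, HM⟩ := Pool.Agent.K3h21.IR.mer_irr F hF hd ε υ (η / 2) hε hυ (by linarith)
  obtain ⟨K, hK⟩ : ∃ K : ℕ, K = Pool.Agent.Y882.PX.KF F := ⟨_, rfl⟩
  obtain ⟨N1, HN1⟩ := eventually_atTop.1 ((tpow hε).eventually_ge_atTop ((E / ε) * K / (η / 2)))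
  refine ⟨max Y2 (max N1 2), ?_⟩
  intro N hN s u hu0 hu hus
  have hN2 : 2 ≤ N := ((le_max_right _ _).trans (le_max_right _ _)).trans hN
  have hN1' : N1 ≤ N := ((le_max_left _ _).trans (le_max_right _ _)).trans hN
  have hY2 : Y2 ≤ N := (le_max_left _ _).trans hN
  have hNr : (1 : ℝ) < N := by exact_mod_cast hN2
  have hN0 : (0 : ℝ) < N := by linarith
  have hbig := HN1 N hN1'
  intro a b ha hab hb
  have h1 : |∑ p ∈ (pr N ε υ).filter (fun p => a ≤ Pool.Agent.W23.DC.tt N p ∧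
    Pool.Agent.W23.DC.tt N p < b), (Pool.Agent.H300R2.BH.rho F p : ℝ) / p - Real.log (b / a)| ≤ η / 2 :=
    HM N hY2 a b ha hab hb
  obtain ⟨T, hT⟩ : ∃ T, T = (pr N ε υ).filter (fun p => a ≤ Pool.Agent.W23.DC.tt N p ∧
    Pool.Agent.W23.DC.tt N p < b) := ⟨_, rfl⟩
  rw [← hT] at h1 ⊢
  have hTp : ∀ p ∈ T, p.Prime ∧ (N : ℝ) ^ ε ≤ p := by
    intro p hp
    rw [hT, mem_filter, mem_pr'] at hp
    obtain ⟨⟨g1, g2, g3, g4⟩, _⟩ := hp
    refine ⟨g2, ?_⟩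
    by_contra hcon
    push Not at hcon
    have := (tt_lt N p ε hN2 g2.pos).2 hcon
    linarith
  have h2 : |∑ p ∈ T, ((RR (fun m => (p : ℤ) ∣ (Fsu F s u).eval m) p).card : ℝ) / p -
      ∑ p ∈ T, (Pool.Agent.H300R2.BH.rho F p : ℝ) / p| ≤ η / 2 := by
    rw [← sum_sub_distrib]
    have h3 : ∑ p ∈ T, (((RR (fun m => (p : ℤ) ∣ (Fsu F s u).eval m) p).card : ℝ) / p -
        (Pool.Agent.H300R2.BH.rho F p : ℝ) / p) = ∑ p ∈ T.filter (fun p : ℕ => (p : ℤ) ∣ u),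
        (((RR (fun m => (p : ℤ) ∣ (Fsu F s u).eval m) p).card : ℝ) / p -
        (Pool.Agent.H300R2.BH.rho F p : ℝ) / p) := by
      symm
      apply sum_subset (filter_subset _ _)
      intro p hp hpn
      rw [mem_filter, not_and] at hpn
      rw [rr_uni F s u p (hTp p hp).1 (hpn hp), sub_self]
    rw [h3]
    refine (abs_sum_le_sum_abs _ _).trans ?_
    have h4 : ∀ p ∈ T.filter (fun p : ℕ => (p : ℤ) ∣ u),
        |((RR (fun m => (p : ℤ) ∣ (Fsu F s u).eval m) p).card : ℝ) / p -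
        (Pool.Agent.H300R2.BH.rho F p : ℝ) / p| ≤ K / (N : ℝ) ^ ε := by
      intro p hp
      rw [mem_filter] at hp
      obtain ⟨g1, g2⟩ := hTp p hp.1
      rw [rr_uni0 F s u p hp.2 (fun h => hus p g1 ⟨hp.2, h⟩), Nat.cast_zero, zero_div, zero_sub, abs_neg,
        abs_of_nonneg (by positivity)]
      have g3 := rho_le F hd p g1
      rw [← hK] at g3
      apply div_le_div₀ (Nat.cast_nonneg _) (by exact_mod_cast g3) (by positivity) g2
    refine (sum_le_sum h4).trans ?_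
    rw [sum_const, nsmul_eq_mul]
    have h5 := big_div N hN2 ε E hε u hu0 hu (T.filter (fun p : ℕ => (p : ℤ) ∣ u)) (by
      intro p hp
      rw [mem_filter] at hp
      exact ⟨(hTp p hp.1).1, (hTp p hp.1).2, hp.2⟩)
    have hpos : (0 : ℝ) < (N : ℝ) ^ ε := by positivity
    calc ((T.filter (fun p : ℕ => (p : ℤ) ∣ u)).card : ℝ) * (K / (N : ℝ) ^ ε) ≤ (E / ε) * (K / (N : ℝ) ^ ε) :=
          mul_le_mul_of_nonneg_right h5 (by positivity)
      _ = ((E / ε) * K) / (N : ℝ) ^ ε := by ring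
      _ ≤ η / 2 := by
          rw [div_le_iff₀ hpos]
          rw [div_le_iff₀ (by linarith)] at hbig
          linarith
  have h3 : |∑ p ∈ T, ((RR (fun m => (p : ℤ) ∣ (Fsu F s u).eval m) p).card : ℝ) / p - Real.log (b / a)| ≤
      |∑ p ∈ T, ((RR (fun m => (p : ℤ) ∣ (Fsu F s u).eval m) p).card : ℝ) / p -
      ∑ p ∈ T, (Pool.Agent.H300R2.BH.rho F p : ℝ) / p| +
      |∑ p ∈ T, (Pool.Agent.H300R2.BH.rho F p : ℝ) / p - Real.log (b / a)| := by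
    have e : ∑ p ∈ T, ((RR (fun m => (p : ℤ) ∣ (Fsu F s u).eval m) p).card : ℝ) / p - Real.log (b / a) =
      (∑ p ∈ T, ((RR (fun m => (p : ℤ) ∣ (Fsu F s u).eval m) p).card : ℝ) / p -
      ∑ p ∈ T, (Pool.Agent.H300R2.BH.rho F p : ℝ) / p) +
      (∑ p ∈ T, (Pool.Agent.H300R2.BH.rho F p : ℝ) / p - Real.log (b / a)) := by ring
    rw [e]
    exact abs_add_le _ _
  linarith

open Classical in
/-- **The uniform theorem.** -/
theorem polyU (F : ℤ[X]) (hF : Irreducible F) (hd : 0 < F.natDegree) (d J r : ℕ) (T Hh κ δ : ℝ) (hT : 0 ≤ T)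
    (hH : 0 ≤ Hh) (hκ : 0 < κ) (hδ : 0 < δ)
    (hr : 9 / 8 + (F.natDegree * T + 1 / 1000) / (24 / 25 * (24 / 25)) ≤ r + 1) :
    ∃ (c : ℝ) (R N0 : ℕ), 0 < c ∧ c ≤ δ ∧ ∀ N : ℕ, N0 ≤ N →
      ∀ (s u : ℤ) (G : ℕ → ℤ[X]) (A : Finset ℤ), u ≠ 0 → |(s : ℝ)| + |(u : ℝ)| * N ≤ (N : ℝ) ^ T →
      (∀ p : ℕ, p.Prime → (p : ℤ) ∣ F.eval s → (N : ℝ) ^ κ ≤ p ∧ ¬ (p : ℤ) ∣ u) →
      (∀ i < J, (G i).natDegree ≤ d ∧ (∀ j, |((G i).coeff j : ℝ)| ≤ (N : ℝ) ^ Hh) ∧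
        ∀ p : ℕ, p.Prime → (p : ℤ) ∣ (G i).eval 0 → (N : ℝ) ^ κ ≤ p) →
      (∀ a ∈ A, 1 ≤ a ∧ a ≤ N) → (N : ℝ) ^ (1 - c) ≤ A.card →
      (N : ℝ) ^ (2 - δ) ≤ (((A ×ˢ A).filter (fun z : ℤ × ℤ => z.2 < z.1 ∧
        AP r ((N : ℝ) ^ (6 / 25 : ℝ)) (F.eval (u * (z.1 - z.2) + s)).natAbs ∧
        ∀ i < J, AP R ((N : ℝ) ^ c) ((G i).eval (z.1 - z.2)).natAbs)).card : ℝ) := by
  obtain ⟨c, ε₁, η, R, N1, hc, hcδ, hε, hη, H⟩ := genS (Pool.Agent.Y882.PX.KF F) d J r 0 Hh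
    (F.natDegree * T + 1 / 1000) κ δ le_rfl hH hκ hδ hr
  obtain ⟨N2, HN2⟩ := mer_uni F hF hd ε₁ (24 / 25 * (24 / 25)) η T hε (by norm_num) hη hT
  obtain ⟨KK, q0, HB⟩ := bad_uni F hF hd
  obtain ⟨CF, hCF⟩ : ∃ CF : ℝ, 0 ≤ CF ∧ ∀ j, |(F.coeff j : ℝ)| ≤ CF := by
    refine ⟨∑ j ∈ range (F.natDegree + 1), |(F.coeff j : ℝ)|, sum_nonneg fun _ _ => abs_nonneg _, ?_⟩
    intro j
    by_cases hj : j ≤ F.natDegree
    · exact single_le_sum (f := fun j => |(F.coeff j : ℝ)|) (fun _ _ => abs_nonneg _)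
        (mem_range.2 (Nat.lt_succ_of_le hj))
    · rw [coeff_eq_zero_of_natDegree_lt (by omega), Int.cast_zero, abs_zero]
      exact sum_nonneg fun _ _ => abs_nonneg _
  have v2 : ∀ (x : ℝ) (κ : ℝ), 0 < κ → ∀ᶠ N : ℕ in atTop, x ≤ (N : ℝ) ^ κ := fun x κ hκ =>
    (tpow hκ).eventually_ge_atTop _
  obtain ⟨N3, HN3⟩ := eventually_atTop.1 ((v2 (((F.natDegree : ℝ) + 1) * CF) (1 / 1000) (by norm_num)).and
    ((v2 q0 (6 / 25) (by norm_num)).and ((v2 ((KK : ℝ) * 4) (1 / 100) (by norm_num)).and (eventually_ge_atTop 3))))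
  refine ⟨c, R, max (max N1 N2) N3, hc, hcδ, ?_⟩
  intro N hN s u G A hu0 hsu hFs hG hA hAc
  obtain ⟨k1, k2, k3, k4⟩ := HN3 N ((le_max_right _ _).trans hN)
  have hN3r : (3 : ℝ) ≤ N := by exact_mod_cast k4
  have hNp : (0 : ℝ) < N := by linarith
  have hN1 : (1 : ℝ) ≤ N := by linarith
  have hpow : ∀ a b : ℝ, a ≤ b → (N : ℝ) ^ a ≤ (N : ℝ) ^ b := fun a b h =>
    Real.rpow_le_rpow_of_exponent_le hN1 h
  have hus : ∀ q : ℕ, q.Prime → ¬ ((q : ℤ) ∣ u ∧ (q : ℤ) ∣ F.eval s) := by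
    rintro q hq ⟨h1, h2⟩
    exact (hFs q hq h2).2 h1
  have huN : |(u : ℝ)| ≤ (N : ℝ) ^ T := by
    have h1 : |(u : ℝ)| * 1 ≤ |(u : ℝ)| * N := mul_le_mul_of_nonneg_left hN1 (abs_nonneg _)
    have h2 := abs_nonneg (s : ℝ)
    linarith
  have hmain := H N (((le_max_left _ _).trans (le_max_left _ _)).trans hN) (Fsu F s u) 0 G A (by
      intro p hp
      by_cases hpu : (p : ℤ) ∣ u
      · rw [rr_uni0 F s u p hpu (fun h => hus p hp ⟨hpu, h⟩)]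
        exact Nat.zero_le _
      · rw [rr_uni F s u p hp hpu]
        exact rho_le F hd p hp)
    (HN2 N (((le_max_right _ _).trans (le_max_left _ _)).trans hN) s u hu0 huN hus) (by
      intro m hm1 hmN
      rw [zero_add, Fsu_eval]
      have hx : |((u * (m : ℤ) + s : ℤ) : ℝ)| ≤ (N : ℝ) ^ T := by
        push_cast
        refine (abs_add_le _ _).trans ?_
        rw [abs_mul]
        have h1 : |((m : ℕ) : ℝ)| ≤ N := by
          rw [abs_of_nonneg (Nat.cast_nonneg _)]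
          exact_mod_cast hmN
        have h2 := mul_le_mul_of_nonneg_left h1 (abs_nonneg (u : ℝ))
        linarith
      have h1 := eval_bound2 F F.natDegree (u * m + s) ((N : ℝ) ^ T) CF (Real.one_le_rpow hN1 hT) hCF.1 le_rfl hx hCF.2
      refine h1.trans ?_
      calc ((F.natDegree : ℝ) + 1) * (CF * ((N : ℝ) ^ T) ^ F.natDegree) =
            (((F.natDegree : ℝ) + 1) * CF) * ((N : ℝ) ^ T) ^ F.natDegree := by ring
        _ ≤ (N : ℝ) ^ (1 / 1000 : ℝ) * ((N : ℝ) ^ T) ^ F.natDegree :=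
            mul_le_mul_of_nonneg_right k1 (by positivity)
        _ = _ := by
            rw [← Real.rpow_natCast, ← Real.rpow_mul hNp.le, ← Real.rpow_add hNp]
            congr 1
            ring) (by
      have h1 := HB N (6 / 25) (24 / 25 * (24 / 25)) s u (by omega) (by norm_num) (by norm_num) k2 hus
      have e : ((Icc 1 N).filter (fun m : ℕ => ∃ q ∈ pr N (6 / 25) (24 / 25 * (24 / 25)),
          ((q ^ 2 : ℕ) : ℤ) ∣ (Fsu F s u).eval (0 + (m : ℤ)))) =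
          ((Icc 1 N).filter (fun m : ℕ => ∃ q ∈ pr N (6 / 25) (24 / 25 * (24 / 25)),
          ((q ^ 2 : ℕ) : ℤ) ∣ F.eval (u * m + s))) := by
        apply filter_congr
        intro m _
        rw [zero_add, Fsu_eval]
      rw [e]
      refine h1.trans ?_
      have hN1' : (N : ℝ) = (N : ℝ) ^ (1 : ℝ) := (Real.rpow_one _).symm
      have h2 : 2 * N / (N : ℝ) ^ (6 / 25 : ℝ) ≤ 2 * (N : ℝ) ^ (24 / 25 * (24 / 25) : ℝ) := by
        rw [div_le_iff₀ (by positivity), mul_assoc, ← Real.rpow_add hNp]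
        apply mul_le_mul_of_nonneg_left _ (by norm_num)
        calc (N : ℝ) = (N : ℝ) ^ (1 : ℝ) := hN1'
          _ ≤ _ := hpow _ _ (by norm_num)
      have h3 : (1 : ℝ) ≤ (N : ℝ) ^ (24 / 25 * (24 / 25) : ℝ) := Real.one_le_rpow hN1 (by norm_num)
      calc KK * (2 * N / (N : ℝ) ^ (6 / 25 : ℝ) + (N : ℝ) ^ (24 / 25 * (24 / 25) : ℝ) + 1) ≤
            KK * (4 * (N : ℝ) ^ (24 / 25 * (24 / 25) : ℝ)) := by
            apply mul_le_mul_of_nonneg_left _ (Nat.cast_nonneg _)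
            linarith
        _ = (KK * 4) * (N : ℝ) ^ (24 / 25 * (24 / 25) : ℝ) := by ring
        _ ≤ (N : ℝ) ^ (1 / 100 : ℝ) * (N : ℝ) ^ (24 / 25 * (24 / 25) : ℝ) :=
            mul_le_mul_of_nonneg_right k3 (by positivity)
        _ = (N : ℝ) ^ (1 / 100 + 24 / 25 * (24 / 25) : ℝ) := by rw [Real.rpow_add hNp]
        _ ≤ _ := hpow _ _ (by norm_num)) (by
      intro p hp h1
      rw [Fsu_eval, mul_zero, zero_add] at h1
      exact (hFs p hp h1).1) (by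
      rw [Int.cast_zero, abs_zero]
      positivity) hG hA hAc
  refine hmain.trans (le_of_eq ?_)
  congr 2
  apply filter_congr
  intro z _
  rw [zero_add, Fsu_eval]

end Pool.Agent.H540.PS
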